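import Mathlib

set_option autoImplicit false

/-!
A finitary closure operator generated by a set-valued map on finite sets.
-/

namespace Pool.Agent.H27.FinClosure

open Set Cardinal

universe u

variable {X : Type u}

/-- `B` is closed under the finitary operation `Φ`. -/
def IsCl (Φ : Finset X → Set X) (B : Set X) : Prop :=
  ∀ F : Finset X, (F : Set X) ⊆ B → Φ F ⊆ B

/-- the closure of `S` under `Φ`. -/
def Cl (Φ : Finset X → Set X) (S : Set X) : Set X :=
  ⋂₀ {B | S ⊆ B ∧ IsCl Φ B}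

variable {Φ : Finset X → Set X}

theorem subset_Cl (S : Set X) : S ⊆ Cl Φ S := by
  intro x hx B hB
  exact hB.1 hx

theorem Cl_min {S B : Set X} (h : S ⊆ B) (hB : IsCl Φ B) : Cl Φ S ⊆ B := by
  intro x hx
  exact hx B ⟨h, hB⟩

theorem isCl_Cl (S : Set X) : IsCl Φ (Cl Φ S) := by
  intro F hF x hx B hB
  refine hB.2 F ?_ hx
  exact hF.trans (Cl_min hB.1 hB.2)

theorem Cl_mono {S T : Set X} (h : S ⊆ T) : Cl Φ S ⊆ Cl Φ T :=
  Cl_min (h.trans (subset_Cl T)) (isCl_Cl T)

/-- A directed union of closed sets is closed. -/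
theorem isCl_iUnion {ι : Type*} [Nonempty ι] (S : ι → Set X)
    (hdir : Directed (· ⊆ ·) S) (hS : ∀ i, IsCl Φ (S i)) : IsCl Φ (⋃ i, S i) := by
  intro F hF x hx
  have : ∃ i, (F : Set X) ⊆ S i := by
    have h1 := hdir.exists_mem_subset_of_finset_subset_biUnion hF
    exact h1
  obtain ⟨i, hi⟩ := this
  exact mem_iUnion.2 ⟨i, hS i F hi hx⟩

theorem Cl_iUnion {ι : Type*} [Nonempty ι] (S : ι → Set X)
    (hdir : Directed (· ⊆ ·) S) : Cl Φ (⋃ i, S i) = ⋃ i, Cl Φ (S i) := by
  apply Subset.antisymm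
  · apply Cl_min
    · exact iUnion_mono fun i => subset_Cl _
    · apply isCl_iUnion
      · intro i j
        obtain ⟨k, hk⟩ := hdir i j
        exact ⟨k, Cl_mono hk.1, Cl_mono hk.2⟩
      · intro i
        exact isCl_Cl _
  · exact iUnion_subset fun i => Cl_mono (subset_iUnion S i)

/-- one closure step -/
def step (Φ : Finset X → Set X) (S : Set X) : Set X :=
  S ∪ ⋃ (F : {F : Finset X // (F : Set X) ⊆ S}), Φ F.1

theorem mk_finset_sub_le (S : Set X) :
    #{F : Finset X // (F : Set X) ⊆ S} ≤ max #S ℵ₀ := by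
  classical
  have h1 : #{F : Finset X // (F : Set X) ⊆ S} ≤ #(Finset S) := by
    refine Cardinal.mk_le_of_injective (f := fun F => F.1.subtype (· ∈ S)) ?_
    intro F G hFG
    have hF : (F.1.subtype (· ∈ S)).map (Function.Embedding.subtype _) = F.1 :=
      Finset.subtype_map_of_mem (fun x hx => F.2 hx)
    have hG : (G.1.subtype (· ∈ S)).map (Function.Embedding.subtype _) = G.1 :=
      Finset.subtype_map_of_mem (fun x hx => G.2 hx)
    apply Subtype.ext
    rw [← hF, ← hG]
    simp only at hFG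
    rw [hFG]
  refine h1.trans ?_
  rcases finite_or_infinite S with hS | hS
  · refine le_max_of_le_right ?_
    exact (Cardinal.lt_aleph0_of_finite _).le
  · rw [Cardinal.mk_finset_of_infinite]
    exact le_max_left _ _

theorem mk_step_le (hΦ : ∀ F, (Φ F).Countable) (S : Set X) :
    #(step Φ S) ≤ max #S ℵ₀ := by
  unfold step
  refine (Cardinal.mk_union_le _ _).trans ?_
  have h2 : #(⋃ (F : {F : Finset X // (F : Set X) ⊆ S}), Φ F.1) ≤ max #S ℵ₀ := by
    refine (Cardinal.mk_iUnion_le _).trans ?_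
    have h3 : (⨆ (F : {F : Finset X // (F : Set X) ⊆ S}), #(Φ F.1)) ≤ ℵ₀ := by
      apply ciSup_le'
      intro F
      exact (hΦ F.1).le_aleph0
    refine (mul_le_mul' (mk_finset_sub_le S) h3).trans ?_
    rw [Cardinal.mul_eq_max (le_max_right _ _) le_rfl]
    simp
  refine (add_le_add (le_max_left #S ℵ₀) h2).trans ?_
  rw [Cardinal.add_eq_self (le_max_right _ _)]

theorem mk_Cl_le (hΦ : ∀ F, (Φ F).Countable) (S : Set X) :
    #(Cl Φ S) ≤ max #S ℵ₀ := by
  have hmono : Monotone (fun n : ℕ => (step Φ)^[n] S) := by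
    apply monotone_nat_of_le_succ
    intro n
    rw [Function.iterate_succ_apply']
    exact subset_union_left
  have h1 : Cl Φ S ⊆ ⋃ n : ℕ, (step Φ)^[n] S := by
    apply Cl_min
    · intro x hx
      exact mem_iUnion.2 ⟨0, hx⟩
    · intro F hF x hx
      have : ∃ n, (F : Set X) ⊆ (step Φ)^[n] S :=
        (hmono.directed_le).exists_mem_subset_of_finset_subset_biUnion hF
      obtain ⟨n, hn⟩ := this
      refine mem_iUnion.2 ⟨n + 1, ?_⟩
      rw [Function.iterate_succ_apply']
      exact Or.inr (mem_iUnion.2 ⟨⟨F, hn⟩, hx⟩)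
  have h2 : ∀ n : ℕ, #((step Φ)^[n] S) ≤ max #S ℵ₀ := by
    intro n
    induction n with
    | zero => exact le_max_left _ _
    | succ n ih =>
      rw [Function.iterate_succ_apply']
      refine (mk_step_le hΦ _).trans ?_
      exact max_le ih (le_max_right _ _)
  refine (Cardinal.mk_le_mk_of_subset h1).trans ?_
  have h4 : #(⋃ n : ULift.{u} ℕ, (step Φ)^[n.down] S) ≤ max #S ℵ₀ := by
    refine (Cardinal.mk_iUnion_le _).trans ?_
    have h3 : (⨆ n : ULift.{u} ℕ, #((step Φ)^[n.down] S)) ≤ max #S ℵ₀ := by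
      apply ciSup_le'
      intro n
      exact h2 _
    refine (mul_le_mul' (show #(ULift.{u} ℕ) ≤ ℵ₀ by simp) h3).trans ?_
    rw [Cardinal.mul_eq_max le_rfl (le_max_right _ _)]
    simp
  have h5 : (⋃ n : ℕ, (step Φ)^[n] S) = ⋃ n : ULift.{u} ℕ, (step Φ)^[n.down] S := by
    ext x
    simp only [mem_iUnion]
    constructor
    · rintro ⟨n, hn⟩
      exact ⟨⟨n⟩, hn⟩
    · rintro ⟨n, hn⟩
      exact ⟨n.down, hn⟩
  rw [h5]
  exact h4

end Pool.Agent.H27.FinClosure
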