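import Mathlib

set_option autoImplicit false

/-!
Definitions for the strong hub cover pebbling number.
-/

namespace Pool.Agent.H27.Pebble

variable {V : Type*} [DecidableEq V]

/-- A pebbling move of the graph `G` from the configuration `c` to the configuration `c'`:
for some edge `uv` with at least two pebbles on `u`, two pebbles are taken off `u` and one pebble
is put on `v`. -/
def Move (G : SimpleGraph V) (c c' : V → ℕ) : Prop :=
  ∃ u v, G.Adj u v ∧ 2 ≤ c u ∧
    c' = Function.update (Function.update c u (c u - 2)) v (c v + 1)

/-- `U` is a strong hub set of `G`: it is nonempty, and any two distinct vertices `x`, `y` are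
joined by a path all of whose internal vertices are in `U`. -/
def IsStrongHub {V : Type*} (G : SimpleGraph V) (U : Set V) : Prop :=
  U.Nonempty ∧ ∀ x y, x ≠ y →
    ∃ p : G.Walk x y, p.IsPath ∧ ∀ z ∈ p.support, z ≠ x → z ≠ y → z ∈ U

/-- `t` pebbles always suffice: from every configuration with `t` pebbles in total, some finite
sequence of pebbling moves reaches a configuration in which every vertex of some strong hub set
carries at least one pebble. -/
def HubCoverable [Fintype V] (G : SimpleGraph V) (t : ℕ) : Prop :=
  ∀ c : V → ℕ, ∑ v, c v = t →
    ∃ c' : V → ℕ, Relation.ReflTransGen (Move G) c c' ∧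
      ∃ U : Set V, IsStrongHub G U ∧ ∀ v ∈ U, 1 ≤ c' v

end Pool.Agent.H27.Pebble
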