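import Mathlib
import Pool.Agent.H27.PebbleDefs

set_option autoImplicit false

/-!
General algebra of pebbling and the state recursion along a path.
-/

namespace Pool.Agent.H27.Pebble

open Finset

variable {V : Type*} [DecidableEq V]

/-- from `c` one can reach a configuration dominating `d` -/
def Can (G : SimpleGraph V) (c d : V → ℕ) : Prop :=
  ∃ c', Relation.ReflTransGen (Move G) c c' ∧ d ≤ c'

variable {G : SimpleGraph V}

theorem Move.add {c c' : V → ℕ} (h : Move G c c') (x : V → ℕ) : Move G (c + x) (c' + x) := by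
  obtain ⟨u, v, huv, hu, rfl⟩ := h
  refine ⟨u, v, huv, ?_, ?_⟩
  · simp only [Pi.add_apply]
    omega
  · have hne : u ≠ v := huv.ne
    funext w
    by_cases hwv : w = v
    · subst hwv
      simp [Function.update_self, Pi.add_apply]
      omega
    · by_cases hwu : w = u
      · subst hwu
        simp only [Pi.add_apply, ne_eq, hwv, not_false_eq_true, Function.update_of_ne,
          Function.update_self]
        omega
      · simp [Function.update_of_ne, hwv, hwu]

theorem reach_add {c c' : V → ℕ} (h : Relation.ReflTransGen (Move G) c c') (x : V → ℕ) :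
    Relation.ReflTransGen (Move G) (c + x) (c' + x) := by
  induction h with
  | refl => exact Relation.ReflTransGen.refl
  | tail _ hm ih => exact ih.tail (hm.add x)

theorem Can.of_le {c d : V → ℕ} (h : d ≤ c) : Can G c d :=
  ⟨c, Relation.ReflTransGen.refl, h⟩

theorem Can.refl (c : V → ℕ) : Can G c c := Can.of_le le_rfl

theorem Can.trans {c d e : V → ℕ} (h1 : Can G c d) (h2 : Can G d e) : Can G c e := by
  obtain ⟨c', hc, hd⟩ := h1
  obtain ⟨d', hd', he⟩ := h2
  obtain ⟨x, rfl⟩ := exists_add_of_le hd
  refine ⟨d' + x, hc.trans (reach_add hd' x), he.trans ?_⟩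
  exact le_self_add

theorem Can.add {c d c' d' : V → ℕ} (h1 : Can G c d) (h2 : Can G c' d') :
    Can G (c + c') (d + d') := by
  obtain ⟨e, hc, hd⟩ := h1
  obtain ⟨e', hc', hd'⟩ := h2
  refine ⟨e + e', ?_, add_le_add hd hd'⟩
  have h3 := reach_add hc c'
  have h4 := reach_add hc' e
  rw [add_comm c' e, add_comm e' e] at h4
  exact h3.trans h4

theorem Can.mono {c d c' d' : V → ℕ} (h : Can G c d) (h1 : c ≤ c') (h2 : d' ≤ d) :
    Can G c' d' :=
  ((Can.of_le h1).trans h).trans (Can.of_le h2)

theorem Can.one {u v : V} (h : G.Adj u v) : Can G (Pi.single u 2) (Pi.single v 1) := by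
  refine ⟨_, Relation.ReflTransGen.single ⟨u, v, h, by simp, rfl⟩, ?_⟩
  have hne : u ≠ v := h.ne
  intro w
  by_cases hwv : w = v
  · subst hwv
    simp
  · simp [hwv]

theorem Can.many {u v : V} (h : G.Adj u v) (m : ℕ) :
    Can G (Pi.single u (2 * m)) (Pi.single v m) := by
  induction m with
  | zero => exact Can.of_le (by simp)
  | succ m ih =>
    have h1 := ih.add (Can.one h)
    rw [← Pi.single_add, ← Pi.single_add] at h1
    rw [show 2 * (m + 1) = 2 * m + 2 by ring]
    exact h1

/-- pebbles that flow -/
def phi (y : ℤ) : ℤ := if 0 ≤ y then y / 2 else 2 * y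

theorem phi_nonneg {y : ℤ} (h : 0 ≤ y) : phi y = y / 2 := by
  unfold phi
  rw [if_pos h]

theorem phi_neg {y : ℤ} (h : y < 0) : phi y = 2 * y := by
  unfold phi
  rw [if_neg (not_le.2 h)]

theorem phi_mono {x y : ℤ} (h : x ≤ y) : phi x ≤ phi y := by
  unfold phi
  split_ifs <;> omega

/-- the state recursion: `g 0` is the vertex nearest to the root, `z` is the number of pebbles
on the exempt vertex at the far end -/
def S : (ℕ → ℕ) → ℕ → ℤ → ℤ
  | _, 0, z => z
  | g, m + 1, z => g 0 - 1 + phi (S (fun i => g (i + 1)) m z)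

theorem S_zero (g : ℕ → ℕ) (z : ℤ) : S g 0 z = z := rfl

theorem S_succ (g : ℕ → ℕ) (m : ℕ) (z : ℤ) :
    S g (m + 1) z = g 0 - 1 + phi (S (fun i => g (i + 1)) m z) := rfl

theorem S_succ' (g : ℕ → ℕ) (m : ℕ) (z : ℤ) :
    S g (m + 1) z = S g m (g m - 1 + phi z) := by
  induction m generalizing g with
  | zero => rfl
  | succ m ih =>
    rw [S_succ, ih, S_succ]

theorem S_mono (g : ℕ → ℕ) (m : ℕ) {z z' : ℤ} (h : z ≤ z') : S g m z ≤ S g m z' := by
  induction m generalizing g with
  | zero => exact h
  | succ m ih =>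
    rw [S_succ, S_succ]
    have := phi_mono (ih (fun i => g (i + 1)))
    omega

theorem S_congr_phi (g : ℕ → ℕ) (m : ℕ) (hm : 1 ≤ m) {z z' : ℤ} (h : phi z = phi z') :
    S g m z = S g m z' := by
  obtain ⟨m, rfl⟩ : ∃ k, m = k + 1 := ⟨m - 1, by omega⟩
  rw [S_succ', S_succ', h]

/-- the side lemma -/
theorem side_can (m : ℕ) : ∀ (u : V) (v : ℕ → V) (_ : G.Adj u (v 0))
    (_ : ∀ i, G.Adj (v i) (v (i + 1))) (g : ℕ → ℕ) (z : ℕ),
    Can G ((∑ i ∈ range m, Pi.single (v i) (g i)) + Pi.single (v m) z +
        Pi.single u (-(phi (S g m z))).toNat)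
      ((∑ i ∈ range m, Pi.single (v i) 1) + Pi.single u (phi (S g m z)).toNat) := by
  induction m with
  | zero =>
    intro u v hu hv g z
    rw [S_zero, phi_nonneg (Int.natCast_nonneg z)]
    simp only [range_zero, sum_empty, zero_add]
    refine (Can.many hu.symm (z / 2)).mono ?_ ?_
    · intro w
      simp only [Pi.add_apply, Pi.single_apply]
      split_ifs <;> omega
    · intro w
      simp only [Pi.single_apply]
      split_ifs
      · omega
      · exact le_rfl
  | succ m ih =>
    intro u v hu hv g z
    set F' := S (fun i => g (i + 1)) m z with hF'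
    have hF : S g (m + 1) z = g 0 - 1 + phi F' := rfl
    set F := S g (m + 1) z with hFdef
    have ih' := ih (v 0) (fun i => v (i + 1)) (hv 0) (fun i => hv (i + 1)) (fun i => g (i + 1)) z
    simp only [← hF'] at ih'
    set X : V → ℕ := (∑ i ∈ range m, Pi.single (v (i + 1)) (g (i + 1))) + Pi.single (v (m + 1)) z
      with hX
    set T : V → ℕ := ∑ i ∈ range m, Pi.single (v (i + 1)) 1 with hT
    have e1 : (∑ i ∈ range (m + 1), Pi.single (v i) (g i)) + Pi.single (v (m + 1)) z
        = X + Pi.single (v 0) (g 0) := by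
      rw [sum_range_succ', hX]
      abel
    have e2 : (∑ i ∈ range (m + 1), Pi.single (v i) 1) = T + Pi.single (v 0) 1 := by
      rw [sum_range_succ', hT]
    rw [e1, e2]
    clear_value X T
    -- what is available at `v 0`
    have key : ∀ n : ℕ, (1 + n : ℤ) = g 0 + phi F' + (-F).toNat - F.toNat + (n : ℤ) := by
      intro n
      have : F = g 0 - 1 + phi F' := hF
      rcases le_or_gt 0 F with h | h
      · have h1 : ((F.toNat : ℕ) : ℤ) = F := Int.toNat_of_nonneg h
        have h2 : (-F).toNat = 0 := Int.toNat_of_nonpos (by omega)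
        rw [h1, h2]
        push_cast
        omega
      · have h1 : (((-F).toNat : ℕ) : ℤ) = -F := Int.toNat_of_nonneg (by omega)
        have h2 : F.toNat = 0 := Int.toNat_of_nonpos (by omega)
        rw [h1, h2]
        push_cast
        omega
    -- step 1: bring pebbles from `u`
    have s1 : Can G (X + Pi.single (v 0) (g 0) + Pi.single u (-(phi F)).toNat)
        (X + Pi.single (v 0) (g 0) + Pi.single (v 0) (-F).toNat) := by
      refine (Can.refl _).add ?_
      refine (Can.many hu (-F).toNat).mono ?_ le_rfl
      intro w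
      simp only [Pi.single_apply]
      split_ifs
      · rcases le_or_gt 0 F with h | h
        · have : (-F).toNat = 0 := Int.toNat_of_nonpos (by omega)
          omega
        · rw [phi_neg h]
          omega
      · exact le_rfl
    -- step 2: process the rest
    have s2 : Can G (X + Pi.single (v 0) (g 0) + Pi.single (v 0) (-F).toNat)
        (T + Pi.single (v 0) 1 + Pi.single (v 0) F.toNat) := by
      have hsplit : X + Pi.single (v 0) (g 0) + Pi.single (v 0) (-F).toNat
          = (X + Pi.single (v 0) (-(phi F')).toNat) +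
            Pi.single (v 0) (g 0 + (-F).toNat - (-(phi F')).toNat) := by
        rw [add_assoc, add_assoc, ← Pi.single_add, ← Pi.single_add]
        congr 2
        have := key 0
        omega
      rw [hsplit]
      refine (ih'.add (Can.refl _)).trans (Can.of_le ?_)
      rw [add_assoc, add_assoc, ← Pi.single_add, ← Pi.single_add]
      refine add_le_add le_rfl ?_
      apply le_of_eq
      congr 1
      have := key 0
      omega
    -- step 3: send pebbles to `u`
    have s3 : Can G (T + Pi.single (v 0) 1 + Pi.single (v 0) F.toNat)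
        (T + Pi.single (v 0) 1 + Pi.single u (phi F).toNat) := by
      refine (Can.refl _).add ?_
      refine (Can.many hu.symm (F.toNat / 2)).mono ?_ ?_
      · intro w
        simp only [Pi.single_apply]
        split_ifs <;> omega
      · intro w
        simp only [Pi.single_apply]
        split_ifs
        · rcases le_or_gt 0 F with h | h
          · rw [phi_nonneg h]
            omega
          · rw [phi_neg h]
            omega
        · exact le_rfl
    exact (s1.trans s2).trans s3

/-- the root lemma -/
theorem root_can (u : V) (cu : ℕ) (va vb : ℕ → V) (hua : G.Adj u (va 0)) (hub : G.Adj u (vb 0))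
    (hva : ∀ i, G.Adj (va i) (va (i + 1))) (hvb : ∀ i, G.Adj (vb i) (vb (i + 1)))
    (ga gb : ℕ → ℕ) (ma mb za zb : ℕ)
    (h : 0 ≤ (cu : ℤ) - 1 + phi (S ga ma za) + phi (S gb mb zb)) :
    Can G (Pi.single u cu + ((∑ i ∈ range ma, Pi.single (va i) (ga i)) + Pi.single (va ma) za) +
        ((∑ i ∈ range mb, Pi.single (vb i) (gb i)) + Pi.single (vb mb) zb))
      (Pi.single u 1 + (∑ i ∈ range ma, Pi.single (va i) 1) +
        (∑ i ∈ range mb, Pi.single (vb i) 1)) := by
  have ha := side_can ma u va hua hva ga za
  have hb := side_can mb u vb hub hvb gb zb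
  set A := phi (S ga ma za)
  set B := phi (S gb mb zb)
  set X : V → ℕ := (∑ i ∈ range ma, Pi.single (va i) (ga i)) + Pi.single (va ma) za
  set Y : V → ℕ := (∑ i ∈ range mb, Pi.single (vb i) (gb i)) + Pi.single (vb mb) zb
  set X1 : V → ℕ := ∑ i ∈ range ma, Pi.single (va i) 1
  set Y1 : V → ℕ := ∑ i ∈ range mb, Pi.single (vb i) 1
  rcases le_or_gt 0 A with hA | hA
  · -- first `a`, then `b`
    have h1 : (-A).toNat = 0 := Int.toNat_of_nonpos (by omega)
    rw [h1, Pi.single_zero, add_zero] at ha
    have s1 : Can G (Pi.single u cu + X + Y) (Pi.single u cu + (X1 + Pi.single u A.toNat) + Y) :=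
      ((Can.refl _).add ha).add (Can.refl _)
    refine s1.trans ?_
    have e : Pi.single u cu + (X1 + Pi.single u A.toNat) + Y =
        Pi.single u (cu + A.toNat - (-B).toNat) + X1 + (Y + Pi.single u (-B).toNat) := by
      have : cu + A.toNat = (cu + A.toNat - (-B).toNat) + (-B).toNat := by omega
      have e2 : (Pi.single u cu + Pi.single u A.toNat : V → ℕ)
          = Pi.single u (cu + A.toNat - (-B).toNat) + Pi.single u (-B).toNat := by
        rw [← Pi.single_add, ← Pi.single_add, ← this]
      calc Pi.single u cu + (X1 + Pi.single u A.toNat) + Y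
          = (Pi.single u cu + Pi.single u A.toNat) + X1 + Y := by abel
        _ = _ := by rw [e2]; abel
    rw [e]
    refine ((Can.refl _).add hb).trans (Can.of_le ?_)
    have e3 : Pi.single u (cu + A.toNat - (-B).toNat) + X1 + (Y1 + Pi.single u B.toNat)
        = Pi.single u (cu + A.toNat - (-B).toNat + B.toNat) + X1 + Y1 := by
      rw [Pi.single_add]
      abel
    rw [e3]
    refine add_le_add (add_le_add ?_ le_rfl) le_rfl
    intro w
    simp only [Pi.single_apply]
    split_ifs
    · omega
    · exact le_rfl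
  · -- first `b`, then `a`
    have s1 : Can G (Pi.single u cu + X + Y)
        (Pi.single u (cu + B.toNat - (-B).toNat) + X + Y1) := by
      rcases le_or_gt 0 B with hB | hB
      · have h1 : (-B).toNat = 0 := Int.toNat_of_nonpos (by omega)
        rw [h1, Pi.single_zero, add_zero] at hb
        refine ((Can.refl (Pi.single u cu + X)).add hb).trans (Can.of_le ?_)
        rw [h1, Nat.sub_zero, Pi.single_add]
        apply le_of_eq
        abel
      · have h1 : B.toNat = 0 := Int.toNat_of_nonpos (by omega)
        rw [h1, Pi.single_zero, add_zero] at hb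
        have e : Pi.single u cu + X + Y =
            Pi.single u (cu + B.toNat - (-B).toNat) + X + (Y + Pi.single u (-B).toNat) := by
          have : cu = (cu + B.toNat - (-B).toNat) + (-B).toNat := by omega
          have e2 : (Pi.single u cu : V → ℕ)
              = Pi.single u (cu + B.toNat - (-B).toNat) + Pi.single u (-B).toNat := by
            rw [← Pi.single_add, ← this]
          calc Pi.single u cu + X + Y = (Pi.single u cu) + X + Y := by abel
            _ = _ := by rw [e2]; abel
        rw [e]
        exact (Can.refl _).add hb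
    refine s1.trans ?_
    have h1 : A.toNat = 0 := Int.toNat_of_nonpos (by omega)
    rw [h1, Pi.single_zero, add_zero] at ha
    have e : Pi.single u (cu + B.toNat - (-B).toNat) + X + Y1 =
        Pi.single u (cu + B.toNat - (-B).toNat - (-A).toNat) + (X + Pi.single u (-A).toNat) + Y1 := by
      have : cu + B.toNat - (-B).toNat = (cu + B.toNat - (-B).toNat - (-A).toNat) + (-A).toNat := by
        omega
      have e2 : (Pi.single u (cu + B.toNat - (-B).toNat) : V → ℕ)
          = Pi.single u (cu + B.toNat - (-B).toNat - (-A).toNat) + Pi.single u (-A).toNat := by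
        rw [← Pi.single_add, ← this]
      rw [e2]
      abel
    rw [e]
    refine (((Can.refl _).add ha).add (Can.refl _)).trans (Can.of_le ?_)
    refine add_le_add (add_le_add ?_ le_rfl) le_rfl
    intro w
    simp only [Pi.single_apply]
    split_ifs
    · omega
    · exact le_rfl

/-- The counting bound. -/
theorem bound (m : ℕ) : ∀ (g : ℕ → ℕ) (z : ℤ), 0 ≤ z →
    (S g m z < 0 → (∑ i ∈ range m, (g i : ℤ)) + z / 2 - S g m z ≤ 2 ^ m - 1) ∧
    (0 ≤ S g m z → (∑ i ∈ range m, (g i : ℤ)) + z / 2 + 2 ≤ 2 ^ m * (S g m z / 2 + 2)) := by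
  induction m with
  | zero =>
    intro g z hz
    rw [S_zero]
    refine ⟨fun h => absurd h (not_lt.2 hz), fun _ => ?_⟩
    simp
  | succ m ih =>
    intro g z hz
    obtain ⟨ih1, ih2⟩ := ih (fun i => g (i + 1)) z hz
    rw [S_succ, sum_range_succ']
    set F' := S (fun i => g (i + 1)) m z
    set sm := ∑ i ∈ range m, (g (i + 1) : ℤ)
    have hS' : 0 ≤ sm := Finset.sum_nonneg fun i _ => Int.natCast_nonneg _
    have hg : (0 : ℤ) ≤ g 0 := Int.natCast_nonneg _
    have hz2 : 0 ≤ z / 2 := by omega
    have hpow : (1 : ℤ) ≤ 2 ^ m := one_le_pow₀ (by norm_num)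
    have hpow' : (2 : ℤ) ^ (m + 1) = 2 * 2 ^ m := by ring
    rw [hpow']
    set Q : ℤ := 2 ^ m
    rcases le_or_gt 0 F' with hF | hF
    · have h2 := ih2 hF
      rw [phi_nonneg hF]
      set q := F' / 2 with hq
      have hq0 : 0 ≤ q := by omega
      constructor
      · intro hneg
        have hq1 : q = 0 := by omega
        have hg0 : (g 0 : ℤ) = 0 := by omega
        rw [hq1] at h2
        rw [hq1, hg0]
        linarith
      · intro hpos
        set y := (g 0 : ℤ) - 1 + q with hy
        set w := y / 2 with hw
        have hw2 : y ≤ 2 * w + 1 := by omega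
        have hqy : q ≤ y + 1 := by omega
        have hg' : (g 0 : ℤ) = y + 1 - q := by omega
        rw [hg']
        nlinarith [mul_nonneg (sub_nonneg.2 hpow) (sub_nonneg.2 hqy),
          mul_nonneg (by linarith : (0 : ℤ) ≤ Q) (by linarith : (0:ℤ) ≤ 2 * w + 1 - y)]
    · have h1 := ih1 hF
      rw [phi_neg hF]
      constructor
      · intro hneg
        linarith
      · intro hpos
        set y := (g 0 : ℤ) - 1 + 2 * F' with hy
        set w := y / 2 with hw
        have hw2 : y ≤ 2 * w + 1 := by omega
        have hw0 : 0 ≤ w := by omega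
        have hg' : (g 0 : ℤ) = y + 1 - 2 * F' := by omega
        rw [hg']
        nlinarith [mul_nonneg (sub_nonneg.2 hpow) hw0]

/-- lower bound for the state -/
theorem S_low (m : ℕ) : ∀ (g : ℕ → ℕ) (z : ℤ), 0 ≤ z → -(2 ^ m - 1 : ℤ) ≤ S g m z := by
  intro g z hz
  rcases le_or_gt 0 (S g m z) with h | h
  · have : (1 : ℤ) ≤ 2 ^ m := one_le_pow₀ (by norm_num)
    linarith
  · have h1 := (bound m g z hz).1 h
    have h2 : 0 ≤ ∑ i ∈ range m, (g i : ℤ) := Finset.sum_nonneg fun i _ => Int.natCast_nonneg _
    have h3 : 0 ≤ z / 2 := by omega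
    linarith

end Pool.Agent.H27.Pebble
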