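import Mathlib
import Pool.Agent.H27.PebbleCore

set_option autoImplicit false

/-!
The counting argument on periodic functions.
-/

namespace Pool.Agent.H27.Pebble

open Finset

/-- states of the left and of the right side of a root -/
def SL (C : ℤ → ℕ) (r : ℤ) (m : ℕ) (z : ℤ) : ℤ := S (fun i : ℕ => C (r - 1 - i)) m z
/-- states of the left and of the right side of a root -/
def SR (C : ℤ → ℕ) (r : ℤ) (m : ℕ) (z : ℤ) : ℤ := S (fun i : ℕ => C (r + 1 + i)) m z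

/-- number of pebbles in a window -/
def W (C : ℤ → ℕ) (r : ℤ) (m : ℕ) : ℤ := ∑ i ∈ range m, (C (r + i) : ℤ)

/-- consequences of uncoverability -/
structure Unc (n : ℕ) (C : ℤ → ℕ) : Prop where
  per : ∀ i : ℤ, C (i + n) = C i
  H : ∀ (r : ℤ) (ma mb : ℕ), ma + mb + 3 = n →
    (C r : ℤ) - 1 + phi (SL C r ma (C (r - 1 - ma))) + phi (SR C r mb (C (r + 1 + mb))) < 0
  HR : ∀ (r : ℤ) (ma mb : ℕ), ma + mb + 3 = n →
    (C r : ℤ) - 1 + phi (SL C r ma 0) +
      phi (SR C r mb (C (r + 1 + mb) + (C (r + 2 + mb) / 2 : ℕ) : ℤ)) < 0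
  HL : ∀ (r : ℤ) (ma mb : ℕ), ma + mb + 3 = n →
    (C r : ℤ) - 1 + phi (SL C r ma (C (r - 1 - ma) + (C (r - 2 - ma) / 2 : ℕ) : ℤ)) +
      phi (SR C r mb 0) < 0

/-- reflection -/
def rev (C : ℤ → ℕ) : ℤ → ℕ := fun i => C (-i)

theorem SL_rev (C : ℤ → ℕ) (r : ℤ) (m : ℕ) (z : ℤ) : SL (rev C) (-r) m z = SR C r m z := by
  unfold SL SR rev
  congr 1
  funext i
  congr 1
  ring

theorem SR_rev (C : ℤ → ℕ) (r : ℤ) (m : ℕ) (z : ℤ) : SR (rev C) (-r) m z = SL C r m z := by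
  unfold SL SR rev
  congr 1
  funext i
  congr 1
  ring

theorem SL_rev' (C : ℤ → ℕ) (r : ℤ) (m : ℕ) (z : ℤ) : SL (rev C) r m z = SR C (-r) m z := by
  rw [← SL_rev, neg_neg]

theorem SR_rev' (C : ℤ → ℕ) (r : ℤ) (m : ℕ) (z : ℤ) : SR (rev C) r m z = SL C (-r) m z := by
  rw [← SR_rev, neg_neg]

theorem Unc.rev {n : ℕ} {C : ℤ → ℕ} (h : Unc n C) : Unc n (rev C) := by
  have e1 : ∀ (r : ℤ) (m : ℕ), Pebble.rev C (r - 1 - m) = C (-r + 1 + m) := by
    intro r m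
    unfold Pebble.rev
    congr 1
    ring
  have e2 : ∀ (r : ℤ) (m : ℕ), Pebble.rev C (r + 1 + m) = C (-r - 1 - m) := by
    intro r m
    unfold Pebble.rev
    congr 1
    ring
  have e3 : ∀ (r : ℤ) (m : ℕ), Pebble.rev C (r - 2 - m) = C (-r + 2 + m) := by
    intro r m
    unfold Pebble.rev
    congr 1
    ring
  have e4 : ∀ (r : ℤ) (m : ℕ), Pebble.rev C (r + 2 + m) = C (-r - 2 - m) := by
    intro r m
    unfold Pebble.rev
    congr 1
    ring
  have e5 : ∀ r : ℤ, Pebble.rev C r = C (-r) := fun r => rfl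
  refine ⟨?_, ?_, ?_, ?_⟩
  · intro i
    have := h.per (-(i + n))
    unfold Pebble.rev
    rw [← this]
    congr 1
    ring
  · intro r ma mb hm
    have := h.H (-r) mb ma (by omega)
    rw [SL_rev', SR_rev', e1, e2, e5]
    linarith
  · intro r ma mb hm
    have := h.HL (-r) mb ma (by omega)
    rw [SL_rev', SR_rev', e2, e4, e5]
    linarith
  · intro r ma mb hm
    have := h.HR (-r) mb ma (by omega)
    rw [SL_rev', SR_rev', e1, e3, e5]
    linarith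

theorem W_rev (C : ℤ → ℕ) (s : ℤ) (m : ℕ) : W (rev C) (-s) m = W C (s - m + 1) m := by
  unfold W rev
  rw [← Finset.sum_range_reflect]
  apply Finset.sum_congr rfl
  intro i hi
  rw [mem_range] at hi
  congr 2
  have : ((m - 1 - i : ℕ) : ℤ) = m - 1 - i := by omega
  rw [this]
  ring

theorem W_add (C : ℤ → ℕ) (r : ℤ) (m m' : ℕ) : W C r (m + m') = W C r m + W C (r + m) m' := by
  unfold W
  rw [Finset.sum_range_add]
  congr 1
  apply Finset.sum_congr rfl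
  intro i _
  push_cast
  rw [add_assoc]

theorem W_one (C : ℤ → ℕ) (r : ℤ) : W C r 1 = C r := by
  unfold W
  simp

theorem W_succ (C : ℤ → ℕ) (r : ℤ) (m : ℕ) : W C r (m + 1) = W C r m + C (r + m) := by
  rw [W_add, W_one]

theorem W_succ' (C : ℤ → ℕ) (r : ℤ) (m : ℕ) : W C r (m + 1) = C r + W C (r + 1) m := by
  rw [add_comm m 1, W_add, W_one]
  simp

theorem W_nonneg (C : ℤ → ℕ) (r : ℤ) (m : ℕ) : 0 ≤ W C r m :=
  Finset.sum_nonneg fun _ _ => Int.natCast_nonneg _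

theorem W_shift {n : ℕ} {C : ℤ → ℕ} (h : Unc n C) (r : ℤ) (m : ℕ) : W C (r + n) m = W C r m := by
  unfold W
  apply Finset.sum_congr rfl
  intro i _
  rw [← h.per (r + i)]
  congr 2
  ring

/-- basic bound on the right -/
theorem bR (C : ℤ → ℕ) (r : ℤ) (m : ℕ) (z : ℤ) (hz : 0 ≤ z) (h : SR C r m z < 0) :
    W C (r + 1) m + z / 2 - SR C r m z ≤ 2 ^ m - 1 := by
  have := (bound m (fun i : ℕ => C (r + 1 + i)) z hz).1 h
  exact this

/-- right, one exempt vertex -/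
theorem bR1 (C : ℤ → ℕ) (r : ℤ) (m : ℕ) (h : SR C r m (C (r + 1 + m)) < 0) :
    W C (r + 1) (m + 1) - 2 * SR C r m (C (r + 1 + m)) ≤ 2 ^ (m + 1) - 1 ∧
    (C (r + 1 + m) % 2 = 0 →
      W C (r + 1) (m + 1) - 2 * SR C r m (C (r + 1 + m)) ≤ 2 ^ (m + 1) - 2) ∧
    (C (r + 1 + m) ≤ 1 → W C (r + 1) m - SR C r m (C (r + 1 + m)) ≤ 2 ^ m - 1) := by
  have h1 := bR C r m _ (Int.natCast_nonneg _) h
  have h2 := W_nonneg C (r + 1) m
  rw [W_succ, pow_succ]
  refine ⟨by omega, fun h3 => by omega, fun h3 => by omega⟩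

/-- right, two exempt vertices -/
theorem bR2 (C : ℤ → ℕ) (r : ℤ) (m : ℕ)
    (h : SR C r m (C (r + 1 + m) + (C (r + 2 + m) / 2 : ℕ) : ℤ) < 0) :
    W C (r + 1) (m + 2) - 2 * SR C r m (C (r + 1 + m) + (C (r + 2 + m) / 2 : ℕ) : ℤ)
      ≤ 2 ^ (m + 2) - 3 := by
  have h1 := bR C r m _ (by positivity) h
  have h2 := W_nonneg C (r + 1) m
  have e : W C (r + 1) (m + 2) = W C (r + 1) m + C (r + 1 + m) + C (r + 2 + m) := by
    rw [show m + 2 = (m + 1) + 1 by ring, W_succ, W_succ]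
    congr 3
    push_cast
    ring
  rw [e, pow_add]
  omega

/-- left, one exempt vertex -/
theorem bL1 (C : ℤ → ℕ) (r : ℤ) (m : ℕ) (h : SL C r m (C (r - 1 - m)) < 0) :
    W C (r - 1 - m) (m + 1) - 2 * SL C r m (C (r - 1 - m)) ≤ 2 ^ (m + 1) - 1 ∧
    (C (r - 1 - m) % 2 = 0 →
      W C (r - 1 - m) (m + 1) - 2 * SL C r m (C (r - 1 - m)) ≤ 2 ^ (m + 1) - 2) ∧
    (C (r - 1 - m) ≤ 1 → W C (r - m) m - SL C r m (C (r - 1 - m)) ≤ 2 ^ m - 1) := by
  have e0 : rev C (-r + 1 + m) = C (r - 1 - m) := by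
    unfold rev
    congr 1
    ring
  have e1 : SR (rev C) (-r) m (rev C (-r + 1 + m)) = SL C r m (C (r - 1 - m)) := by
    rw [SR_rev, e0]
  have e2 : W (rev C) (-r + 1) (m + 1) = W C (r - 1 - m) (m + 1) := by
    rw [show -r + 1 = -(r - 1) by ring, W_rev]
    congr 1
    push_cast
    ring
  have e3 : W (rev C) (-r + 1) m = W C (r - m) m := by
    rw [show -r + 1 = -(r - 1) by ring, W_rev]
    congr 1
    ring
  have := bR1 (rev C) (-r) m (by rw [e1]; exact h)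
  rw [e1, e2, e3, e0] at this
  exact this

/-- left, two exempt vertices -/
theorem bL2 (C : ℤ → ℕ) (r : ℤ) (m : ℕ)
    (h : SL C r m (C (r - 1 - m) + (C (r - 2 - m) / 2 : ℕ) : ℤ) < 0) :
    W C (r - 2 - m) (m + 2) - 2 * SL C r m (C (r - 1 - m) + (C (r - 2 - m) / 2 : ℕ) : ℤ)
      ≤ 2 ^ (m + 2) - 3 := by
  have e0 : rev C (-r + 1 + m) = C (r - 1 - m) := by
    unfold rev
    congr 1
    ring
  have e0' : rev C (-r + 2 + m) = C (r - 2 - m) := by
    unfold rev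
    congr 1
    ring
  have e1 : SR (rev C) (-r) m (rev C (-r + 1 + m) + (rev C (-r + 2 + m) / 2 : ℕ) : ℤ)
      = SL C r m (C (r - 1 - m) + (C (r - 2 - m) / 2 : ℕ) : ℤ) := by
    rw [SR_rev, e0, e0']
  have e2 : W (rev C) (-r + 1) (m + 2) = W C (r - 2 - m) (m + 2) := by
    rw [show -r + 1 = -(r - 1) by ring, W_rev]
    congr 1
    push_cast
    ring
  have := bR2 (rev C) (-r) m (by rw [e1]; exact h)
  rw [e1, e2] at this
  exact this

theorem phi_div_le {y : ℤ} : 0 ≤ y → 0 ≤ phi y := by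
  intro h
  rw [phi_nonneg h]
  omega

/-- covering an exempt vertex with an odd number of pebbles is free (left side) -/
theorem SL_free (C : ℤ → ℕ) (r : ℤ) (m : ℕ) (hm : 1 ≤ m) (hodd : C (r - 1 - m) % 2 = 1) :
    SL C r (m + 1) 0 = SL C r m (C (r - 1 - m)) := by
  unfold SL
  rw [S_succ']
  apply S_congr_phi _ _ hm
  have h0 : phi 0 = 0 := by rw [phi_nonneg le_rfl]; rfl
  rw [h0]
  rw [phi_nonneg (by omega), phi_nonneg (by omega)]
  omega

theorem SR_free (C : ℤ → ℕ) (r : ℤ) (m : ℕ) (hm : 1 ≤ m) (hodd : C (r + 1 + m) % 2 = 1) :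
    SR C r (m + 1) 0 = SR C r m (C (r + 1 + m)) := by
  unfold SR
  rw [S_succ']
  apply S_congr_phi _ _ hm
  have h0 : phi 0 = 0 := by rw [phi_nonneg le_rfl]; rfl
  rw [h0]
  rw [phi_nonneg (by omega), phi_nonneg (by omega)]
  omega

/-- comparison of states for consecutive lengths -/
theorem SR_cmp (C : ℤ → ℕ) (r : ℤ) (m : ℕ) (h1 : SR C r (m + 1) (C (r + 2 + m)) < 0)
    (h2 : 0 ≤ SR C r m (C (r + 1 + m))) : C (r + 2 + m) ≤ 1 := by
  by_contra hcon
  rw [not_le] at hcon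
  have h3 : SR C r m (C (r + 1 + m)) ≤ SR C r (m + 1) (C (r + 2 + m)) := by
    unfold SR
    rw [S_succ']
    apply S_mono
    rw [phi_nonneg (by omega)]
    omega
  omega

theorem SL_cmp (C : ℤ → ℕ) (r : ℤ) (m : ℕ) (h1 : SL C r (m + 1) (C (r - 2 - m)) < 0)
    (h2 : 0 ≤ SL C r m (C (r - 1 - m))) : C (r - 2 - m) ≤ 1 := by
  by_contra hcon
  rw [not_le] at hcon
  have h3 : SL C r m (C (r - 1 - m)) ≤ SL C r (m + 1) (C (r - 2 - m)) := by
    unfold SL
    rw [S_succ']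
    apply S_mono
    rw [phi_nonneg (by omega)]
    omega
  omega

/-! ### a cleaner interface -/

/-- left state with one exempt vertex -/
def aL (C : ℤ → ℕ) (r : ℤ) (m : ℕ) : ℤ := SL C r m (C (r - ((m + 1 : ℕ) : ℤ)))
/-- right state with one exempt vertex -/
def aR (C : ℤ → ℕ) (r : ℤ) (m : ℕ) : ℤ := SR C r m (C (r + ((m + 1 : ℕ) : ℤ)))
/-- left state with two exempt vertices -/
def dL (C : ℤ → ℕ) (r : ℤ) (m : ℕ) : ℤ :=
  SL C r m (C (r - ((m + 1 : ℕ) : ℤ)) + (C (r - ((m + 2 : ℕ) : ℤ)) / 2 : ℕ) : ℤ)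
/-- right state with two exempt vertices -/
def dR (C : ℤ → ℕ) (r : ℤ) (m : ℕ) : ℤ :=
  SR C r m (C (r + ((m + 1 : ℕ) : ℤ)) + (C (r + ((m + 2 : ℕ) : ℤ)) / 2 : ℕ) : ℤ)

theorem cl1 (r : ℤ) (m : ℕ) : r - ((m + 1 : ℕ) : ℤ) = r - 1 - m := by push_cast; ring
theorem cr1 (r : ℤ) (m : ℕ) : r + ((m + 1 : ℕ) : ℤ) = r + 1 + m := by push_cast; ring
theorem cl2 (r : ℤ) (m : ℕ) : r - ((m + 2 : ℕ) : ℤ) = r - 2 - m := by push_cast; ring
theorem cr2 (r : ℤ) (m : ℕ) : r + ((m + 2 : ℕ) : ℤ) = r + 2 + m := by push_cast; ring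

section
variable {n : ℕ} {C : ℤ → ℕ}

theorem Unc.H' (h : Unc n C) (r : ℤ) (ma mb : ℕ) (hm : ma + mb + 3 = n) :
    (C r : ℤ) - 1 + phi (aL C r ma) + phi (aR C r mb) < 0 := by
  unfold aL aR
  rw [cl1, cr1]
  exact h.H r ma mb hm

theorem Unc.HR' (h : Unc n C) (r : ℤ) (ma mb : ℕ) (hm : ma + mb + 3 = n) :
    (C r : ℤ) - 1 + phi (SL C r ma 0) + phi (dR C r mb) < 0 := by
  unfold dR
  rw [cr1, cr2]
  exact h.HR r ma mb hm

theorem Unc.HL' (h : Unc n C) (r : ℤ) (ma mb : ℕ) (hm : ma + mb + 3 = n) :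
    (C r : ℤ) - 1 + phi (dL C r ma) + phi (SR C r mb 0) < 0 := by
  unfold dL
  rw [cl1, cl2]
  exact h.HL r ma mb hm

theorem aR1 (r : ℤ) (m : ℕ) (h : aR C r m < 0) :
    W C (r + 1) (m + 1) - 2 * aR C r m ≤ 2 ^ (m + 1) - 1 := by
  unfold aR at h ⊢
  rw [cr1] at h ⊢
  exact (bR1 C r m h).1

theorem aR1e (r : ℤ) (m : ℕ) (h : aR C r m < 0) (he : C (r + ((m + 1 : ℕ) : ℤ)) % 2 = 0) :
    W C (r + 1) (m + 1) - 2 * aR C r m ≤ 2 ^ (m + 1) - 2 := by
  unfold aR at h ⊢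
  rw [cr1] at h he ⊢
  exact (bR1 C r m h).2.1 he

theorem aR0 (r : ℤ) (m : ℕ) (h : aR C r m < 0) (he : C (r + ((m + 1 : ℕ) : ℤ)) ≤ 1) :
    W C (r + 1) m - aR C r m ≤ 2 ^ m - 1 := by
  unfold aR at h ⊢
  rw [cr1] at h he ⊢
  exact (bR1 C r m h).2.2 he

theorem aL1 (r : ℤ) (m : ℕ) (h : aL C r m < 0) :
    W C (r - ((m + 1 : ℕ) : ℤ)) (m + 1) - 2 * aL C r m ≤ 2 ^ (m + 1) - 1 := by
  unfold aL at h ⊢
  rw [cl1] at h ⊢
  exact (bL1 C r m h).1

theorem aL1e (r : ℤ) (m : ℕ) (h : aL C r m < 0) (he : C (r - ((m + 1 : ℕ) : ℤ)) % 2 = 0) :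
    W C (r - ((m + 1 : ℕ) : ℤ)) (m + 1) - 2 * aL C r m ≤ 2 ^ (m + 1) - 2 := by
  unfold aL at h ⊢
  rw [cl1] at h he ⊢
  exact (bL1 C r m h).2.1 he

theorem aL0 (r : ℤ) (m : ℕ) (h : aL C r m < 0) (he : C (r - ((m + 1 : ℕ) : ℤ)) ≤ 1) :
    W C (r - (m : ℤ)) m - aL C r m ≤ 2 ^ m - 1 := by
  unfold aL at h ⊢
  rw [cl1] at h he ⊢
  exact (bL1 C r m h).2.2 he

theorem dR2 (r : ℤ) (m : ℕ) (h : dR C r m < 0) :
    W C (r + 1) (m + 2) - 2 * dR C r m ≤ 2 ^ (m + 2) - 3 := by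
  unfold dR at h ⊢
  rw [cr1, cr2] at h ⊢
  exact bR2 C r m h

theorem dL2 (r : ℤ) (m : ℕ) (h : dL C r m < 0) :
    W C (r - ((m + 2 : ℕ) : ℤ)) (m + 2) - 2 * dL C r m ≤ 2 ^ (m + 2) - 3 := by
  unfold dL at h ⊢
  rw [cl2 r m, cl1 r m] at h ⊢
  exact bL2 C r m h

theorem aL_free (r : ℤ) (m : ℕ) (hm : 1 ≤ m) (hodd : C (r - ((m + 1 : ℕ) : ℤ)) % 2 = 1) :
    SL C r (m + 1) 0 = aL C r m := by
  unfold aL
  rw [cl1] at hodd ⊢
  exact SL_free C r m hm hodd

theorem aR_free (r : ℤ) (m : ℕ) (hm : 1 ≤ m) (hodd : C (r + ((m + 1 : ℕ) : ℤ)) % 2 = 1) :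
    SR C r (m + 1) 0 = aR C r m := by
  unfold aR
  rw [cr1] at hodd ⊢
  exact SR_free C r m hm hodd

theorem W_split (r : ℤ) (x y : ℕ) :
    W C (r - (x : ℤ)) (x + 1 + y) = W C (r - (x : ℤ)) x + C r + W C (r + 1) y := by
  rw [W_add, W_succ]
  congr 2
  · congr 2
    ring
  · push_cast
    ring

theorem aL_rev (r : ℤ) (m : ℕ) : aL (rev C) r m = aR C (-r) m := by
  unfold aL aR
  rw [SL_rev']
  unfold rev
  congr 3
  ring

theorem aR_rev (r : ℤ) (m : ℕ) : aR (rev C) r m = aL C (-r) m := by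
  unfold aL aR
  rw [SR_rev']
  unfold rev
  congr 3
  ring

theorem W_rev' (s : ℤ) (m : ℕ) : W (rev C) s m = W C (-s - m + 1) m := by
  rw [← W_rev, neg_neg]

end

/-! ### odd cycles -/

section Odd

variable {K : ℕ} {C : ℤ → ℕ}

/-- no root has both states negative -/
theorem odd_noN_aux (hK : 1 ≤ K) (hU : Unc (2 * K + 5) C)
    (hT : ∀ s, W C s (2 * K + 5) = 8 * 2 ^ K - 3) (r : ℤ)
    (ha : aL C r (K + 1) < 0) (hb : aR C r (K + 1) < 0)
    (hodd : C (r - ((K + 1 + 1 : ℕ) : ℤ)) % 2 = 1) : False := by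
  have ht := hT (r - ((K + 2 : ℕ) : ℤ))
  rw [show 2 * K + 5 = (K + 2) + 1 + (K + 2) by ring, W_split] at ht
  have hR := hU.HR' r (K + 2) K (by ring)
  rw [show K + 2 = (K + 1) + 1 by ring, aL_free r (K + 1) (by omega) hodd, phi_neg ha] at hR
  have h1 := aL1 r (K + 1) ha
  have h2 := aR1 r (K + 1) hb
  rw [show K + 1 + 1 = K + 2 by ring] at h1 h2
  have p2 : (2 : ℤ) ^ (K + 2) = 4 * 2 ^ K := by ring
  rw [p2] at h1 h2
  rcases le_or_gt 0 (dR C r K) with hd | hd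
  · have := phi_div_le hd
    omega
  · have h3 := dR2 r K hd
    rw [p2] at h3
    rw [phi_neg hd] at hR
    omega

theorem odd_noN (hK : 1 ≤ K) (hU : Unc (2 * K + 5) C)
    (hT : ∀ s, W C s (2 * K + 5) = 8 * 2 ^ K - 3) (r : ℤ)
    (ha : aL C r (K + 1) < 0) (hb : aR C r (K + 1) < 0) : False := by
  by_cases h1 : C (r - ((K + 1 + 1 : ℕ) : ℤ)) % 2 = 1
  · exact odd_noN_aux hK hU hT r ha hb h1
  by_cases h2 : C (r + ((K + 1 + 1 : ℕ) : ℤ)) % 2 = 1
  · refine odd_noN_aux (C := rev C) hK hU.rev ?_ (-r) ?_ ?_ ?_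
    · intro s
      rw [W_rev']
      exact hT _
    · rw [aL_rev, neg_neg]
      exact hb
    · rw [aR_rev, neg_neg]
      exact ha
    · unfold rev
      rw [show -(-r - ((K + 1 + 1 : ℕ) : ℤ)) = r + ((K + 1 + 1 : ℕ) : ℤ) by ring]
      exact h2
  have ht := hT (r - ((K + 2 : ℕ) : ℤ))
  rw [show 2 * K + 5 = (K + 2) + 1 + (K + 2) by ring, W_split] at ht
  have h3 := aL1e r (K + 1) ha (by omega)
  have h4 := aR1e r (K + 1) hb (by omega)
  rw [show K + 1 + 1 = K + 2 by ring] at h3 h4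
  have p2 : (2 : ℤ) ^ (K + 2) = 4 * 2 ^ K := by ring
  rw [p2] at h3 h4
  have hH := hU.H' r (K + 1) (K + 1) (by ring)
  rw [phi_neg ha, phi_neg hb] at hH
  omega

/-- label `L` -/
def LabL (K : ℕ) (C : ℤ → ℕ) (r : ℤ) : Prop :=
  0 ≤ aL C r (K + 1) ∧ (aR C r (K + 1) < 0 ∨
    (0 ≤ aR C r (K + 1) ∧ W C (r + 1) (K + 2) ≤ 4 * 2 ^ K - 2))

/-- label `R` -/
def LabR (K : ℕ) (C : ℤ → ℕ) (r : ℤ) : Prop :=
  0 ≤ aR C r (K + 1) ∧ (aL C r (K + 1) < 0 ∨
    (0 ≤ aL C r (K + 1) ∧ W C (r - ((K + 2 : ℕ) : ℤ)) (K + 2) ≤ 4 * 2 ^ K - 2))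

theorem LabL_rev (r : ℤ) : LabL K (rev C) r ↔ LabR K C (-r) := by
  unfold LabL LabR
  rw [aL_rev, aR_rev, W_rev']
  rw [show -(r + 1) - ((K + 2 : ℕ) : ℤ) + 1 = -r - ((K + 2 : ℕ) : ℤ) by ring]

theorem lab_or (hK : 1 ≤ K) (hU : Unc (2 * K + 5) C)
    (hT : ∀ s, W C s (2 * K + 5) = 8 * 2 ^ K - 3) (r : ℤ) : LabL K C r ∨ LabR K C r := by
  unfold LabL LabR
  rcases le_or_gt 0 (aL C r (K + 1)) with ha | ha
  · rcases le_or_gt 0 (aR C r (K + 1)) with hb | hb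
    · have hH := hU.H' r (K + 1) (K + 1) (by ring)
      have := phi_div_le ha
      have := phi_div_le hb
      have ht := hT (r - ((K + 2 : ℕ) : ℤ))
      rw [show 2 * K + 5 = (K + 2) + 1 + (K + 2) by ring, W_split] at ht
      by_cases hc : W C (r + 1) (K + 2) ≤ 4 * 2 ^ K - 2
      · exact Or.inl ⟨ha, Or.inr ⟨hb, hc⟩⟩
      · refine Or.inr ⟨hb, Or.inr ⟨ha, ?_⟩⟩
        omega
    · exact Or.inl ⟨ha, Or.inl hb⟩
  · rcases le_or_gt 0 (aR C r (K + 1)) with hb | hb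
    · exact Or.inr ⟨hb, Or.inl ha⟩
    · exact (odd_noN hK hU hT r ha hb).elim

/-- facts about the label `L` -/
theorem labL_facts (hU : Unc (2 * K + 5) C) (r : ℤ) (h : LabL K C r) :
    W C r (K + 3) ≤ 4 * 2 ^ K - 1 ∧
    (C (r + ((K + 2 : ℕ) : ℤ)) % 2 = 0 → W C r (K + 3) ≤ 4 * 2 ^ K - 2) ∧
    (C (r + ((K + 2 : ℕ) : ℤ)) = 1 → W C r (K + 3) = 4 * 2 ^ K - 1 →
      aL C r (K + 1) ≤ 1 ∧ (C r : ℤ) = 4 * 2 ^ K - 2) := by
  obtain ⟨ha, hb⟩ := h
  have hH := hU.H' r (K + 1) (K + 1) (by ring)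
  have e : W C r (K + 3) = C r + W C (r + 1) (K + 2) := W_succ' C r (K + 2)
  have pa := phi_nonneg ha
  have p2 : (2 : ℤ) ^ (K + 2) = 4 * 2 ^ K := by ring
  have p1 : (2 : ℤ) ^ (K + 1) = 2 * 2 ^ K := by ring
  rcases hb with hb | ⟨hb, hb2⟩
  · rw [phi_neg hb] at hH
    have h1 := aR1 r (K + 1) hb
    have h2 := aR1e r (K + 1) hb
    have h3 := aR0 r (K + 1) hb
    rw [show K + 1 + 1 = K + 2 by ring] at h1 h2 h3
    rw [p2] at h1 h2
    rw [p1] at h3
    have e2 : W C (r + 1) (K + 2) = W C (r + 1) (K + 1) + C (r + ((K + 2 : ℕ) : ℤ)) := by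
      rw [show K + 2 = (K + 1) + 1 by ring, W_succ]
      congr 3
      push_cast
      ring
    have h4 := W_nonneg C (r + 1) (K + 1)
    refine ⟨by omega, fun he => ?_, fun he1 he2 => ?_⟩
    · have := h2 he
      omega
    · have := h3 (by omega)
      omega
  · have pb := phi_div_le hb
    refine ⟨by omega, fun he => by omega, fun he1 he2 => by omega⟩

theorem labR_facts (hU : Unc (2 * K + 5) C) (r : ℤ) (h : LabR K C r) :
    W C (r - ((K + 2 : ℕ) : ℤ)) (K + 3) ≤ 4 * 2 ^ K - 1 ∧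
    (C (r - ((K + 2 : ℕ) : ℤ)) % 2 = 0 →
      W C (r - ((K + 2 : ℕ) : ℤ)) (K + 3) ≤ 4 * 2 ^ K - 2) ∧
    (C (r - ((K + 2 : ℕ) : ℤ)) = 1 → W C (r - ((K + 2 : ℕ) : ℤ)) (K + 3) = 4 * 2 ^ K - 1 →
      aR C r (K + 1) ≤ 1 ∧ (C r : ℤ) = 4 * 2 ^ K - 2) := by
  have h1 : LabL K (rev C) (-r) := by
    rw [LabL_rev, neg_neg]
    exact h
  have := labL_facts hU.rev (-r) h1
  rw [W_rev', aL_rev, neg_neg] at this
  have e1 : rev C (-r + ((K + 2 : ℕ) : ℤ)) = C (r - ((K + 2 : ℕ) : ℤ)) := by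
    unfold rev
    congr 1
    ring
  have e2 : rev C (-r) = C r := by
    unfold rev
    congr 1
    ring
  have e3 : r - ((K + 3 : ℕ) : ℤ) + 1 = r - ((K + 2 : ℕ) : ℤ) := by
    push_cast
    ring
  rw [e1, e2, e3] at this
  exact this

/-- no transition from `R` to `L` -/
theorem odd_trans (hK : 1 ≤ K) (hU : Unc (2 * K + 5) C)
    (hT : ∀ s, W C s (2 * K + 5) = 8 * 2 ^ K - 3) (r : ℤ)
    (h1 : LabR K C (r - 1)) (h2 : LabL K C r) : False := by
  obtain ⟨l1, l2, l3⟩ := labL_facts hU r h2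
  obtain ⟨r1, r2, r3⟩ := labR_facts hU (r - 1) h1
  -- the common exempt vertex
  have hc : C (r - 1 - ((K + 2 : ℕ) : ℤ)) = C (r + ((K + 2 : ℕ) : ℤ)) := by
    rw [← hU.per (r - 1 - ((K + 2 : ℕ) : ℤ))]
    congr 1
    push_cast
    ring
  rw [hc] at r2 r3
  have ht := hT (r - 1 - ((K + 2 : ℕ) : ℤ))
  have e : W C (r - 1 - ((K + 2 : ℕ) : ℤ)) (2 * K + 5) + C (r + ((K + 2 : ℕ) : ℤ)) =
      W C (r - 1 - ((K + 2 : ℕ) : ℤ)) (K + 3) + W C r (K + 3) := by
    have e1 : W C (r - 1 - ((K + 2 : ℕ) : ℤ)) ((K + 3) + (K + 3)) =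
        W C (r - 1 - ((K + 2 : ℕ) : ℤ)) (K + 3) + W C r (K + 3) := by
      rw [W_add]
      congr 2
      push_cast
      ring
    rw [← e1, show (K + 3) + (K + 3) = (2 * K + 5) + 1 by ring, W_succ C _ (2 * K + 5)]
    congr 3
    push_cast
    ring
  have hc1 : C (r + ((K + 2 : ℕ) : ℤ)) ≤ 1 := by omega
  rcases Nat.le_one_iff_eq_zero_or_eq_one.1 hc1 with h0 | h0
  · have := l2 (by omega)
    have := r2 (by omega)
    omega
  · have hl := l3 h0 (by omega)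
    have hr := r3 h0 (by omega)
    -- contradiction from the lower bound of the left state
    have h3 : aL C r (K + 1) = (C (r - 1) : ℤ) - 1 +
        phi (SL C (r - 1) K (C (r - ((K + 1 + 1 : ℕ) : ℤ)))) := by
      unfold aL SL
      rw [S_succ]
      congr 3
      · congr 1
        push_cast
        ring
      · congr 1
        funext i
        congr 1
        push_cast
        ring
    have h4 : -(2 ^ K - 1 : ℤ) ≤ SL C (r - 1) K (C (r - ((K + 1 + 1 : ℕ) : ℤ))) :=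
      S_low K _ _ (Int.natCast_nonneg _)
    have h5 : -(2 * 2 ^ K - 2 : ℤ) ≤ phi (SL C (r - 1) K (C (r - ((K + 1 + 1 : ℕ) : ℤ)))) := by
      have hp : (1 : ℤ) ≤ 2 ^ K := one_le_pow₀ (by norm_num)
      unfold phi
      split_ifs <;> omega
    have hp : (2 : ℤ) ≤ 2 ^ K := by
      calc (2 : ℤ) = 2 ^ 1 := by norm_num
        _ ≤ 2 ^ K := pow_le_pow_right₀ (by norm_num) hK
    omega

/-- The odd case. -/
theorem odd_case (hK : 1 ≤ K) (hU : Unc (2 * K + 5) C)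
    (hT : ∀ s, W C s (2 * K + 5) = 8 * 2 ^ K - 3) : False := by
  -- a vertex with at least two pebbles
  have hbig : ∃ v : ℤ, 2 ≤ C v := by
    by_contra hcon
    push Not at hcon
    have h1 : W C 0 (2 * K + 5) ≤ 2 * K + 5 := by
      unfold W
      calc ∑ i ∈ range (2 * K + 5), (C (0 + i) : ℤ) ≤ ∑ i ∈ range (2 * K + 5), (1 : ℤ) := by
            apply Finset.sum_le_sum
            intro i _
            have := hcon (0 + i)
            omega
        _ = 2 * K + 5 := by simp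
    rw [hT] at h1
    have h2 : (K : ℤ) + 1 ≤ 2 ^ K := by
      have : K + 1 ≤ 2 ^ K := Nat.lt_two_pow_self
      exact_mod_cast this
    have : (1 : ℤ) ≤ K := by exact_mod_cast hK
    omega
  obtain ⟨v, hv⟩ := hbig
  -- the window identity
  have hW : ∀ s : ℤ, W C (s - ((K + 2 : ℕ) : ℤ)) (K + 3) + W C s (K + 3) =
      8 * 2 ^ K - 3 + C s := by
    intro s
    have e := W_split (C := C) s (K + 2) (K + 2)
    rw [show (K + 2) + 1 + (K + 2) = 2 * K + 5 by ring, hT] at e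
    have e1 : W C (s - ((K + 2 : ℕ) : ℤ)) (K + 3) = W C (s - ((K + 2 : ℕ) : ℤ)) (K + 2) + C s := by
      rw [show K + 3 = (K + 2) + 1 by ring, W_succ]
      congr 3
      ring
    have e2 : W C s (K + 3) = C s + W C (s + 1) (K + 2) := W_succ' C s (K + 2)
    omega
  have hRstep : ∀ r, LabR K C r → LabR K C (r + 1) := by
    intro r hr
    rcases lab_or hK hU hT (r + 1) with h | h
    · exact (odd_trans hK hU hT (r + 1) (by rw [add_sub_cancel_right]; exact hr) h).elim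
    · exact h
  have hRall : ∀ r, LabR K C r → ∀ j : ℕ, LabR K C (r + j) := by
    intro r hr j
    induction j with
    | zero => simpa using hr
    | succ j ih =>
      have := hRstep _ ih
      rw [add_assoc] at this
      exact_mod_cast this
  by_cases hex : ∃ r, LabR K C r
  · obtain ⟨r, hr⟩ := hex
    -- shift `v` to the right of `r`
    have hper : ∀ j : ℕ, C (v + j * ((2 * K + 5 : ℕ) : ℤ)) = C v := by
      intro j
      induction j with
      | zero => simp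
      | succ j ih =>
        rw [← ih, ← hU.per (v + j * ((2 * K + 5 : ℕ) : ℤ))]
        congr 1
        push_cast
        ring
    obtain ⟨j, hj⟩ : ∃ j : ℕ, r ≤ v + j * ((2 * K + 5 : ℕ) : ℤ) := by
      refine ⟨(r - v).toNat, ?_⟩
      have h1 : r - v ≤ (r - v).toNat := Int.self_le_toNat _
      have h2 : ((r - v).toNat : ℤ) ≤ (r - v).toNat * ((2 * K + 5 : ℕ) : ℤ) := by
        have : (1 : ℤ) ≤ ((2 * K + 5 : ℕ) : ℤ) := by
          push_cast
          omega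
        exact le_mul_of_one_le_right (Int.natCast_nonneg _) this
      linarith
    set v' := v + j * ((2 * K + 5 : ℕ) : ℤ) with hv'
    have hv2 : 2 ≤ C v' := by
      rw [hper j]
      exact hv
    have g1 : LabR K C v' := by
      have := hRall r hr (v' - r).toNat
      rw [Int.toNat_of_nonneg (by omega)] at this
      rw [show r + (v' - r) = v' by ring] at this
      exact this
    have g2 : LabR K C (v' + ((K + 2 : ℕ) : ℤ)) := hRall v' g1 (K + 2)
    have f1 := (labR_facts hU _ g1).1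
    have f2 := (labR_facts hU _ g2).1
    rw [add_sub_cancel_right] at f2
    have := hW v'
    omega
  · push Not at hex
    have hL : ∀ r, LabL K C r := fun r => (lab_or hK hU hT r).resolve_right (hex r)
    have f1 := (labL_facts hU _ (hL v)).1
    have f2 := (labL_facts hU _ (hL (v - ((K + 2 : ℕ) : ℤ)))).1
    have := hW v
    omega

end Odd

/-! ### even cycles -/

section Even

variable {K : ℕ} {C : ℤ → ℕ}

theorem even_noN1 (hK : 1 ≤ K) (hU : Unc (2 * K + 4) C)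
    (hT : ∀ s, W C s (2 * K + 4) = 6 * 2 ^ K - 3) (r : ℤ)
    (ha : aL C r K < 0) (hb : aR C r (K + 1) < 0) : False := by
  have ht := hT (r - ((K + 1 : ℕ) : ℤ))
  rw [show 2 * K + 4 = (K + 1) + 1 + (K + 2) by ring, W_split] at ht
  have hH := hU.H' r K (K + 1) (by ring)
  rw [phi_neg ha, phi_neg hb] at hH
  have h1 := aL1 r K ha
  have h2 := aR1 r (K + 1) hb
  rw [show K + 1 + 1 = K + 2 by ring] at h2
  have p2 : (2 : ℤ) ^ (K + 2) = 4 * 2 ^ K := by ring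
  have p1 : (2 : ℤ) ^ (K + 1) = 2 * 2 ^ K := by ring
  rw [p1] at h1
  rw [p2] at h2
  by_cases hc2 : C (r + ((K + 1 + 1 : ℕ) : ℤ)) % 2 = 1
  · -- shift the exempt pair to the left
    have hL := hU.HL' r (K - 1) (K + 2) (by omega)
    rw [show K + 2 = (K + 1) + 1 by ring, aR_free r (K + 1) (by omega) hc2, phi_neg hb] at hL
    rcases le_or_gt 0 (dL C r (K - 1)) with hd | hd
    · have := phi_div_le hd
      omega
    · have h3 := dL2 r (K - 1) hd
      rw [show K - 1 + 2 = K + 1 by omega, p1] at h3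
      rw [phi_neg hd] at hL
      omega
  by_cases hc1 : C (r - ((K + 1 : ℕ) : ℤ)) % 2 = 1
  · -- shift the exempt pair to the right
    have hR := hU.HR' r (K + 1) K (by ring)
    rw [aL_free r K hK hc1, phi_neg ha] at hR
    rcases le_or_gt 0 (dR C r K) with hd | hd
    · have := phi_div_le hd
      omega
    · have h3 := dR2 r K hd
      rw [p2] at h3
      rw [phi_neg hd] at hR
      omega
  have h3 := aL1e r K ha (by omega)
  have h4 := aR1e r (K + 1) hb (by omega)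
  rw [show K + 1 + 1 = K + 2 by ring] at h4
  rw [p1] at h3
  rw [p2] at h4
  omega

theorem even_noN2 (hK : 1 ≤ K) (hU : Unc (2 * K + 4) C)
    (hT : ∀ s, W C s (2 * K + 4) = 6 * 2 ^ K - 3) (r : ℤ)
    (ha : aL C r (K + 1) < 0) (hb : aR C r K < 0) : False := by
  refine even_noN1 (C := rev C) hK hU.rev ?_ (-r) ?_ ?_
  · intro s
    rw [W_rev']
    exact hT _
  · rw [aL_rev, neg_neg]
    exact hb
  · rw [aR_rev, neg_neg]
    exact ha

theorem even_cls (hK : 1 ≤ K) (hU : Unc (2 * K + 4) C)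
    (hT : ∀ s, W C s (2 * K + 4) = 6 * 2 ^ K - 3) (r : ℤ) :
    W C (r - ((K + 1 : ℕ) : ℤ)) (K + 2) ≤ 2 * 2 ^ K - 1 ∨ W C r (K + 2) ≤ 2 * 2 ^ K - 1 ∨
    (C r = 0 ∧ 2 * 2 ^ K ≤ W C (r - ((K + 1 : ℕ) : ℤ)) (K + 1) ∧
      2 * 2 ^ K ≤ W C (r + 1) (K + 1)) := by
  have hH1 := hU.H' r K (K + 1) (by ring)
  have hH2 := hU.H' r (K + 1) K (by ring)
  have ht := hT (r - ((K + 1 : ℕ) : ℤ))
  rw [show 2 * K + 4 = (K + 1) + 1 + (K + 2) by ring, W_split] at ht
  have p2 : (2 : ℤ) ^ (K + 2) = 4 * 2 ^ K := by ring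
  have p1 : (2 : ℤ) ^ (K + 1) = 2 * 2 ^ K := by ring
  have hp : (2 : ℤ) ≤ 2 ^ K := by
    calc (2 : ℤ) = 2 ^ 1 := by norm_num
      _ ≤ 2 ^ K := pow_le_pow_right₀ (by norm_num) hK
  have eR : W C (r - ((K + 1 : ℕ) : ℤ)) (K + 2) = W C (r - ((K + 1 : ℕ) : ℤ)) (K + 1) + C r := by
    rw [show K + 2 = (K + 1) + 1 by ring, W_succ]
    congr 3
    ring
  have eL : W C r (K + 2) = C r + W C (r + 1) (K + 1) := by
    rw [show K + 2 = (K + 1) + 1 by ring, W_succ']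
  have eL2 : W C (r + 1) (K + 2) = W C (r + 1) (K + 1) + C (r + ((K + 1 + 1 : ℕ) : ℤ)) := by
    rw [show K + 2 = (K + 1) + 1 by ring, W_succ]
    congr 3
    push_cast
    ring
  by_contra hcon
  push Not at hcon
  obtain ⟨hR, hL, hZ⟩ := hcon
  -- `a'` is non-negative
  have ha' : 0 ≤ aL C r K := by
    by_contra hneg
    rw [not_le] at hneg
    rcases le_or_gt 0 (aR C r (K + 1)) with hb | hb
    · have := phi_div_le hb
      rw [phi_neg hneg] at hH1
      have h1 := aL1 r K hneg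
      rw [p1] at h1
      omega
    · exact even_noN1 hK hU hT r hneg hb
  have hb' : 0 ≤ aR C r K := by
    by_contra hneg
    rw [not_le] at hneg
    rcases le_or_gt 0 (aL C r (K + 1)) with hb | hb
    · have := phi_div_le hb
      rw [phi_neg hneg] at hH2
      have h1 := aR1 r K hneg
      rw [p1] at h1
      omega
    · exact even_noN2 hK hU hT r hb hneg
  have pa' := phi_div_le ha'
  have pb' := phi_div_le hb'
  have hcR : aR C r (K + 1) < 0 → C (r + ((K + 1 + 1 : ℕ) : ℤ)) ≤ 1 ∧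
      W C (r + 1) (K + 1) - aR C r (K + 1) ≤ 2 * 2 ^ K - 1 := by
    intro hb
    have h1 : C (r + ((K + 1 + 1 : ℕ) : ℤ)) ≤ 1 := by
      have := SR_cmp C r K (by
        have h2 := hb
        unfold aR at h2
        rw [cr2 r K] at h2
        exact h2) (by
        have h2 := hb'
        unfold aR at h2
        rw [cr1] at h2
        exact h2)
      rw [cr2 r K]
      exact this
    refine ⟨h1, ?_⟩
    have := aR0 r (K + 1) hb h1
    rw [p1] at this
    exact this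
  have hcL : aL C r (K + 1) < 0 → 
      W C (r - ((K + 1 : ℕ) : ℤ)) (K + 1) - aL C r (K + 1) ≤ 2 * 2 ^ K - 1 := by
    intro hb
    have h1 : C (r - ((K + 1 + 1 : ℕ) : ℤ)) ≤ 1 := by
      have := SL_cmp C r K (by
        have h2 := hb
        unfold aL at h2
        rw [cl2 r K] at h2
        exact h2) (by
        have h2 := ha'
        unfold aL at h2
        rw [cl1] at h2
        exact h2)
      rw [cl2 r K]
      exact this
    have := aL0 r (K + 1) hb h1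
    rw [p1] at this
    exact this
  rcases le_or_gt 0 (aR C r (K + 1)) with hb | hb
  · have pb := phi_div_le hb
    rcases le_or_gt 0 (aL C r (K + 1)) with ha | ha
    · have hC0 : C r = 0 := by omega
      have := hZ hC0 (by omega)
      omega
    · have h1 := hcL ha
      omega
  · obtain ⟨h0, h2⟩ := hcR hb
    rw [phi_neg hb] at hH1
    rcases le_or_gt 0 (aL C r (K + 1)) with ha | ha
    · have pa := phi_div_le ha
      omega
    · have h1 := hcL ha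
      rw [phi_neg ha] at hH2
      omega

/-- The even case. -/
theorem even_case (hK : 1 ≤ K) (hU : Unc (2 * K + 4) C)
    (hT : ∀ s, W C s (2 * K + 4) = 6 * 2 ^ K - 3) : False := by
  have hp : (2 : ℤ) ≤ 2 ^ K := by
    calc (2 : ℤ) = 2 ^ 1 := by norm_num
      _ ≤ 2 ^ K := pow_le_pow_right₀ (by norm_num) hK
  have hW : ∀ s : ℤ, W C s (K + 2) + W C (s + ((K + 2 : ℕ) : ℤ)) (K + 2) = 6 * 2 ^ K - 3 := by
    intro s
    rw [← hT s, show 2 * K + 4 = (K + 2) + (K + 2) by ring, W_add C s (K + 2) (K + 2)]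
  -- transitions
  have t1 : ∀ r : ℤ, W C (r - ((K + 1 : ℕ) : ℤ)) (K + 2) ≤ 2 * 2 ^ K - 1 →
      W C (r + 1 - ((K + 1 : ℕ) : ℤ)) (K + 2) ≤ 2 * 2 ^ K - 1 := by
    intro r hr
    rcases even_cls hK hU hT (r + 1) with h | h | ⟨_, h, _⟩
    · exact h
    · exfalso
      have := hW (r - ((K + 1 : ℕ) : ℤ))
      rw [show r - ((K + 1 : ℕ) : ℤ) + ((K + 2 : ℕ) : ℤ) = r + 1 by push_cast; ring] at this
      omega
    · exfalso
      rw [show K + 2 = (K + 1) + 1 by ring, W_succ'] at hr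
      rw [show r - ((K + 1 : ℕ) : ℤ) + 1 = r + 1 - ((K + 1 : ℕ) : ℤ) by ring] at hr
      omega
  have hnR : ∀ r : ℤ, ¬ W C (r - ((K + 1 : ℕ) : ℤ)) (K + 2) ≤ 2 * 2 ^ K - 1 := by
    intro r hr
    have hall : ∀ j : ℕ, W C (r + j - ((K + 1 : ℕ) : ℤ)) (K + 2) ≤ 2 * 2 ^ K - 1 := by
      intro j
      induction j with
      | zero => simpa using hr
      | succ j ih =>
        have := t1 _ ih
        rw [show r + (j : ℤ) + 1 = r + ((j + 1 : ℕ) : ℤ) by push_cast; ring] at this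
        exact this
    have h1 := hall (K + 2)
    have h2 := hW (r - ((K + 1 : ℕ) : ℤ))
    rw [show r - ((K + 1 : ℕ) : ℤ) + ((K + 2 : ℕ) : ℤ) =
      r + ((K + 2 : ℕ) : ℤ) - ((K + 1 : ℕ) : ℤ) by ring] at h2
    omega
  have t2 : ∀ r : ℤ, W C r (K + 2) ≤ 2 * 2 ^ K - 1 → W C (r - 1) (K + 2) ≤ 2 * 2 ^ K - 1 := by
    intro r hr
    rcases even_cls hK hU hT (r - 1) with h | h | ⟨_, _, h⟩
    · exact (hnR _ h).elim
    · exact h
    · exfalso
      rw [show K + 2 = (K + 1) + 1 by ring, W_succ] at hr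
      rw [show r - 1 + 1 = r by ring] at h
      omega
  have hnL : ∀ r : ℤ, ¬ W C r (K + 2) ≤ 2 * 2 ^ K - 1 := by
    intro r hr
    have hall : ∀ j : ℕ, W C (r - j) (K + 2) ≤ 2 * 2 ^ K - 1 := by
      intro j
      induction j with
      | zero => simpa using hr
      | succ j ih =>
        have := t2 _ ih
        rw [show r - (j : ℤ) - 1 = r - ((j + 1 : ℕ) : ℤ) by push_cast; ring] at this
        exact this
    have h1 := hall (K + 2)
    have h2 := hW (r - ((K + 2 : ℕ) : ℤ))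
    rw [show r - ((K + 2 : ℕ) : ℤ) + ((K + 2 : ℕ) : ℤ) = r by ring] at h2
    omega
  have hz : ∀ r : ℤ, C r = 0 := by
    intro r
    rcases even_cls hK hU hT r with h | h | h
    · exact (hnR _ h).elim
    · exact (hnL _ h).elim
    · exact h.1
  have h0 : W C 0 (2 * K + 4) = 0 := by
    unfold W
    apply Finset.sum_eq_zero
    intro i _
    rw [hz]
    rfl
  rw [hT] at h0
  omega

end Even

end Pool.Agent.H27.Pebble
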