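import Mathlib
import Pool.Agent.H27.PebbleCount

set_option autoImplicit false

/-!
Cycles: from periodic functions to configurations.
-/

namespace Pool.Agent.H27.Pebble

open Finset SimpleGraph

/-- the cycle on `N + 3` vertices, with vertex set viewed as `ZMod (N + 3)` -/
abbrev Cyc (N : ℕ) : SimpleGraph (ZMod (N + 3)) := cycleGraph (N + 3)

theorem cyc_adj (N : ℕ) (u v : ZMod (N + 3)) :
    (Cyc N).Adj u v ↔ u - v = 1 ∨ v - u = 1 := cycleGraph_adj

theorem cyc_adj_succ (N : ℕ) (s t : ℤ) (h : t = s + 1) :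
    (Cyc N).Adj ((s : ℤ) : ZMod (N + 3)) ((t : ℤ) : ZMod (N + 3)) := by
  rw [cyc_adj]
  right
  rw [h]
  push_cast
  ring

theorem cyc_adj_pred (N : ℕ) (s t : ℤ) (h : t = s - 1) :
    (Cyc N).Adj ((s : ℤ) : ZMod (N + 3)) ((t : ℤ) : ZMod (N + 3)) := by
  rw [cyc_adj]
  left
  rw [h]
  push_cast
  ring

/-- injectivity of the parametrization -/
theorem cast_inj (N : ℕ) (s : ℤ) {i j : ℕ} (hi : i < N + 3) (hj : j < N + 3)
    (h : ((s + i : ℤ) : ZMod (N + 3)) = ((s + j : ℤ) : ZMod (N + 3))) : i = j := by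
  push_cast at h
  have h1 : ((i : ℕ) : ZMod (N + 3)) = ((j : ℕ) : ZMod (N + 3)) := add_left_cancel h
  rw [ZMod.natCast_eq_natCast_iff'] at h1
  rwa [Nat.mod_eq_of_lt hi, Nat.mod_eq_of_lt hj] at h1

theorem cast_surj (N : ℕ) (s : ℤ) (w : ZMod (N + 3)) :
    ∃ j : ℕ, j < N + 3 ∧ w = ((s + j : ℤ) : ZMod (N + 3)) := by
  refine ⟨(w - s).val, ZMod.val_lt _, ?_⟩
  push_cast
  rw [ZMod.natCast_zmod_val]
  ring

theorem sum_window (N : ℕ) (s : ℤ) {M : Type*} [AddCommMonoid M] (f : ZMod (N + 3) → M) :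
    ∑ v, f v = ∑ j ∈ range (N + 3), f ((s + j : ℤ) : ZMod (N + 3)) := by
  symm
  refine Finset.sum_nbij (fun j : ℕ => ((s + j : ℤ) : ZMod (N + 3))) ?_ ?_ ?_ ?_
  · intro j _
    exact mem_univ _
  · intro i hi j hj h
    rw [coe_range, Set.mem_Iio] at hi hj
    exact cast_inj N s hi hj h
  · intro w _
    obtain ⟨j, hj, rfl⟩ := cast_surj N s w
    exact ⟨j, by simpa using hj, rfl⟩
  · intro j _
    rfl

theorem sum_decomp {M : Type*} [AddCommMonoid M] (F : ℤ → M) (r : ℤ) (ma mb n : ℕ)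
    (h : ma + mb + 3 = n) :
    ∑ j ∈ range n, F (r - 1 - ma + j) =
      F r + ((∑ i ∈ range ma, F (r - 1 - i)) + F (r - 1 - ma)) +
        ((∑ i ∈ range mb, F (r + 1 + i)) + F (r + 1 + mb)) := by
  rw [show n = (1 + ma) + (1 + (mb + 1)) by omega, sum_range_add _ (1 + ma) (1 + (mb + 1)),
    sum_range_add _ 1 ma, sum_range_add _ 1 (mb + 1), sum_range_succ _ mb]
  simp only [sum_range_one]
  have e1 : ∑ x ∈ range ma, F (r - 1 - ma + (1 + x : ℕ)) = ∑ i ∈ range ma, F (r - 1 - i) := by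
    rw [← sum_range_reflect]
    apply sum_congr rfl
    intro i hi
    rw [mem_range] at hi
    congr 1
    omega
  have e2 : ∑ x ∈ range mb, F (r - 1 - ma + (1 + ma + (1 + x) : ℕ)) =
      ∑ i ∈ range mb, F (r + 1 + i) := by
    apply sum_congr rfl
    intro i hi
    congr 1
    push_cast
    ring
  have e3 : F (r - 1 - ma + (1 + ma + 0 : ℕ)) = F r := by
    congr 1
    push_cast
    ring
  have e4 : F (r - 1 - ma + (0 : ℕ)) = F (r - 1 - ma) := by
    congr 1
    push_cast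
    ring
  have e5 : F (r - 1 - ma + (1 + ma + (1 + mb) : ℕ)) = F (r + 1 + mb) := by
    congr 1
    push_cast
    ring
  rw [e1, e2, e3, e4, e5]
  abel

/-- decomposition of a configuration around a root -/
theorem decomp (N : ℕ) (c : ZMod (N + 3) → ℕ) (r : ℤ) (ma mb : ℕ) (h : ma + mb = N) :
    c = Pi.single ((r : ℤ) : ZMod (N + 3)) (c ((r : ℤ) : ZMod (N + 3))) +
      ((∑ i ∈ range ma, Pi.single ((r - 1 - i : ℤ) : ZMod (N + 3))
          (c ((r - 1 - i : ℤ) : ZMod (N + 3)))) +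
        Pi.single ((r - 1 - ma : ℤ) : ZMod (N + 3)) (c ((r - 1 - ma : ℤ) : ZMod (N + 3)))) +
      ((∑ i ∈ range mb, Pi.single ((r + 1 + i : ℤ) : ZMod (N + 3))
          (c ((r + 1 + i : ℤ) : ZMod (N + 3)))) +
        Pi.single ((r + 1 + mb : ℤ) : ZMod (N + 3)) (c ((r + 1 + mb : ℤ) : ZMod (N + 3)))) := by
  have h1 : c = ∑ v, Pi.single v (c v) := (Finset.univ_sum_single c).symm
  have h2 := sum_window N (r - 1 - ma) (fun v => (Pi.single v (c v) : ZMod (N + 3) → ℕ))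
  have h3 := sum_decomp (fun t : ℤ => (Pi.single ((t : ℤ) : ZMod (N + 3))
    (c ((t : ℤ) : ZMod (N + 3))) : ZMod (N + 3) → ℕ)) r ma mb (N + 3) (by omega)
  conv_lhs => rw [h1, h2]
  exact h3

/-- a configuration from which a strong hub set can be covered -/
def Covered (N : ℕ) (c : ZMod (N + 3) → ℕ) : Prop :=
  ∃ c' : ZMod (N + 3) → ℕ, Relation.ReflTransGen (Move (Cyc N)) c c' ∧
      ∃ U : Set (ZMod (N + 3)), IsStrongHub (Cyc N) U ∧ ∀ v ∈ U, 1 ≤ c' v

/-- walks along an arc -/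
theorem arc_walk (N : ℕ) (d : ℕ) : ∀ (s t : ℤ), t = s + d → d < N + 3 →
    ∃ p : (Cyc N).Walk ((s : ℤ) : ZMod (N + 3)) ((t : ℤ) : ZMod (N + 3)), p.IsPath ∧
      ∀ z ∈ p.support, ∃ j : ℕ, j ≤ d ∧ z = ((s + j : ℤ) : ZMod (N + 3)) := by
  induction d with
  | zero =>
    intro s t ht _
    have e : t = s := by rw [ht]; simp
    subst e
    refine ⟨Walk.nil, Walk.IsPath.nil, ?_⟩
    intro z hz
    rw [Walk.support_nil, List.mem_singleton] at hz
    exact ⟨0, le_rfl, by rw [hz]; simp⟩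
  | succ d ih =>
    intro s t ht hd
    obtain ⟨p, hp, hps⟩ := ih (s + 1) t (by rw [ht]; push_cast; ring) (by omega)
    refine ⟨Walk.cons (cyc_adj_succ N s (s + 1) rfl) p, ?_, ?_⟩
    · rw [Walk.cons_isPath_iff]
      refine ⟨hp, fun hmem => ?_⟩
      obtain ⟨j, hj, hz⟩ := hps _ hmem
      have h1 : ((s + (0 : ℕ) : ℤ) : ZMod (N + 3)) = ((s + (j + 1 : ℕ) : ℤ) : ZMod (N + 3)) := by
        rw [show (s + (0 : ℕ) : ℤ) = s by simp, hz]
        congr 1
        push_cast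
        ring
      have := cast_inj N s (by omega) (by omega) h1
      omega
    · intro z hz
      rw [Walk.support_cons, List.mem_cons] at hz
      rcases hz with rfl | hz
      · exact ⟨0, by omega, by simp⟩
      · obtain ⟨j, hj, rfl⟩ := hps z hz
        refine ⟨j + 1, by omega, ?_⟩
        congr 1
        push_cast
        ring

/-- the complement of two adjacent vertices is a strong hub set -/
theorem hub_compl (N : ℕ) (s : ℤ) :
    IsStrongHub (Cyc N) {w | w ≠ ((s - 1 : ℤ) : ZMod (N + 3)) ∧ w ≠ ((s : ℤ) : ZMod (N + 3))} := by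
  have hne : ∀ j : ℕ, 1 ≤ j → j < N + 2 → ((s + j : ℤ) : ZMod (N + 3)) ∈
      {w | w ≠ ((s - 1 : ℤ) : ZMod (N + 3)) ∧ w ≠ ((s : ℤ) : ZMod (N + 3))} := by
    intro j hj1 hj2
    constructor
    · intro h
      have h1 : ((s + j : ℤ) : ZMod (N + 3)) = ((s + (N + 2 : ℕ) : ℤ) : ZMod (N + 3)) := by
        rw [h, ← sub_eq_zero, ← Int.cast_sub]
        rw [show (s - 1 - (s + (N + 2 : ℕ)) : ℤ) = -((N + 3 : ℕ) : ℤ) by push_cast; ring]
        rw [Int.cast_neg, Int.cast_natCast, ZMod.natCast_self, neg_zero]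
      have := cast_inj N s (by omega) (by omega) h1
      omega
    · intro h
      have h1 : ((s + j : ℤ) : ZMod (N + 3)) = ((s + (0 : ℕ) : ℤ) : ZMod (N + 3)) := by
        rw [h]
        congr 1
        simp
      have := cast_inj N s (by omega) (by omega) h1
      omega
  refine ⟨⟨_, hne 1 le_rfl (by omega)⟩, ?_⟩
  -- the main case
  have main : ∀ i j : ℕ, i < j → j < N + 3 →
      ∃ p : (Cyc N).Walk ((s + i : ℤ) : ZMod (N + 3)) ((s + j : ℤ) : ZMod (N + 3)), p.IsPath ∧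
        ∀ z ∈ p.support, z ≠ ((s + i : ℤ) : ZMod (N + 3)) → z ≠ ((s + j : ℤ) : ZMod (N + 3)) →
          z ∈ {w | w ≠ ((s - 1 : ℤ) : ZMod (N + 3)) ∧ w ≠ ((s : ℤ) : ZMod (N + 3))} := by
    intro i j hij hj
    obtain ⟨p, hp, hps⟩ := arc_walk N (j - i) (s + i) (s + j) (by omega) (by omega)
    refine ⟨p, hp, ?_⟩
    intro z hz hzi hzj
    obtain ⟨l, hl, rfl⟩ := hps z hz
    have e : ((s + i + l : ℤ) : ZMod (N + 3)) = ((s + (i + l : ℕ) : ℤ) : ZMod (N + 3)) := by
      congr 1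
      push_cast
      ring
    rw [e] at hzi hzj ⊢
    have h1 : i + l ≠ i := fun h => hzi (by rw [h])
    have h2 : i + l ≠ j := fun h => hzj (by rw [h])
    exact hne (i + l) (by omega) (by omega)
  intro x y hxy
  obtain ⟨i, hi, rfl⟩ := cast_surj N s x
  obtain ⟨j, hj, rfl⟩ := cast_surj N s y
  rcases lt_trichotomy i j with h | h | h
  · exact main i j h hj
  · exact absurd (by rw [h]) hxy
  · obtain ⟨p, hp, hps⟩ := main j i h hi
    refine ⟨p.reverse, hp.reverse, ?_⟩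
    intro z hz h1 h2
    rw [Walk.support_reverse, List.mem_reverse] at hz
    exact hps z hz h2 h1

/-- every vertex other than the two exempt ones occurs -/
theorem target_cover (N : ℕ) (r : ℤ) (ma mb : ℕ) (h : ma + mb = N) (w : ZMod (N + 3))
    (h1 : w ≠ ((r - 1 - ma - 1 : ℤ) : ZMod (N + 3))) (h2 : w ≠ ((r - 1 - ma : ℤ) : ZMod (N + 3))) :
    1 ≤ ((Pi.single ((r : ℤ) : ZMod (N + 3)) 1 +
      (∑ i ∈ range ma, Pi.single ((r - 1 - i : ℤ) : ZMod (N + 3)) 1) +
      (∑ i ∈ range mb, Pi.single ((r + 1 + i : ℤ) : ZMod (N + 3)) 1)) : ZMod (N + 3) → ℕ) w := by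
  obtain ⟨j, hj, rfl⟩ := cast_surj N (r - 1 - ma) w
  have hj0 : j ≠ 0 := by
    rintro rfl
    exact h2 (by congr 1; push_cast; ring)
  have hjN : j ≠ N + 2 := by
    rintro rfl
    apply h1
    rw [← sub_eq_zero, ← Int.cast_sub]
    rw [show (r - 1 - ma + (N + 2 : ℕ) - (r - 1 - ma - 1) : ℤ) = ((N + 3 : ℕ) : ℤ) by push_cast; ring]
    rw [Int.cast_natCast, ZMod.natCast_self]
  simp only [Pi.add_apply, Finset.sum_apply]
  rcases lt_trichotomy j (ma + 1) with hlt | heq | hgt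
  · have : 1 ≤ ∑ i ∈ range ma, (Pi.single ((r - 1 - i : ℤ) : ZMod (N + 3)) 1 : ZMod (N + 3) → ℕ)
        ((r - 1 - ma + j : ℤ) : ZMod (N + 3)) := by
      have hmem : ma - j ∈ range ma := by
        rw [mem_range]
        omega
      refine le_trans ?_ (Finset.single_le_sum (fun _ _ => Nat.zero_le _) hmem)
      have : (r - 1 - ((ma - j : ℕ) : ℤ)) = r - 1 - ma + j := by omega
      rw [this]
      simp
    omega
  · have : (r - 1 - ma + j : ℤ) = r := by omega
    rw [this]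
    have : (Pi.single ((r : ℤ) : ZMod (N + 3)) 1 : ZMod (N + 3) → ℕ) ((r : ℤ) : ZMod (N + 3)) = 1 :=
      Pi.single_eq_same _ _
    omega
  · have : 1 ≤ ∑ i ∈ range mb, (Pi.single ((r + 1 + i : ℤ) : ZMod (N + 3)) 1 : ZMod (N + 3) → ℕ)
        ((r - 1 - ma + j : ℤ) : ZMod (N + 3)) := by
      have hmem : j - ma - 2 ∈ range mb := by
        rw [mem_range]
        omega
      refine le_trans ?_ (Finset.single_le_sum (fun _ _ => Nat.zero_le _) hmem)
      have : (r + 1 + ((j - ma - 2 : ℕ) : ℤ)) = r - 1 - ma + j := by omega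
      rw [this]
      simp
    omega

/-- from reaching the target to being covered -/
theorem covered_of_can (N : ℕ) (c : ZMod (N + 3) → ℕ) (r : ℤ) (ma mb : ℕ) (h : ma + mb = N)
    (hc : Can (Cyc N) c (Pi.single ((r : ℤ) : ZMod (N + 3)) 1 +
      (∑ i ∈ range ma, Pi.single ((r - 1 - i : ℤ) : ZMod (N + 3)) 1) +
      (∑ i ∈ range mb, Pi.single ((r + 1 + i : ℤ) : ZMod (N + 3)) 1))) : Covered N c := by
  obtain ⟨c', hcc, hd⟩ := hc
  refine ⟨c', hcc, _, hub_compl N (r - 1 - ma), ?_⟩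
  rintro w ⟨h1, h2⟩
  exact (target_cover N r ma mb h w h1 h2).trans (hd w)

/-- uncoverability gives the inequalities -/
theorem unc_of_not_covered (N : ℕ) (c : ZMod (N + 3) → ℕ) (hc : ¬ Covered N c) :
    Unc (N + 3) (fun t : ℤ => c ((t : ℤ) : ZMod (N + 3))) := by
  have adjL0 : ∀ r : ℤ, (Cyc N).Adj ((r : ℤ) : ZMod (N + 3))
      ((fun i : ℕ => ((r - 1 - i : ℤ) : ZMod (N + 3))) 0) := fun r =>
    cyc_adj_pred N r (r - 1 - (0 : ℕ)) (by simp)
  have adjR0 : ∀ r : ℤ, (Cyc N).Adj ((r : ℤ) : ZMod (N + 3))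
      ((fun i : ℕ => ((r + 1 + i : ℤ) : ZMod (N + 3))) 0) := fun r =>
    cyc_adj_succ N r (r + 1 + (0 : ℕ)) (by simp)
  have adjL : ∀ (r : ℤ) (i : ℕ), (Cyc N).Adj ((fun i : ℕ => ((r - 1 - i : ℤ) : ZMod (N + 3))) i)
      ((fun i : ℕ => ((r - 1 - i : ℤ) : ZMod (N + 3))) (i + 1)) := fun r i =>
    cyc_adj_pred N _ _ (by push_cast; ring)
  have adjR : ∀ (r : ℤ) (i : ℕ), (Cyc N).Adj ((fun i : ℕ => ((r + 1 + i : ℤ) : ZMod (N + 3))) i)
      ((fun i : ℕ => ((r + 1 + i : ℤ) : ZMod (N + 3))) (i + 1)) := fun r i =>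
    cyc_adj_succ N _ _ (by push_cast; ring)
  have hper : ∀ i : ℤ, ((i + (N + 3 : ℕ) : ℤ) : ZMod (N + 3)) = ((i : ℤ) : ZMod (N + 3)) := by
    intro i
    rw [Int.cast_add, Int.cast_natCast, ZMod.natCast_self, add_zero]
  refine ⟨?_, ?_, ?_, ?_⟩
  · intro i
    show c _ = c _
    rw [hper]
  · intro r ma mb hm
    by_contra hneg
    rw [not_lt] at hneg
    apply hc
    apply covered_of_can N c r ma mb (by omega)
    have h1 := root_can (G := Cyc N) ((r : ℤ) : ZMod (N + 3)) (c ((r : ℤ) : ZMod (N + 3)))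
      (fun i : ℕ => ((r - 1 - i : ℤ) : ZMod (N + 3))) (fun i : ℕ => ((r + 1 + i : ℤ) : ZMod (N + 3)))
      (adjL0 r) (adjR0 r) (adjL r) (adjR r)
      (fun i : ℕ => c ((r - 1 - i : ℤ) : ZMod (N + 3)))
      (fun i : ℕ => c ((r + 1 + i : ℤ) : ZMod (N + 3))) ma mb
      (c ((r - 1 - ma : ℤ) : ZMod (N + 3))) (c ((r + 1 + mb : ℤ) : ZMod (N + 3))) hneg
    have h2 := decomp N c r ma mb (by omega)
    rw [← h2] at h1
    exact h1
  · intro r ma mb hm
    by_contra hneg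
    rw [not_lt] at hneg
    apply hc
    apply covered_of_can N c r ma mb (by omega)
    have h1 := root_can (G := Cyc N) ((r : ℤ) : ZMod (N + 3)) (c ((r : ℤ) : ZMod (N + 3)))
      (fun i : ℕ => ((r - 1 - i : ℤ) : ZMod (N + 3))) (fun i : ℕ => ((r + 1 + i : ℤ) : ZMod (N + 3)))
      (adjL0 r) (adjR0 r) (adjL r) (adjR r)
      (fun i : ℕ => c ((r - 1 - i : ℤ) : ZMod (N + 3)))
      (fun i : ℕ => c ((r + 1 + i : ℤ) : ZMod (N + 3))) ma mb 0
      (c ((r + 1 + mb : ℤ) : ZMod (N + 3)) + c ((r + 2 + mb : ℤ) : ZMod (N + 3)) / 2)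
      (by
        have := hneg
        unfold SL SR at this
        push_cast at this ⊢
        exact this)
    refine Can.trans ?_ h1
    have h2 := decomp N c r ma mb (by omega)
    have hex : ((r - 1 - ma : ℤ) : ZMod (N + 3)) = ((r + 2 + mb : ℤ) : ZMod (N + 3)) := by
      rw [← hper (r - 1 - ma)]
      congr 1
      omega
    rw [hex] at h2
    -- move the pebbles of the second exempt vertex
    have h3 : Can (Cyc N) (Pi.single ((r + 2 + mb : ℤ) : ZMod (N + 3))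
        (c ((r + 2 + mb : ℤ) : ZMod (N + 3))))
        (Pi.single ((r + 1 + mb : ℤ) : ZMod (N + 3)) (c ((r + 2 + mb : ℤ) : ZMod (N + 3)) / 2)) := by
      refine (Can.many (cyc_adj_pred N (r + 2 + mb) (r + 1 + mb) (by ring))
        (c ((r + 2 + mb : ℤ) : ZMod (N + 3)) / 2)).mono ?_ le_rfl
      intro w
      simp only [Pi.single_apply]
      split_ifs <;> omega
    conv => enter [2]; rw [h2]
    rw [Pi.single_add, Pi.single_zero, add_zero]
    refine ((((Can.refl _).add ((Can.refl _).add h3)).add (Can.refl _))).trans (Can.of_le ?_)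
    apply le_of_eq
    abel
  · intro r ma mb hm
    by_contra hneg
    rw [not_lt] at hneg
    apply hc
    apply covered_of_can N c r ma mb (by omega)
    have h1 := root_can (G := Cyc N) ((r : ℤ) : ZMod (N + 3)) (c ((r : ℤ) : ZMod (N + 3)))
      (fun i : ℕ => ((r - 1 - i : ℤ) : ZMod (N + 3))) (fun i : ℕ => ((r + 1 + i : ℤ) : ZMod (N + 3)))
      (adjL0 r) (adjR0 r) (adjL r) (adjR r)
      (fun i : ℕ => c ((r - 1 - i : ℤ) : ZMod (N + 3)))
      (fun i : ℕ => c ((r + 1 + i : ℤ) : ZMod (N + 3))) ma mb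
      (c ((r - 1 - ma : ℤ) : ZMod (N + 3)) + c ((r - 2 - ma : ℤ) : ZMod (N + 3)) / 2) 0
      (by
        have := hneg
        unfold SL SR at this
        push_cast at this ⊢
        exact this)
    refine Can.trans ?_ h1
    have h2 := decomp N c r ma mb (by omega)
    have hex : ((r + 1 + mb : ℤ) : ZMod (N + 3)) = ((r - 2 - ma : ℤ) : ZMod (N + 3)) := by
      rw [← hper (r - 2 - ma)]
      congr 1
      omega
    rw [hex] at h2
    -- move the pebbles of the second exempt vertex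
    have h3 : Can (Cyc N) (Pi.single ((r - 2 - ma : ℤ) : ZMod (N + 3))
        (c ((r - 2 - ma : ℤ) : ZMod (N + 3))))
        (Pi.single ((r - 1 - ma : ℤ) : ZMod (N + 3)) (c ((r - 2 - ma : ℤ) : ZMod (N + 3)) / 2)) := by
      refine (Can.many (cyc_adj_succ N (r - 2 - ma) (r - 1 - ma) (by ring))
        (c ((r - 2 - ma : ℤ) : ZMod (N + 3)) / 2)).mono ?_ le_rfl
      intro w
      simp only [Pi.single_apply]
      split_ifs <;> omega
    conv => enter [2]; rw [h2]
    rw [Pi.single_add, Pi.single_zero, add_zero]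
    refine ((Can.refl _).add ((Can.refl _).add h3)).trans (Can.of_le ?_)
    apply le_of_eq
    abel

/-- total number of pebbles -/
theorem total_window (N : ℕ) (c : ZMod (N + 3) → ℕ) (s : ℤ) :
    W (fun t : ℤ => c ((t : ℤ) : ZMod (N + 3))) s (N + 3) = ((∑ v, c v : ℕ) : ℤ) := by
  unfold W
  rw [sum_window N s c]
  push_cast
  rfl

end Pool.Agent.H27.Pebble
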