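import Mathlib
import Pool.Agent.H27.PebbleCycle

set_option autoImplicit false

/-!
The upper bound for all cycles.
-/

namespace Pool.Agent.H27.Pebble

open Finset SimpleGraph

/-- the conjectured value for the cycle on `n` vertices -/
def val (n : ℕ) : ℕ := if n % 2 = 0 then 2 ^ (n / 2) + 2 ^ (n / 2 - 1) - 3 else 2 ^ (n / 2 + 1) - 3

/-- periodic extension of a finite sequence -/
def CF (n : ℕ) (x : ℕ → ℕ) : ℤ → ℕ := fun t => x (t % n).toNat

/-- a decidable test -/
def chk (n : ℕ) (x : ℕ → ℕ) : Prop :=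
  ∃ r ∈ range n, ∃ ma ∈ range (n - 2),
    0 ≤ (CF n x r : ℤ) - 1 + phi (SL (CF n x) r ma (CF n x (r - 1 - ma))) +
      phi (SR (CF n x) r (n - 3 - ma) (CF n x (r + 1 + (n - 3 - ma : ℕ))))

instance (n : ℕ) (x : ℕ → ℕ) : Decidable (chk n x) := by
  unfold chk
  infer_instance

theorem small3 : ∀ a ∈ range 2, ∀ b ∈ range 2, a + b ≤ 1 →
    chk 3 (fun i => [a, b, 1 - a - b].getD i 0) := by
  decide +kernel

theorem small4 : ∀ a ∈ range 4, ∀ b ∈ range 4, ∀ c ∈ range 4, a + b + c ≤ 3 →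
    chk 4 (fun i => [a, b, c, 3 - a - b - c].getD i 0) := by
  decide +kernel

theorem small5 : ∀ a ∈ range 6, ∀ b ∈ range 6, ∀ c ∈ range 6, ∀ d ∈ range 6,
    a + b + c + d ≤ 5 →
    chk 5 (fun i => [a, b, c, d, 5 - a - b - c - d].getD i 0) := by
  decide +kernel

theorem chk_false {n : ℕ} (hn : 3 ≤ n) {x : ℕ → ℕ} {C : ℤ → ℕ} (hU : Unc n C)
    (hC : CF n x = C) (h : chk n x) : False := by
  obtain ⟨r, _, ma, hma, h⟩ := h
  rw [mem_range] at hma
  have := hU.H r ma (n - 3 - ma) (by omega)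
  rw [hC] at h
  exact absurd h (not_le.2 this)

theorem CF_eq (N : ℕ) (c : ZMod (N + 3) → ℕ) (x : ℕ → ℕ)
    (hx : ∀ i < N + 3, x i = c ((i : ℕ) : ZMod (N + 3))) :
    CF (N + 3) x = fun t : ℤ => c ((t : ℤ) : ZMod (N + 3)) := by
  funext t
  show x (t % ((N + 3 : ℕ) : ℤ)).toNat = c ((t : ℤ) : ZMod (N + 3))
  have h0 : 0 ≤ t % ((N + 3 : ℕ) : ℤ) := Int.emod_nonneg _ (by omega)
  have h1 : t % ((N + 3 : ℕ) : ℤ) < ((N + 3 : ℕ) : ℤ) := Int.emod_lt_of_pos _ (by omega)
  rw [hx _ (by omega)]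
  congr 1
  rw [← Int.cast_natCast, Int.toNat_of_nonneg h0]
  rw [ZMod.intCast_eq_intCast_iff]
  exact Int.mod_modEq _ _

theorem upper3 (c : ZMod (0 + 3) → ℕ) (hc : ∑ v, c v = 1) : Covered 0 c := by
  by_contra hneg
  have hU := unc_of_not_covered 0 c hneg
  have hs : c 0 + c 1 + c 2 = 1 := by
    have : ∑ v : Fin 3, c v = 1 := hc
    rw [Fin.sum_univ_three] at this
    exact this
  refine chk_false (le_refl 3) hU (CF_eq 0 c _ ?_) (small3 (c 0) (by rw [mem_range]; omega) (c 1)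
    (by rw [mem_range]; omega) (by omega))
  intro i hi
  interval_cases i
  · rfl
  · rfl
  · show 1 - c 0 - c 1 = c 2
    omega

theorem upper4 (c : ZMod (1 + 3) → ℕ) (hc : ∑ v, c v = 3) : Covered 1 c := by
  by_contra hneg
  have hU := unc_of_not_covered 1 c hneg
  have hs : c 0 + c 1 + c 2 + c 3 = 3 := by
    have : ∑ v : Fin 4, c v = 3 := hc
    rw [Fin.sum_univ_four] at this
    exact this
  refine chk_false (by omega) hU (CF_eq 1 c _ ?_) (small4 (c 0) (by rw [mem_range]; omega) (c 1)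
    (by rw [mem_range]; omega) (c 2) (by rw [mem_range]; omega) (by omega))
  intro i hi
  interval_cases i
  · rfl
  · rfl
  · rfl
  · show 3 - c 0 - c 1 - c 2 = c 3
    omega

theorem upper5 (c : ZMod (2 + 3) → ℕ) (hc : ∑ v, c v = 5) : Covered 2 c := by
  by_contra hneg
  have hU := unc_of_not_covered 2 c hneg
  have hs : c 0 + c 1 + c 2 + c 3 + c 4 = 5 := by
    have : ∑ v : Fin 5, c v = 5 := hc
    rw [Fin.sum_univ_five] at this
    exact this
  refine chk_false (by omega) hU (CF_eq 2 c _ ?_) (small5 (c 0) (by rw [mem_range]; omega) (c 1)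
    (by rw [mem_range]; omega) (c 2) (by rw [mem_range]; omega) (c 3) (by rw [mem_range]; omega)
    (by omega))
  intro i hi
  interval_cases i
  · rfl
  · rfl
  · rfl
  · rfl
  · show 5 - c 0 - c 1 - c 2 - c 3 = c 4
    omega

theorem upper_even (K : ℕ) (hK : 1 ≤ K) (c : ZMod (2 * K + 1 + 3) → ℕ)
    (hc : ∑ v, c v = 6 * 2 ^ K - 3) : Covered (2 * K + 1) c := by
  by_contra hneg
  have hU := unc_of_not_covered _ c hneg
  have hT := total_window (2 * K + 1) c
  rw [hc] at hT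
  refine even_case hK hU fun s => ?_
  have h2 : 1 ≤ 2 ^ K := Nat.one_le_two_pow
  refine (hT s).trans ?_
  rw [Nat.cast_sub (by omega)]
  push_cast
  ring

theorem upper_odd (K : ℕ) (hK : 1 ≤ K) (c : ZMod (2 * K + 2 + 3) → ℕ)
    (hc : ∑ v, c v = 8 * 2 ^ K - 3) : Covered (2 * K + 2) c := by
  by_contra hneg
  have hU := unc_of_not_covered _ c hneg
  have hT := total_window (2 * K + 2) c
  rw [hc] at hT
  refine odd_case hK hU fun s => ?_
  have h2 : 1 ≤ 2 ^ K := Nat.one_le_two_pow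
  refine (hT s).trans ?_
  rw [Nat.cast_sub (by omega)]
  push_cast
  ring

theorem val_even (K : ℕ) : val (2 * K + 1 + 3) = 6 * 2 ^ K - 3 := by
  unfold val
  rw [if_pos (by omega), show (2 * K + 1 + 3) / 2 = K + 2 by omega, show K + 2 - 1 = K + 1 by omega]
  rw [pow_succ, pow_succ]
  omega

theorem val_odd (K : ℕ) : val (2 * K + 2 + 3) = 8 * 2 ^ K - 3 := by
  unfold val
  rw [if_neg (by omega), show (2 * K + 2 + 3) / 2 + 1 = K + 3 by omega]
  rw [pow_succ, pow_succ, pow_succ]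
  omega

theorem upper (N : ℕ) (c : ZMod (N + 3) → ℕ) (hc : ∑ v, c v = val (N + 3)) : Covered N c := by
  rcases Nat.even_or_odd' N with ⟨K, rfl | rfl⟩
  · rcases K with _ | _ | K
    · exact upper3 c hc
    · exact upper5 c hc
    · have e := val_odd (K + 1)
      exact upper_odd (K + 1) (by omega) c (hc.trans e)
  · rcases K with _ | K
    · exact upper4 c hc
    · rw [val_even] at hc
      exact upper_even (K + 1) (by omega) c hc

end Pool.Agent.H27.Pebble
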