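import Mathlib
import Pool.Agent.H27.PebbleUpper

set_option autoImplicit false

/-!
The lower bound for all cycles.
-/

namespace Pool.Agent.H27.Pebble

open Finset SimpleGraph

/-- the weight of a vertex -/
def wt (N : ℕ) (v : ZMod (N + 3)) : ℕ := 2 ^ (min v.val (N + 3 - v.val))

/-- the weight after a step -/
theorem wt_succ (N : ℕ) (v : ZMod (N + 3)) :
    wt N (v + 1) = 2 ^ (min (v.val + 1) (N + 3 - (v.val + 1))) := by
  unfold wt
  have h1 : v.val < N + 3 := ZMod.val_lt v
  have h2 : (v + 1).val = (v.val + 1) % (N + 3) := by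
    rw [ZMod.val_add, ZMod.val_one'' (by omega)]
  rcases Nat.lt_or_ge (v.val + 1) (N + 3) with h | h
  · rw [h2, Nat.mod_eq_of_lt h]
  · have h3 : v.val + 1 = N + 3 := by omega
    rw [h2, h3, Nat.mod_self]
    simp

theorem wt_adj (N : ℕ) {u v : ZMod (N + 3)} (h : (Cyc N).Adj u v) : wt N v ≤ 2 * wt N u := by
  rw [cyc_adj] at h
  rcases h with h | h
  · have h1 : u = v + 1 := by rw [← h]; ring
    rw [h1, wt_succ]
    unfold wt
    rw [← pow_succ']
    have := ZMod.val_lt v
    exact Nat.pow_le_pow_right (by omega) (by omega)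
  · have h1 : v = u + 1 := by rw [← h]; ring
    rw [h1, wt_succ]
    unfold wt
    rw [← pow_succ']
    have := ZMod.val_lt u
    exact Nat.pow_le_pow_right (by omega) (by omega)

/-- total weight of a configuration -/
def Phi (N : ℕ) (c : ZMod (N + 3) → ℕ) : ℕ := ∑ v, c v * wt N v

theorem Phi_move (N : ℕ) {c c' : ZMod (N + 3) → ℕ} (h : Move (Cyc N) c c') :
    Phi N c' ≤ Phi N c := by
  obtain ⟨u, v, huv, hu, rfl⟩ := h
  have hne : u ≠ v := huv.ne
  set c' := Function.update (Function.update c u (c u - 2)) v (c v + 1) with hc'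
  have key : ∀ w, c' w * wt N w + (Pi.single u (2 * wt N u) : ZMod (N + 3) → ℕ) w =
      c w * wt N w + (Pi.single v (wt N v) : ZMod (N + 3) → ℕ) w := by
    intro w
    by_cases hwv : w = v
    · subst hwv
      rw [hc', Function.update_self, Pi.single_eq_same, Pi.single_eq_of_ne (Ne.symm hne)]
      ring
    · by_cases hwu : w = u
      · subst hwu
        rw [hc', Function.update_of_ne hwv, Function.update_self, Pi.single_eq_same,
          Pi.single_eq_of_ne hwv]
        rw [← add_mul, Nat.sub_add_cancel hu, add_zero]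
      · rw [hc', Function.update_of_ne hwv, Function.update_of_ne hwu, Pi.single_eq_of_ne hwu,
          Pi.single_eq_of_ne hwv]
  have h1 := Finset.sum_congr (rfl : (univ : Finset (ZMod (N + 3))) = univ) (fun w _ => key w)
  rw [sum_add_distrib, sum_add_distrib, Finset.sum_pi_single', Finset.sum_pi_single',
    if_pos (mem_univ _), if_pos (mem_univ _)] at h1
  have h2 := wt_adj N huv
  unfold Phi
  omega

theorem Phi_reach (N : ℕ) {c c' : ZMod (N + 3) → ℕ} (h : Relation.ReflTransGen (Move (Cyc N)) c c') :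
    Phi N c' ≤ Phi N c := by
  induction h with
  | refl => exact le_rfl
  | tail _ hm ih => exact (Phi_move N hm).trans ih

/-- two distinct vertices outside a strong hub set are adjacent -/
theorem hub_adj (N : ℕ) {U : Set (ZMod (N + 3))} (hU : IsStrongHub (Cyc N) U) {a b : ZMod (N + 3)}
    (hab : a ≠ b) (ha : a ∉ U) (hb : b ∉ U) : b = a + 1 ∨ a = b + 1 := by
  by_contra hneg
  rw [not_or] at hneg
  obtain ⟨hn1, hn2⟩ := hneg
  obtain ⟨s, rfl⟩ : ∃ s : ℤ, a = ((s : ℤ) : ZMod (N + 3)) :=
    ⟨a.val, by rw [Int.cast_natCast, ZMod.natCast_zmod_val]⟩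
  obtain ⟨j, hj, rfl⟩ := cast_surj N s b
  have hper : ∀ i : ℤ, ((i + (N + 3 : ℕ) : ℤ) : ZMod (N + 3)) = ((i : ℤ) : ZMod (N + 3)) := by
    intro i
    rw [Int.cast_add, Int.cast_natCast, ZMod.natCast_self, add_zero]
  have hj0 : j ≠ 0 := by
    rintro rfl
    exact hab (by congr 1; simp)
  have hj1 : j ≠ 1 := by
    rintro rfl
    exact hn1 (by push_cast; ring)
  have hj2 : j ≠ N + 2 := by
    rintro rfl
    apply hn2
    have := hper s
    rw [← this]
    push_cast
    ring
  have hx : ∀ i i' : ℕ, i < N + 3 → i' < N + 3 → i ≠ i' →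
      ((s + i : ℤ) : ZMod (N + 3)) ≠ ((s + i' : ℤ) : ZMod (N + 3)) := by
    intro i i' hi hi' hne h
    exact hne (cast_inj N s hi hi' h)
  obtain ⟨p, _, hp⟩ := hU.2 ((s + (1 : ℕ) : ℤ) : ZMod (N + 3)) ((s + (N + 2 : ℕ) : ℤ) : ZMod (N + 3))
    (hx _ _ (by omega) (by omega) (by omega))
  obtain ⟨d, hd, hd1, hd2⟩ := p.exists_boundary_dart
    {w | ∃ i : ℕ, 1 ≤ i ∧ i < j ∧ w = ((s + i : ℤ) : ZMod (N + 3))}
    ⟨1, le_rfl, by omega, rfl⟩
    (by
      rintro ⟨i, hi1, hi2, hi3⟩
      exact hx _ _ (by omega) (by omega) (by omega) hi3)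
  obtain ⟨i, hi1, hi2, hi3⟩ := hd1
  have hadj : (Cyc N).Adj d.fst d.snd := d.adj
  have hsnd := p.dart_snd_mem_support_of_mem_darts hd
  rw [cyc_adj, hi3] at hadj
  rcases hadj with h | h
  · -- the previous vertex
    have h1 : d.snd = ((s + (i - 1 : ℕ) : ℤ) : ZMod (N + 3)) := by
      have : d.snd = ((s + i : ℤ) : ZMod (N + 3)) - 1 := by rw [← h]; ring
      rw [this]
      rw [Nat.cast_sub hi1]
      push_cast
      ring
    by_cases hi : i = 1
    · subst hi
      apply ha
      have h2 : d.snd = ((s : ℤ) : ZMod (N + 3)) := by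
        rw [h1]
        congr 1
        simp
      rw [← h2]
      apply hp _ hsnd
      · rw [h1]
        exact hx _ _ (by omega) (by omega) (by omega)
      · rw [h1]
        exact hx _ _ (by omega) (by omega) (by omega)
    · exact hd2 ⟨i - 1, by omega, by omega, h1⟩
  · have h1 : d.snd = ((s + (i + 1 : ℕ) : ℤ) : ZMod (N + 3)) := by
      have : d.snd = ((s + i : ℤ) : ZMod (N + 3)) + 1 := by rw [← h]; ring
      rw [this]
      push_cast
      ring
    by_cases hi : i + 1 = j
    · subst hi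
      apply hb
      rw [← h1]
      apply hp _ hsnd
      · rw [h1]
        exact hx _ _ (by omega) (by omega) (by omega)
      · rw [h1]
        exact hx _ _ (by omega) (by omega) (by omega)
    · exact hd2 ⟨i + 1, by omega, by omega, h1⟩

/-- a strong hub set misses at most two consecutive vertices -/
theorem hub_structure (N : ℕ) {U : Set (ZMod (N + 3))} (hU : IsStrongHub (Cyc N) U) :
    ∃ s : ZMod (N + 3), ∀ w, w ≠ s → w ≠ s + 1 → w ∈ U := by
  by_contra hneg
  push Not at hneg
  obtain ⟨a, ha0, ha1, ha⟩ := hneg 0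
  obtain ⟨b, hb0, hb1, hb⟩ := hneg a
  obtain ⟨c, hc0, hc1, hc⟩ := hneg b
  have hca : c ≠ a := by
    rintro rfl
    rcases hub_adj N hU (Ne.symm hb0) ha hb with h | h
    · exact hb1 h
    · exact hc1 h
  have h1 := hub_adj N hU (Ne.symm hb0) ha hb
  have h2 := hub_adj N hU (Ne.symm hc0) hb hc
  have h3 := hub_adj N hU (Ne.symm hca) ha hc
  have h1' : a = b + 1 := by
    rcases h1 with h | h
    · exact absurd h hb1
    · exact h
  have h2' : b = c + 1 := by
    rcases h2 with h | h
    · exact absurd h hc1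
    · exact h
  have h3' : c = a + 1 := by
    rcases h3 with h | h
    · exact h
    · exfalso
      apply hc0
      have : b + 1 = c + 1 := by rw [← h1', h]
      exact (add_right_cancel this).symm
  have h30 : (3 : ZMod (N + 3)) = 0 := by
    have : c = c + 3 := by
      conv_lhs => rw [h3', h1', h2']
      ring
    have h4 : c + 0 = c + 3 := by rw [add_zero]; exact this
    exact (add_left_cancel h4).symm
  have hN : N = 0 := by
    have : ((3 : ℕ) : ZMod (N + 3)) = ((0 : ℕ) : ZMod (N + 3)) := by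
      push_cast
      exact h30
    rw [ZMod.natCast_eq_natCast_iff', Nat.zero_mod] at this
    have h5 := Nat.dvd_of_mod_eq_zero this
    have := Nat.le_of_dvd (by omega) h5
    omega
  subst hN
  obtain ⟨u, hu⟩ := hU.1
  obtain ⟨s, rfl⟩ : ∃ s : ℤ, c = ((s : ℤ) : ZMod (0 + 3)) :=
    ⟨c.val, by rw [Int.cast_natCast, ZMod.natCast_zmod_val]⟩
  obtain ⟨j, hj, rfl⟩ := cast_surj 0 s u
  interval_cases j
  · apply hc
    have : ((s : ℤ) : ZMod (0 + 3)) = ((s + (0 : ℕ) : ℤ) : ZMod (0 + 3)) := by
      congr 1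
      simp
    rw [this]
    exact hu
  · apply hb
    have : b = ((s + (1 : ℕ) : ℤ) : ZMod (0 + 3)) := by
      rw [h2']
      push_cast
      ring
    rw [this]
    exact hu
  · apply ha
    have : a = ((s + (2 : ℕ) : ℤ) : ZMod (0 + 3)) := by
      rw [h1', h2']
      push_cast
      ring
    rw [this]
    exact hu

theorem geom (k : ℕ) : ∑ i ∈ range k, 2 ^ i + 1 = 2 ^ k := by
  induction k with
  | zero => simp
  | succ k ih =>
    rw [sum_range_succ, pow_succ]
    omega

theorem geom' (k : ℕ) : ∑ j ∈ range k, 2 ^ (k - j) + 2 = 2 ^ (k + 1) := by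
  have h1 : ∑ j ∈ range k, 2 ^ (k - j) = ∑ j ∈ range k, 2 ^ (j + 1) := by
    rw [← sum_range_reflect]
    apply sum_congr rfl
    intro i hi
    rw [mem_range] at hi
    congr 1
    omega
  have h2 : ∑ j ∈ range k, 2 ^ (j + 1) = (∑ j ∈ range k, 2 ^ j) * 2 := by
    rw [sum_mul]
    apply sum_congr rfl
    intro i _
    rw [pow_succ]
  have h3 := geom k
  rw [h1, h2, pow_succ]
  omega

theorem sum_wt (N : ℕ) : ∑ v, wt N v = ∑ i ∈ range (N + 3), 2 ^ (min i (N + 3 - i)) := by
  rw [sum_window N 0]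
  apply sum_congr rfl
  intro i hi
  rw [mem_range] at hi
  unfold wt
  rw [zero_add, Int.cast_natCast, ZMod.val_natCast, Nat.mod_eq_of_lt hi]

theorem sum_odd (k : ℕ) : ∑ i ∈ range (2 * k + 1), 2 ^ (min i (2 * k + 1 - i)) + 3 = 2 ^ (k + 2) := by
  rw [show 2 * k + 1 = (k + 1) + k by ring, sum_range_add]
  have h1 : ∑ x ∈ range (k + 1), 2 ^ (min x (k + 1 + k - x)) = ∑ x ∈ range (k + 1), 2 ^ x := by
    apply sum_congr rfl
    intro i hi
    rw [mem_range] at hi
    congr 1
    omega
  have h2 : ∑ x ∈ range k, 2 ^ (min (k + 1 + x) (k + 1 + k - (k + 1 + x))) =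
      ∑ x ∈ range k, 2 ^ (k - x) := by
    apply sum_congr rfl
    intro i hi
    rw [mem_range] at hi
    congr 1
    omega
  rw [h1, h2]
  have h3 := geom (k + 1)
  have h4 := geom' k
  rw [pow_succ 2 (k + 1)]
  omega

theorem sum_even (k : ℕ) : ∑ i ∈ range (2 * k), 2 ^ (min i (2 * k - i)) + 3 = 3 * 2 ^ k ∨ k = 0 := by
  rcases k with _ | k
  · right
    rfl
  left
  rw [show 2 * (k + 1) = (k + 2) + k by ring, sum_range_add]
  have h1 : ∑ x ∈ range (k + 2), 2 ^ (min x (k + 2 + k - x)) = ∑ x ∈ range (k + 2), 2 ^ x := by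
    apply sum_congr rfl
    intro i hi
    rw [mem_range] at hi
    congr 1
    omega
  have h2 : ∑ x ∈ range k, 2 ^ (min (k + 2 + x) (k + 2 + k - (k + 2 + x))) =
      ∑ x ∈ range k, 2 ^ (k - x) := by
    apply sum_congr rfl
    intro i hi
    rw [mem_range] at hi
    congr 1
    omega
  rw [h1, h2]
  have h3 := geom (k + 2)
  have h4 := geom' k
  rw [pow_succ 2 (k + 1)] at h3
  omega

/-- covering a strong hub set costs at least `val` -/
theorem lower (N : ℕ) {c' : ZMod (N + 3) → ℕ} {U : Set (ZMod (N + 3))}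
    (hU : IsStrongHub (Cyc N) U) (hc : ∀ v ∈ U, 1 ≤ c' v) : val (N + 3) ≤ Phi N c' := by
  obtain ⟨s, hs⟩ := hub_structure N hU
  have hall : ∑ v, wt N v ≤ Phi N c' + (wt N s + wt N (s + 1)) := by
    have key : ∀ w, wt N w ≤ c' w * wt N w + ((Pi.single s (wt N s) : ZMod (N + 3) → ℕ) w +
        (Pi.single (s + 1) (wt N (s + 1)) : ZMod (N + 3) → ℕ) w) := by
      intro w
      by_cases h1 : w = s
      · subst h1
        rw [Pi.single_eq_same]
        omega
      · by_cases h2 : w = s + 1
        · subst h2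
          rw [Pi.single_eq_same]
          omega
        · have := hc w (hs w h1 h2)
          have h3 := Nat.mul_le_mul_right (wt N w) this
          omega
    have h1 := Finset.sum_le_sum (s := (univ : Finset (ZMod (N + 3)))) (fun w _ => key w)
    rw [sum_add_distrib, sum_add_distrib, Finset.sum_pi_single', Finset.sum_pi_single',
      if_pos (mem_univ _), if_pos (mem_univ _)] at h1
    exact h1
  rw [sum_wt, wt_succ] at hall
  unfold wt at hall
  have hlt := ZMod.val_lt s
  generalize s.val = x at hall hlt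
  rcases Nat.even_or_odd' (N + 3) with ⟨k, hk | hk⟩
  · -- even case
    have h1 : val (N + 3) = 2 ^ k + 2 ^ (k - 1) - 3 := by
      unfold val
      rw [if_pos (by omega), show (N + 3) / 2 = k by omega]
    rw [h1]
    rcases sum_even k with h2 | h2
    · rw [hk] at hall hlt
      obtain ⟨l, rfl⟩ : ∃ l, k = l + 1 := ⟨k - 1, by omega⟩
      have h3 : 2 ^ (min x (2 * (l + 1) - x)) +
          2 ^ (min (x + 1) (2 * (l + 1) - (x + 1))) ≤ 2 ^ (l + 1) + 2 ^ l := by
        rcases Nat.lt_or_ge x (l + 1) with h | h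
        · have h4 : 2 ^ (min x (2 * (l + 1) - x)) ≤ 2 ^ l :=
            Nat.pow_le_pow_right (by omega) (by omega)
          have h5 : 2 ^ (min (x + 1) (2 * (l + 1) - (x + 1))) ≤ 2 ^ (l + 1) :=
            Nat.pow_le_pow_right (by omega) (by omega)
          omega
        · have h4 : 2 ^ (min x (2 * (l + 1) - x)) ≤ 2 ^ (l + 1) :=
            Nat.pow_le_pow_right (by omega) (by omega)
          have h5 : 2 ^ (min (x + 1) (2 * (l + 1) - (x + 1))) ≤ 2 ^ l :=
            Nat.pow_le_pow_right (by omega) (by omega)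
          omega
      rw [Nat.add_sub_cancel]
      rw [pow_succ] at h2 h3 ⊢
      omega
    · omega
  · have h1 : val (N + 3) = 2 ^ (k + 1) - 3 := by
      unfold val
      rw [if_neg (by omega), show (N + 3) / 2 = k by omega]
    rw [h1]
    have h2 := sum_odd k
    rw [hk] at hall hlt
    have h3 : 2 ^ (min x (2 * k + 1 - x)) ≤ 2 ^ k :=
      Nat.pow_le_pow_right (by omega) (by omega)
    have h4 : 2 ^ (min (x + 1) (2 * k + 1 - (x + 1))) ≤ 2 ^ k :=
      Nat.pow_le_pow_right (by omega) (by omega)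
    rw [pow_succ, pow_succ] at h2
    rw [pow_succ]
    omega

theorem Phi_single (N : ℕ) (t : ℕ) : Phi N (Pi.single 0 t) = t := by
  unfold Phi
  rw [Finset.sum_eq_single (0 : ZMod (N + 3))]
  · rw [Pi.single_eq_same]
    unfold wt
    simp
  · intro b _ hb
    rw [Pi.single_eq_of_ne hb, zero_mul]
  · intro h
    exact absurd (mem_univ _) h

end Pool.Agent.H27.Pebble
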