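import Mathlib

set_option autoImplicit false

/-!
Scattered subspaces of `C_p(K)`: closures are finitely generated.
-/

namespace Pool.Agent.H27.ScatteredCp

open Set Topology

universe u

variable {X K : Type u} [TopologicalSpace X] [TopologicalSpace K] [CompactSpace K]

/-- uniform closeness -/
def Near (f : X → K → ℝ) (x y : X) (δ : ℝ) : Prop := ∀ k, |f x k - f y k| < δ

theorem near_nhds (f : X → K → ℝ) (hf : IsEmbedding f) (x : X) (U : Set X) (hU : IsOpen U)
    (hx : x ∈ U) : ∃ δ > 0, ∀ y, Near f x y δ → y ∈ U := by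
  obtain ⟨V, hV, rfl⟩ := hf.isOpen_iff.1 hU
  rw [isOpen_pi_iff] at hV
  obtain ⟨I, u, hu, hIu⟩ := hV _ hx
  have h1 : ∀ a ∈ I, ∃ δ > 0, ∀ t, |f x a - t| < δ → t ∈ u a := by
    intro a ha
    obtain ⟨δ, hδ, hb⟩ := Metric.isOpen_iff.1 (hu a ha).1 _ (hu a ha).2
    refine ⟨δ, hδ, fun t ht => hb ?_⟩
    rw [Metric.mem_ball, Real.dist_eq, abs_sub_comm]
    exact ht
  choose! δ hδ hδu using h1
  rcases I.eq_empty_or_nonempty with hI | hI
  · refine ⟨1, one_pos, fun y _ => hIu ?_⟩
    intro a ha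
    rw [hI] at ha
    simp at ha
  · obtain ⟨a0, ha0, hmin⟩ := I.exists_min_image δ hI
    refine ⟨δ a0, hδ a0 ha0, fun y hy => hIu ?_⟩
    intro a ha
    exact hδu a ha _ (lt_of_lt_of_le (hy a) (hmin a ha))

/-- scattered implies uniformly separated with a variable radius -/
theorem exists_eps (f : X → K → ℝ) (hf : IsEmbedding f)
    (hsc : ∀ S : Set X, S.Nonempty → ∃ x ∈ S, ∃ U : Set X, IsOpen U ∧ U ∩ S = {x}) :
    ∃ ε : X → ℝ, (∀ x, 0 < ε x) ∧ ∀ x y, Near f x y (min (ε x) (ε y)) → x = y := by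
  -- Zorn on graphs of partial functions
  let P : Set (Set (X × ℝ)) := {T | (∀ p ∈ T, 0 < p.2) ∧
    (∀ p ∈ T, ∀ y, Near f p.1 y p.2 → ∃ ε, (y, ε) ∈ T) ∧
    (∀ p ∈ T, ∀ q ∈ T, Near f p.1 q.1 (min p.2 q.2) → p = q)}
  obtain ⟨T, hT⟩ := zorn_subset P (by
    intro c hc hchain
    refine ⟨⋃₀ c, ⟨?_, ?_, ?_⟩, fun s hs => subset_sUnion_of_mem hs⟩
    · rintro p ⟨s, hs, hp⟩
      exact (hc hs).1 p hp
    · rintro p ⟨s, hs, hp⟩ y hy
      obtain ⟨ε, hε⟩ := (hc hs).2.1 p hp y hy
      exact ⟨ε, s, hs, hε⟩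
    · rintro p ⟨s, hs, hp⟩ q ⟨t, ht, hq⟩ hpq
      rcases hchain.total hs ht with h | h
      · exact (hc ht).2.2 p (h hp) q hq hpq
      · exact (hc hs).2.2 p hp q (h hq) hpq)
  have hTP : T ∈ P := hT.prop
  have hdom : ∀ x, ∃ ε, (x, ε) ∈ T := by
    by_contra hcon
    push Not at hcon
    obtain ⟨x0, hx0⟩ := hcon
    obtain ⟨x, hx, U, hU, hUx⟩ := hsc {x | ∀ ε, (x, ε) ∉ T} ⟨x0, hx0⟩
    have hxU : x ∈ U := by
      have : x ∈ U ∩ {x | ∀ ε, (x, ε) ∉ T} := by
        rw [hUx]
        rfl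
      exact this.1
    obtain ⟨δ, hδ, hδU⟩ := near_nhds f hf x U hU hxU
    have hT' : insert (x, δ) T ∈ P := by
      refine ⟨?_, ?_, ?_⟩
      · rintro p (rfl | hp)
        · exact hδ
        · exact hTP.1 p hp
      · rintro p (rfl | hp) y hy
        · by_cases hyT : ∃ ε, (y, ε) ∈ T
          · obtain ⟨ε, hε⟩ := hyT
            exact ⟨ε, Or.inr hε⟩
          · push Not at hyT
            have hyU : y ∈ U := hδU y hy
            have : y ∈ U ∩ {x | ∀ ε, (x, ε) ∉ T} := ⟨hyU, hyT⟩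
            rw [hUx] at this
            rw [mem_singleton_iff] at this
            rw [this]
            exact ⟨δ, Or.inl rfl⟩
        · obtain ⟨ε, hε⟩ := hTP.2.1 p hp y hy
          exact ⟨ε, Or.inr hε⟩
      · rintro p (rfl | hp) q (rfl | hq) hpq
        · rfl
        · exfalso
          have h1 : Near f q.1 x q.2 := by
            intro k
            have := hpq k
            rw [abs_sub_comm]
            exact lt_of_lt_of_le this (min_le_right _ _)
          obtain ⟨ε, hε⟩ := hTP.2.1 q hq x h1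
          exact hx ε hε
        · exfalso
          have h1 : Near f p.1 x p.2 := by
            intro k
            have := hpq k
            exact lt_of_lt_of_le this (min_le_left _ _)
          obtain ⟨ε, hε⟩ := hTP.2.1 p hp x h1
          exact hx ε hε
        · exact hTP.2.2 p hp q hq hpq
    have := hT.le_of_ge hT' (subset_insert _ _)
    exact hx δ (this (mem_insert _ _))
  choose ε hε using hdom
  refine ⟨ε, fun x => hTP.1 _ (hε x), fun x y hxy => ?_⟩
  have := hTP.2.2 _ (hε x) _ (hε y) hxy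
  exact congrArg Prod.fst this

/-- functions controlled by finitely many members of the family -/
def Ctrl (f : X → K → ℝ) (F : Finset X) (η δ : ℝ) (z : X) : Prop :=
  ∀ k k', (∀ x ∈ F, |f x k - f x k'| < η) → |f z k - f z k'| < δ

/-- The finitely generated closure. -/
def H (f : X → K → ℝ) (ε : X → ℝ) (F : Finset X) : Set X :=
  ⋃ (q : ℕ × ℕ), {z | 1 / ((q.1 : ℝ) + 1) ≤ ε z ∧
    Ctrl f F (1 / ((q.2 : ℝ) + 1)) (1 / (4 * ((q.1 : ℝ) + 1))) z}

theorem H_countable (f : X → K → ℝ) (hfc : ∀ x, Continuous (f x)) (ε : X → ℝ)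
    (hε : ∀ x y, Near f x y (min (ε x) (ε y)) → x = y) (F : Finset X) :
    (H f ε F).Countable := by
  classical
  unfold H
  refine countable_iUnion ?_
  rintro ⟨q, p⟩
  simp only
  set δ : ℝ := 1 / (4 * ((q : ℝ) + 1)) with hδ
  set η : ℝ := 1 / ((p : ℝ) + 1) with hη
  have hq : (0 : ℝ) < (q : ℝ) + 1 := by positivity
  have hp : (0 : ℝ) < (p : ℝ) + 1 := by positivity
  have hδ0 : 0 < δ := by positivity
  have hη0 : 0 < η := by positivity
  -- a finite net
  obtain ⟨t, ht⟩ : ∃ t : Finset K, ∀ k, ∃ k' ∈ t, ∀ x ∈ F, |f x k - f x k'| < η := by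
    have hU : ∀ k' : K, IsOpen {k | ∀ x ∈ F, |f x k - f x k'| < η} := by
      intro k'
      have : {k | ∀ x ∈ F, |f x k - f x k'| < η} = ⋂ x ∈ F, {k | |f x k - f x k'| < η} := by
        ext k
        simp
      rw [this]
      refine isOpen_biInter_finset fun x _ => ?_
      exact isOpen_lt (((hfc x).sub continuous_const).abs) continuous_const
    obtain ⟨t, ht⟩ := isCompact_univ.elim_finite_subcover _ hU (by
      intro k _
      refine mem_iUnion.2 ⟨k, ?_⟩
      intro x _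
      simp [hη0])
    refine ⟨t, fun k => ?_⟩
    have := ht (mem_univ k)
    rw [mem_iUnion₂] at this
    obtain ⟨k', hk', h⟩ := this
    exact ⟨k', hk', h⟩
  have hinj : InjOn (fun z : X => fun k : t => ⌊f z k.1 / δ⌋)
      {z | 1 / ((q : ℝ) + 1) ≤ ε z ∧ Ctrl f F η δ z} := by
    rintro z ⟨hz1, hz2⟩ z' ⟨hz1', hz2'⟩ heq
    apply hε
    intro k
    obtain ⟨k', hk', hkk⟩ := ht k
    have h1 := hz2 k k' hkk
    have h2 := hz2' k k' hkk
    have h3 : |f z k' - f z' k'| < δ := by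
      have h4 := congrFun heq ⟨k', hk'⟩
      simp only at h4
      have h5 := Int.abs_sub_lt_one_of_floor_eq_floor h4
      rw [← sub_div, abs_div, abs_of_pos hδ0, div_lt_one hδ0] at h5
      exact h5
    have h6 : |f z k - f z' k| < 3 * δ := by
      have : f z k - f z' k = (f z k - f z k') + (f z k' - f z' k') + -(f z' k - f z' k') := by
        ring
      rw [this]
      have h7 := abs_add_le ((f z k - f z k') + (f z k' - f z' k')) (-(f z' k - f z' k'))
      have h8 := abs_add_le (f z k - f z k') (f z k' - f z' k')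
      rw [abs_neg] at h7
      linarith
    have h9 : 3 * δ < 1 / ((q : ℝ) + 1) := by
      rw [hδ]
      rw [show 3 * (1 / (4 * ((q : ℝ) + 1))) = (3 / 4) * (1 / ((q : ℝ) + 1)) by
        field_simp]
      have : 0 < 1 / ((q : ℝ) + 1) := by positivity
      linarith
    exact lt_of_lt_of_le (h6.trans h9) (le_min hz1 hz1')
  exact Set.countable_of_injective_of_countable_image hinj (Set.to_countable _)

theorem H_closure (f : X → K → ℝ) (hf : IsEmbedding f) (hfc : ∀ x, Continuous (f x)) (ε : X → ℝ)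
    (hε0 : ∀ x, 0 < ε x) (B : Set X) (z : X) (hz : z ∈ closure B) :
    ∃ F : Finset X, (F : Set X) ⊆ B ∧ z ∈ H f ε F := by
  classical
  obtain ⟨q, hq⟩ := exists_nat_one_div_lt (hε0 z)
  set δ : ℝ := 1 / (4 * ((q : ℝ) + 1)) with hδ
  have hδ0 : 0 < δ := by positivity
  by_contra hcon
  push Not at hcon
  have h1 : ∀ (F : Finset X), (F : Set X) ⊆ B → ∀ p : ℕ,
      ∃ k k', (∀ x ∈ F, |f x k - f x k'| < 1 / ((p : ℝ) + 1)) ∧ δ ≤ |f z k - f z k'| := by
    intro F hF p
    by_contra h2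
    push Not at h2
    apply hcon F hF
    refine mem_iUnion.2 ⟨(q, p), hq.le, ?_⟩
    intro k k' hk
    exact h2 k k' hk
  let ι := {F : Finset X // (F : Set X) ⊆ B} × ℕ
  let C : ι → Set (K × K) := fun i =>
    {k | (∀ x ∈ i.1.1, |f x k.1 - f x k.2| ≤ 1 / ((i.2 : ℝ) + 1)) ∧ δ ≤ |f z k.1 - f z k.2|}
  have hCcl : ∀ i, IsClosed (C i) := by
    intro i
    have hc : ∀ x, Continuous fun k : K × K => |f x k.1 - f x k.2| := fun x =>
      (((hfc x).comp continuous_fst).sub ((hfc x).comp continuous_snd)).abs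
    have : C i = (⋂ x ∈ i.1.1, {k : K × K | |f x k.1 - f x k.2| ≤ 1 / ((i.2 : ℝ) + 1)}) ∩
        {k : K × K | δ ≤ |f z k.1 - f z k.2|} := by
      ext k
      simp [C]
    rw [this]
    refine IsClosed.inter ?_ (isClosed_le continuous_const (hc z))
    exact isClosed_biInter fun x _ => isClosed_le (hc x) continuous_const
  haveI : Nonempty ι := ⟨⟨⟨∅, by simp⟩, 0⟩⟩
  have hdir : Directed (· ⊇ ·) C := by
    rintro ⟨⟨F, hF⟩, p⟩ ⟨⟨F', hF'⟩, p'⟩
    refine ⟨⟨⟨F ∪ F', ?_⟩, max p p'⟩, ?_, ?_⟩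
    · rw [Finset.coe_union]
      exact union_subset hF hF'
    · rintro k ⟨hk1, hk2⟩
      refine ⟨fun x hx => (hk1 x (Finset.mem_union_left _ hx)).trans ?_, hk2⟩
      simp only
      apply one_div_le_one_div_of_le (by positivity)
      have : (p : ℝ) ≤ ((max p p' : ℕ) : ℝ) := by exact_mod_cast le_max_left _ _
      linarith
    · rintro k ⟨hk1, hk2⟩
      refine ⟨fun x hx => (hk1 x (Finset.mem_union_right _ hx)).trans ?_, hk2⟩
      simp only
      apply one_div_le_one_div_of_le (by positivity)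
      have : (p' : ℝ) ≤ ((max p p' : ℕ) : ℝ) := by exact_mod_cast le_max_right _ _
      linarith
  have hne : ∀ i, (C i).Nonempty := by
    rintro ⟨⟨F, hF⟩, p⟩
    obtain ⟨k, k', hk, hk'⟩ := h1 F hF p
    exact ⟨(k, k'), fun x hx => (hk x hx).le, hk'⟩
  obtain ⟨⟨k, k'⟩, hk⟩ := IsCompact.nonempty_iInter_of_directed_nonempty_isCompact_isClosed C hdir hne
    (fun i => (hCcl i).isCompact) hCcl
  rw [mem_iInter] at hk
  have hB : ∀ x ∈ B, f x k - f x k' = 0 := by
    intro x hx
    have h3 : ∀ p : ℕ, |f x k - f x k'| ≤ 1 / ((p : ℝ) + 1) := by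
      intro p
      exact (hk ⟨⟨{x}, by simpa using hx⟩, p⟩).1 x (Finset.mem_singleton_self x)
    by_contra h4
    obtain ⟨p, hp⟩ := exists_nat_one_div_lt (abs_pos.2 h4)
    exact absurd (h3 p) (not_le.2 hp)
  have hcont : Continuous fun x => f x k - f x k' :=
    ((continuous_apply k).comp hf.continuous).sub ((continuous_apply k').comp hf.continuous)
  have hzz : f z k - f z k' = 0 := by
    have hcl : IsClosed {x | f x k - f x k' = 0} := isClosed_eq hcont continuous_const
    exact closure_minimal hB hcl hz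
  have h5 := (hk (Classical.arbitrary ι)).2
  simp only at h5
  rw [hzz, abs_zero] at h5
  exact absurd h5 (not_le.2 hδ0)

end Pool.Agent.H27.ScatteredCp
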