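import Mathlib
import Pool.Agent.H27.FinClosure

set_option autoImplicit false

/-!
Cech-complete spaces in which closures are finitely generated are sigma-discrete.
-/

namespace Pool.Agent.H27.SigmaDisc

open Set Cardinal Topology
open Pool.Agent.H27.FinClosure

universe u

/-- `A` is covered by countably many (relatively) discrete subsets of `X`. -/
def SigmaDiscrete {X : Type u} [TopologicalSpace X] (A : Set X) : Prop :=
  ∃ D : ℕ → Set X, A ⊆ (⋃ n, D n) ∧ ∀ n, ∀ x ∈ D n, ∃ U : Set X, IsOpen U ∧ U ∩ D n = {x}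

theorem sigmaDiscrete_of_countable {X : Type u} [TopologicalSpace X] {A : Set X} {ι : Type*}
    [Countable ι] (D : ι → Set X) (hA : A ⊆ ⋃ i, D i)
    (hD : ∀ i, ∀ x ∈ D i, ∃ U : Set X, IsOpen U ∧ x ∈ U ∧ ∀ y ∈ D i, y ∈ U → y = x) :
    SigmaDiscrete A := by
  rcases isEmpty_or_nonempty ι with hι | hι
  · refine ⟨fun _ => ∅, ?_, ?_⟩
    · intro x hx
      obtain ⟨i, _⟩ := mem_iUnion.1 (hA hx)
      exact hι.elim i
    · intro n x hx
      exact absurd hx (notMem_empty x)
  · obtain ⟨g, hg⟩ := exists_surjective_nat ι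
    refine ⟨fun n => D (g n), ?_, ?_⟩
    · intro x hx
      obtain ⟨i, hi⟩ := mem_iUnion.1 (hA hx)
      obtain ⟨n, rfl⟩ := hg i
      exact mem_iUnion.2 ⟨n, hi⟩
    · intro n x hx
      obtain ⟨U, hU, hxU, hy⟩ := hD (g n) x hx
      refine ⟨U, hU, ?_⟩
      ext y
      constructor
      · rintro ⟨h1, h2⟩
        exact hy y h2 h1
      · rintro rfl
        exact ⟨hxU, hx⟩

theorem sigmaDiscrete_countable_set {X : Type u} [TopologicalSpace X] {A : Set X}
    (hA : A.Countable) : SigmaDiscrete A := by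
  have := hA.to_subtype
  refine sigmaDiscrete_of_countable (ι := A) (fun a => {a.1}) ?_ ?_
  · intro x hx
    exact mem_iUnion.2 ⟨⟨x, hx⟩, rfl⟩
  · rintro i x rfl
    exact ⟨univ, isOpen_univ, mem_univ _, fun y hy _ => hy⟩

set_option linter.unusedSectionVars false

section Setup

variable {X Y : Type u} [TopologicalSpace X] [TopologicalSpace Y] [CompactSpace Y] [T2Space Y]
  (e : X → Y) (f : X × X × ℕ → C(Y, ℝ))

/-- agreement of all the functions with parameters in `B` -/
def Eqv (B : Set X) (y z : Y) : Prop :=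
  ∀ x ∈ B, ∀ v ∈ B, ∀ n : ℕ, f (x, v, n) y = f (x, v, n) z

/-- the `n`-th open neighbourhood of `B` -/
def On (B : Set X) (n : ℕ) : Set X :=
  {y | ∃ x ∈ B, 0 < f (x, x, n) (e y)}

theorem On_mono {B C : Set X} (h : B ⊆ C) (n : ℕ) : On e f B n ⊆ On e f C n := by
  rintro y ⟨x, hx, hy⟩
  exact ⟨x, h hx, hy⟩

theorem Eqv_mono {B C : Set X} (h : B ⊆ C) {y z : Y} (hyz : Eqv f C y z) : Eqv f B y z :=
  fun x hx v hv n => hyz x (h hx) v (h hv) n

theorem isOpen_On (he : Continuous e) (B : Set X) (n : ℕ) : IsOpen (On e f B n) := by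
  have : On e f B n = ⋃ x ∈ B, {y | 0 < f (x, x, n) (e y)} := by
    ext y
    simp [On]
  rw [this]
  refine isOpen_biUnion fun x _ => ?_
  exact isOpen_lt continuous_const ((f (x, x, n)).continuous.comp he)

/-- countable dense subsets with respect to finitely many parameters -/
theorem exists_dense (A : Set X) (F : Finset X) :
    ∃ D : Set X, D.Countable ∧ D ⊆ A ∧ ∀ y ∈ A, ∀ (I : Finset (X × X × ℕ)),
      (∀ p ∈ I, p.1 ∈ F ∧ p.2.1 ∈ F) → ∀ u : X × X × ℕ → Set ℝ,
      (∀ p ∈ I, IsOpen (u p) ∧ f p (e y) ∈ u p) → ∃ v ∈ D, ∀ p ∈ I, f p (e v) ∈ u p := by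
  classical
  let ι := {p : X × X × ℕ // p.1 ∈ F ∧ p.2.1 ∈ F}
  have hι : Countable ι := by
    have : Function.Injective (fun p : ι => ((⟨p.1.1, p.2.1⟩, ⟨p.1.2.1, p.2.2⟩, p.1.2.2) : F × F × ℕ)) := by
      rintro ⟨⟨a, b, c⟩, ha, hb⟩ ⟨⟨a', b', c'⟩, ha', hb'⟩ h
      simp only [Prod.mk.injEq, Subtype.mk.injEq] at h
      obtain ⟨rfl, rfl, rfl⟩ := h
      rfl
    exact this.countable
  let φ : X → (ι → ℝ) := fun y p => f p.1 (e y)
  -- a countable dense subset of the image
  obtain ⟨T, hTc, hTd⟩ := TopologicalSpace.exists_countable_dense (φ '' A)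
  -- choose preimages
  have hch : ∀ t : φ '' A, ∃ a ∈ A, φ a = t.1 := fun t => t.2
  choose g hgA hg using hch
  refine ⟨g '' T, hTc.image g, ?_, ?_⟩
  · rintro _ ⟨t, _, rfl⟩
    exact hgA t
  · intro y hy I hI u hu
    let U : Set (φ '' A) := {w | ∀ p : ι, p.1 ∈ I → w.1 p ∈ u p.1}
    have hU : IsOpen U := by
      have : U = ⋂ p ∈ {p : ι | p.1 ∈ I}, {w : φ '' A | w.1 p ∈ u p.1} := by
        ext w
        simp [U]
      rw [this]
      have hfin : {p : ι | p.1 ∈ I}.Finite := by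
        apply Set.Finite.of_finite_image (f := Subtype.val)
        · exact (I.finite_toSet).subset (by rintro _ ⟨p, hp, rfl⟩; exact hp)
        · exact Subtype.val_injective.injOn
      refine hfin.isOpen_biInter ?_
      intro p hp
      refine (hu p.1 hp).1.preimage ?_
      exact (continuous_apply p).comp continuous_subtype_val
    have hyU : (⟨φ y, ⟨y, hy, rfl⟩⟩ : φ '' A) ∈ U := by
      intro p hp
      exact (hu p.1 hp).2
    obtain ⟨t, htU, htT⟩ := hTd.inter_open_nonempty U hU ⟨_, hyU⟩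
    refine ⟨g t, ⟨t, htT, rfl⟩, ?_⟩
    intro p hp
    have h1 := htU ⟨p, hI p hp⟩ hp
    rw [← hg t] at h1
    exact h1

/-- the family of parameters with entries in `B` -/
abbrev Par (B : Set X) := {p : X × X × ℕ // p.1 ∈ B ∧ p.2.1 ∈ B}

/-- evaluation map -/
def ev (B : Set X) (y : Y) : Par B → ℝ := fun p => f p.1 y

theorem continuous_ev (B : Set X) : Continuous (ev f B) :=
  continuous_pi fun p => (f p.1).continuous

theorem ev_eq_iff (B : Set X) (y z : Y) : ev f B y = ev f B z ↔ Eqv f B y z := by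
  constructor
  · intro h x hx v hv n
    exact congrFun h ⟨(x, v, n), hx, hv⟩
  · intro h
    funext p
    exact h _ p.2.1 _ p.2.2 _

/-- The retraction lemma. -/
theorem retraction (he : IsEmbedding e) (G : ℕ → Set Y)
    (hrange : (⋂ n, G n) ⊆ range e)
    (hf2 : ∀ x n, ∀ z, z ∉ G n → f (x, x, n) z = 0)
    (B A : Set X) (hBcl : IsClosed B)
    (hdense : ∀ y ∈ A, ∀ (I : Finset (X × X × ℕ)),
      (∀ p ∈ I, p.1 ∈ B ∧ p.2.1 ∈ B) → ∀ u : X × X × ℕ → Set ℝ,
      (∀ p ∈ I, IsOpen (u p) ∧ f p (e y) ∈ u p) → ∃ v ∈ B, ∀ p ∈ I, f p (e v) ∈ u p)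
    (y : X) (hy : y ∈ A) (hyO : ∀ n, y ∈ On e f B n) :
    ∃ r ∈ B, Eqv f B (e r) (e y) := by
  classical
  have hK : IsCompact (closure (e '' B)) := isClosed_closure.isCompact
  have hKc : IsClosed (ev f B '' closure (e '' B)) := (hK.image (continuous_ev f B)).isClosed
  have h1 : ev f B (e y) ∈ closure (ev f B '' (e '' B)) := by
    rw [mem_closure_iff]
    intro U hU hyU
    rw [isOpen_pi_iff] at hU
    obtain ⟨I, u, hu, hIu⟩ := hU _ hyU
    let u' : X × X × ℕ → Set ℝ := fun p => if h : p.1 ∈ B ∧ p.2.1 ∈ B then u ⟨p, h⟩ else univ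
    obtain ⟨v, hvB, hv⟩ := hdense y hy (I.image Subtype.val) (by
      intro p hp
      obtain ⟨q, _, rfl⟩ := Finset.mem_image.1 hp
      exact q.2) u' (by
      intro p hp
      obtain ⟨q, hq, rfl⟩ := Finset.mem_image.1 hp
      have : u' q.1 = u q := by
        simp only [u']
        rw [dif_pos q.2]
      rw [this]
      exact hu q hq)
    refine ⟨ev f B (e v), hIu ?_, ⟨e v, ⟨v, hvB, rfl⟩, rfl⟩⟩
    intro q hq
    have h2 := hv q.1 (Finset.mem_image_of_mem _ hq)
    have : u' q.1 = u q := by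
      simp only [u']
      rw [dif_pos q.2]
    rw [this] at h2
    exact h2
  have h2 : ev f B (e y) ∈ ev f B '' closure (e '' B) := by
    refine closure_minimal ?_ hKc h1
    exact image_mono subset_closure
  obtain ⟨z, hz, hzy⟩ := h2
  rw [ev_eq_iff] at hzy
  have hzG : z ∈ ⋂ n, G n := by
    rw [mem_iInter]
    intro n
    by_contra hn
    obtain ⟨x, hx, hxy⟩ := hyO n
    have h3 := hzy x hx x hx n
    rw [hf2 x n z hn] at h3
    rw [← h3] at hxy
    exact lt_irrefl _ hxy
  obtain ⟨r, rfl⟩ := hrange hzG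
  have hr : r ∈ closure B := by
    rw [he.toIsInducing.closure_eq_preimage_closure_image]
    exact hz
  rw [hBcl.closure_eq] at hr
  exact ⟨r, hr, hzy⟩

/-- the separating open set -/
def W (Am Ap : Set X) : Set X :=
  {y | ∀ z ∈ closure (e '' Am), ¬ Eqv f Ap z (e y)}

theorem isOpen_W (he : Continuous e) (Am Ap : Set X) : IsOpen (W e f Am Ap) := by
  have hK : IsCompact (closure (e '' Am)) := isClosed_closure.isCompact
  have hKc : IsClosed (ev f Ap '' closure (e '' Am)) := (hK.image (continuous_ev f Ap)).isClosed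
  have : W e f Am Ap = (fun y => ev f Ap (e y)) ⁻¹' (ev f Ap '' closure (e '' Am))ᶜ := by
    ext y
    constructor
    · rintro hy ⟨z, hz, hzy⟩
      exact hy z hz ((ev_eq_iff f Ap z (e y)).1 hzy)
    · intro hy z hz hzy
      exact hy ⟨z, hz, (ev_eq_iff f Ap z (e y)).2 hzy⟩
  rw [this]
  exact hKc.isOpen_compl.preimage ((continuous_ev f Ap).comp he)

theorem mem_W (he : IsEmbedding e) (G : ℕ → Set Y)
    (hrange : (⋂ n, G n) ⊆ range e)
    (hf1 : ∀ x n, f (x, x, n) (e x) = 1)
    (hf2 : ∀ x n, ∀ z, z ∉ G n → f (x, x, n) z = 0)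
    (hf3 : ∀ x v, x ≠ v → f (x, v, 0) (e x) ≠ f (x, v, 0) (e v))
    (Am Ap : Set X) (hsub : Am ⊆ Ap) (hcl : IsClosed Am) (y : X) (hy : y ∈ Ap) (hy' : y ∉ Am) :
    y ∈ W e f Am Ap := by
  intro z hz hE
  by_cases hzG : ∀ n, z ∈ G n
  · obtain ⟨r, rfl⟩ := hrange (mem_iInter.2 hzG)
    have hr : r ∈ closure Am := by
      rw [he.toIsInducing.closure_eq_preimage_closure_image]
      exact hz
    rw [hcl.closure_eq] at hr
    have hne : y ≠ r := by
      rintro rfl
      exact hy' hr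
    exact hf3 y r hne (hE y hy r (hsub hr) 0).symm
  · push Not at hzG
    obtain ⟨n, hn⟩ := hzG
    have h3 := hE y hy y hy n
    rw [hf1, hf2 y n z hn] at h3
    exact zero_ne_one h3

/-- The inductive step. -/
theorem step_lemma (he : IsEmbedding e) (G : ℕ → Set Y)
    (hrange : (⋂ n, G n) ⊆ range e)
    (hf1 : ∀ x n, f (x, x, n) (e x) = 1)
    (hf2 : ∀ x n, ∀ z, z ∉ G n → f (x, x, n) z = 0)
    (hf3 : ∀ x v, x ≠ v → f (x, v, 0) (e x) ≠ f (x, v, 0) (e v))
    (A : Set X) (Φ : Finset X → Set X) (hΦA : ∀ F, Φ F ⊆ A)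
    (hΦcl : ∀ B ⊆ A, IsCl Φ B → IsClosed B)
    (hΦd : ∀ B ⊆ A, IsCl Φ B → ∀ y ∈ A, ∀ (I : Finset (X × X × ℕ)),
      (∀ p ∈ I, p.1 ∈ B ∧ p.2.1 ∈ B) → ∀ u : X × X × ℕ → Set ℝ,
      (∀ p ∈ I, IsOpen (u p) ∧ f p (e y) ∈ u p) → ∃ v ∈ B, ∀ p ∈ I, f p (e v) ∈ u p)
    {J : Type u} [LinearOrder J] [WellFoundedLT J] (a : J → X) (ha : range a = A)
    (hbot : (Cl Φ ∅).Countable)
    (IH : ∀ i, SigmaDiscrete (Cl Φ (a '' Iic i))) : SigmaDiscrete A := by
  classical
  rcases isEmpty_or_nonempty J with hJ | hJ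
  · have : A = ∅ := by
      rw [← ha]
      exact range_eq_empty a
    rw [this]
    exact sigmaDiscrete_countable_set countable_empty
  -- the two families
  set Am : J → Set X := fun i => Cl Φ (a '' Iio i) with hAm
  set Ap : J → Set X := fun i => Cl Φ (a '' Iic i) with hAp
  have hAcl : IsCl Φ A := fun F _ => hΦA F
  have hsubA : ∀ S : Set J, Cl Φ (a '' S) ⊆ A := fun S =>
    Cl_min ((image_subset_range a S).trans ha.subset) hAcl
  have hlt : ∀ i j, i < j → Ap i ⊆ Am j := fun i j hij =>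
    Cl_mono (image_mono fun k hk => lt_of_le_of_lt hk hij)
  have hAmAp : ∀ i, Am i ⊆ Ap i := fun i => Cl_mono (image_mono fun k hk => le_of_lt hk)
  have hApmono : ∀ i j, i ≤ j → Ap i ⊆ Ap j := fun i j hij =>
    Cl_mono (image_mono fun k hk => le_trans hk hij)
  have hmem : ∀ i, a i ∈ Ap i := fun i => subset_Cl _ ⟨i, le_refl i, rfl⟩
  have hbotsub : ∀ S : Set X, Cl Φ ∅ ⊆ Cl Φ S := fun S => Cl_mono (empty_subset S)
  -- limits
  have hlim : ∀ i, ∀ y ∈ Am i, y ∈ Cl Φ ∅ ∨ ∃ j, j < i ∧ y ∈ Ap j := by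
    intro i y hy
    rcases isEmpty_or_nonempty (Iio i) with hI | hI
    · left
      have : a '' Iio i = ∅ := by
        rw [image_eq_empty]
        exact isEmpty_coe_sort.1 hI
      rw [hAm] at hy
      simp only [this] at hy
      exact hy
    · right
      have h1 : a '' Iio i = ⋃ j : Iio i, a '' Iic j.1 := by
        ext x
        simp only [mem_image, mem_iUnion]
        constructor
        · rintro ⟨k, hk, rfl⟩
          exact ⟨⟨k, hk⟩, k, le_refl k, rfl⟩
        · rintro ⟨j, k, hk, rfl⟩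
          exact ⟨k, lt_of_le_of_lt hk j.2, rfl⟩
      have hdir : Directed (· ⊆ ·) (fun j : Iio i => a '' Iic j.1) := by
        intro j k
        rcases le_total j.1 k.1 with h | h
        · exact ⟨k, image_mono fun l hl => le_trans hl h, Subset.refl _⟩
        · exact ⟨j, Subset.refl _, image_mono fun l hl => le_trans hl h⟩
      have h2 : y ∈ Cl Φ (a '' Iio i) := hy
      rw [h1, Cl_iUnion _ hdir] at h2
      obtain ⟨j, hj⟩ := mem_iUnion.1 h2
      exact ⟨j.1, j.2, hj⟩
  -- the rank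
  have hβ0 : ∀ y : X, ∃ i : J, (y ∈ A → y ∉ Cl Φ ∅ → y ∈ Ap i ∧ y ∉ Am i) := by
    intro y
    by_cases hyA : y ∈ A
    · by_cases hy0 : y ∈ Cl Φ ∅
      · exact ⟨Classical.arbitrary J, fun _ h => absurd hy0 h⟩
      · have hne : {i | y ∈ Ap i}.Nonempty := by
          rw [← ha] at hyA
          obtain ⟨i, rfl⟩ := hyA
          exact ⟨i, hmem i⟩
        refine ⟨wellFounded_lt.min _ hne, fun _ _ => ⟨wellFounded_lt.min_mem _ hne, ?_⟩⟩
        intro hcon
        rcases hlim _ y hcon with h | ⟨j, hj, hyj⟩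
        · exact hy0 h
        · exact wellFounded_lt.not_lt_min {i | y ∈ Ap i} hyj hj
    · exact ⟨Classical.arbitrary J, fun h => absurd h hyA⟩
  choose β hβ using hβ0
  choose E hE1 hE2 using IH
  -- claim 1
  have claim1 : ∀ y ∈ A, ∃ n, ∀ i, y ∈ On e f (Ap i) n → ∀ m, y ∈ On e f (Ap i) m := by
    intro y hyA
    by_contra hcon
    push Not at hcon
    choose i hi m hm using hcon
    have hne : {i | ∀ m, y ∈ On e f (Ap i) m}.Nonempty := by
      have hyA' := hyA
      rw [← ha] at hyA'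
      obtain ⟨i, rfl⟩ := hyA'
      refine ⟨i, fun m => ⟨a i, hmem i, ?_⟩⟩
      rw [hf1]
      exact one_pos
    set i0 := wellFounded_lt.min _ hne with hi0
    have hi0mem : ∀ m, y ∈ On e f (Ap i0) m := wellFounded_lt.min_mem _ hne
    have hlt0 : ∀ n, i n < i0 := by
      intro n
      by_contra hle
      rw [not_lt] at hle
      exact hm n (On_mono e f (hApmono _ _ hle) _ (hi0mem _))
    have hO : ∀ n, y ∈ On e f (Am i0) n := fun n =>
      On_mono e f (hlt _ _ (hlt0 n)) n (hi n)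
    have hsub : Am i0 ⊆ A := hsubA _
    have hcl : IsCl Φ (Am i0) := isCl_Cl _
    obtain ⟨r, hr, hre⟩ := retraction e f he G hrange hf2 (Am i0) A (hΦcl _ hsub hcl)
      (hΦd _ hsub hcl) y hyA hO
    have hb : ∃ b, b < i0 ∧ r ∈ Ap b := by
      rcases hlim _ r hr with h | h
      · exact ⟨i 0, hlt0 0, hbotsub _ h⟩
      · exact h
    obtain ⟨b, hb, hrb⟩ := hb
    refine wellFounded_lt.not_lt_min {i | ∀ m, y ∈ On e f (Ap i) m} ?_ hb
    intro m
    refine ⟨r, hrb, ?_⟩
    rw [← hre r hr r hr m, hf1]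
    exact one_pos
  -- claim 3
  have claim3 : ∀ y ∈ A, ∀ n, (∀ i, y ∈ On e f (Ap i) n → ∀ m, y ∈ On e f (Ap i) m) →
      {i | y ∈ W e f (Am i) (Ap i) ∧ y ∈ On e f (Ap i) n}.Finite := by
    intro y hyA n hn
    by_contra hinf
    have hinf : {i | y ∈ W e f (Am i) (Ap i) ∧ y ∈ On e f (Ap i) n}.Infinite := hinf
    obtain ⟨g, hg⟩ : ∃ g : ℕ → J, StrictMono g ∧
        ∀ k, g k ∈ {i | y ∈ W e f (Am i) (Ap i) ∧ y ∈ On e f (Ap i) n} := by
      set φ := Set.Infinite.natEmbedding _ hinf with hφ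
      obtain ⟨s, hs⟩ := exists_increasing_or_nonincreasing_subseq (· < ·)
        (fun k => (φ k : J))
      rcases hs with hs | hs
      · exact ⟨fun k => (φ (s k) : J), fun k l hkl => hs k l hkl,
          fun k => (φ (s k)).2⟩
      · exfalso
        have hdec : ∀ k l : ℕ, k < l →
            (φ (s l) : J) < (φ (s k) : J) := by
          intro k l hkl
          refine lt_of_le_of_ne (not_lt.1 (hs k l hkl)) ?_
          intro heq
          have h1 := Subtype.ext heq
          have h2 := φ.injective h1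
          exact absurd (s.injective h2) (ne_of_gt hkl)
        have hwf : WellFounded ((· < ·) : J → J → Prop) := wellFounded_lt
        rw [RelEmbedding.wellFounded_iff_isEmpty] at hwf
        refine hwf.false ?_
        exact RelEmbedding.natGT (fun k => (φ (s k) : J))
          (fun k => hdec k (k+1) (Nat.lt_succ_self k))
    obtain ⟨hgm, hgJ⟩ := hg
    set B : Set X := ⋃ k, Ap (g k) with hB
    have hdir : Directed (· ⊆ ·) (fun k => Ap (g k)) := by
      intro k l
      rcases le_total k l with h | h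
      · exact ⟨l, hApmono _ _ (hgm.monotone h), Subset.refl _⟩
      · exact ⟨k, Subset.refl _, hApmono _ _ (hgm.monotone h)⟩
    have hBcl : IsCl Φ B := isCl_iUnion _ hdir fun k => isCl_Cl _
    have hBA : B ⊆ A := iUnion_subset fun k => hsubA _
    have hO : ∀ m, y ∈ On e f B m := by
      intro m
      exact On_mono e f (subset_iUnion (fun k => Ap (g k)) 0) m (hn _ (hgJ 0).2 m)
    obtain ⟨r, hr, hre⟩ := retraction e f he G hrange hf2 B A (hΦcl _ hBA hBcl)
      (hΦd _ hBA hBcl) y hyA hO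
    obtain ⟨k, hk⟩ := mem_iUnion.1 hr
    have h1 : r ∈ Am (g (k+1)) := hlt _ _ (hgm (Nat.lt_succ_self k)) hk
    refine (hgJ (k+1)).1 (e r) (subset_closure ⟨r, h1, rfl⟩) ?_
    exact Eqv_mono f (subset_iUnion (fun k => Ap (g k)) (k+1)) hre
  -- the classes
  let Jn : ℕ → X → Set J := fun n y => {i | y ∈ W e f (Am i) (Ap i) ∧ y ∈ On e f (Ap i) n}
  have hβJ : ∀ n y, y ∈ A → y ∉ Cl Φ ∅ → β y ∈ Jn n y := by
    intro n y hyA hy0
    obtain ⟨h1, h2⟩ := hβ y hyA hy0
    refine ⟨?_, ?_⟩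
    · exact mem_W e f he G hrange hf1 hf2 hf3 _ _ (hAmAp _) (hΦcl _ (hsubA _) (isCl_Cl _)) y h1 h2
    · refine ⟨y, h1, ?_⟩
      rw [hf1]
      exact one_pos
  have := hbot.to_subtype
  refine sigmaDiscrete_of_countable (ι := (ℕ × ℕ × ℕ × ℕ) ⊕ (Cl Φ ∅))
    (fun c => Sum.elim (fun c => {y | y ∈ A ∧ y ∉ Cl Φ ∅ ∧
      (∀ i, y ∈ On e f (Ap i) c.1 → ∀ m, y ∈ On e f (Ap i) m) ∧ y ∈ E (β y) c.2.1 ∧
      (Jn c.1 y).ncard = c.2.2.1 ∧ (Jn c.1 y ∩ Iio (β y)).ncard = c.2.2.2})
      (fun x => {x.1}) c) ?_ ?_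
  · intro y hyA
    by_cases hy0 : y ∈ Cl Φ ∅
    · exact mem_iUnion.2 ⟨Sum.inr ⟨y, hy0⟩, rfl⟩
    · obtain ⟨n, hn⟩ := claim1 y hyA
      obtain ⟨j, hj⟩ := mem_iUnion.1 (hE1 (β y) (hβ y hyA hy0).1)
      exact mem_iUnion.2 ⟨Sum.inl (n, j, (Jn n y).ncard, (Jn n y ∩ Iio (β y)).ncard),
        hyA, hy0, hn, hj, rfl, rfl⟩
  · rintro (⟨n, j, N, s⟩ | x) y hy
    · obtain ⟨hyA, hy0, hyn, hyE, hyN, hys⟩ := hy
      simp only at hyn hyE hyN hys
      have hfin : (Jn n y).Finite := claim3 y hyA n hyn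
      obtain ⟨Q, hQ, hQE⟩ := hE2 (β y) j y hyE
      have hyQ : y ∈ Q := by
        have : y ∈ Q ∩ E (β y) j := by
          rw [hQE]
          rfl
        exact this.1
      refine ⟨Q ∩ ⋂ i ∈ Jn n y, (W e f (Am i) (Ap i) ∩ On e f (Ap i) n), ?_, ?_, ?_⟩
      · refine hQ.inter (hfin.isOpen_biInter fun i _ => ?_)
        exact (isOpen_W e f he.continuous _ _).inter (isOpen_On e f he.continuous _ _)
      · refine ⟨hyQ, ?_⟩
        rw [mem_iInter₂]
        intro i hi
        exact hi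
      · rintro y' ⟨hyA', hy0', hyn', hyE', hyN', hys'⟩ ⟨hQ', hI'⟩
        simp only at hyn' hyE' hyN' hys'
        rw [mem_iInter₂] at hI'
        have hsub : Jn n y ⊆ Jn n y' := fun i hi => hI' i hi
        have hfin' : (Jn n y').Finite := claim3 y' hyA' n hyn'
        have hJeq : Jn n y = Jn n y' :=
          Set.eq_of_subset_of_ncard_le hsub (by rw [hyN, hyN']) hfin'
        have hββ : β y = β y' := by
          rcases lt_trichotomy (β y) (β y') with h | h | h
          · exfalso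
            have hlt' : (Jn n y ∩ Iio (β y)).ncard < (Jn n y' ∩ Iio (β y')).ncard := by
              apply Set.ncard_lt_ncard _ (hfin'.inter_of_left _)
              rw [hJeq]
              refine ⟨fun i hi => ⟨hi.1, lt_trans hi.2 h⟩, ?_⟩
              intro hcon
              have := hcon (show β y ∈ Jn n y' ∩ Iio (β y') from
                ⟨hJeq ▸ hβJ n y hyA hy0, h⟩)
              exact lt_irrefl _ this.2
            rw [hys, hys'] at hlt'
            exact lt_irrefl _ hlt'
          · exact h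
          · exfalso
            have hlt' : (Jn n y' ∩ Iio (β y')).ncard < (Jn n y ∩ Iio (β y)).ncard := by
              apply Set.ncard_lt_ncard _ (hfin.inter_of_left _)
              rw [← hJeq]
              refine ⟨fun i hi => ⟨hi.1, lt_trans hi.2 h⟩, ?_⟩
              intro hcon
              have := hcon (show β y' ∈ Jn n y ∩ Iio (β y) from
                ⟨hJeq.symm ▸ hβJ n y' hyA' hy0', h⟩)
              exact lt_irrefl _ this.2
            rw [hys, hys'] at hlt'
            exact lt_irrefl _ hlt'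
        rw [← hββ] at hyE'
        have : y' ∈ Q ∩ E (β y) j := ⟨hQ', hyE'⟩
        rw [hQE] at this
        exact this
    · refine ⟨univ, isOpen_univ, mem_univ _, ?_⟩
      intro y' hy' _
      simp only [Sum.elim_inr, mem_singleton_iff] at hy hy'
      rw [hy, hy']

end Setup

/-- A Cech-complete space whose closures are finitely generated (by countable-valued maps)
has all its closed subsets sigma-discrete. -/
theorem closed_sigmaDiscrete {X Y : Type u} [TopologicalSpace X] [TopologicalSpace Y]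
    [CompactSpace Y] [T2Space Y]
    (e : X → Y) (he : IsEmbedding e) (G : ℕ → Set Y) (hG : ∀ n, IsOpen (G n))
    (hrange : (⋂ n, G n) = range e)
    (H : Finset X → Set X) (hHc : ∀ F, (H F).Countable)
    (hH : ∀ B : Set X, ∀ z ∈ closure B, ∃ F : Finset X, (F : Set X) ⊆ B ∧ z ∈ H F)
    (A : Set X) (hA : IsClosed A) : SigmaDiscrete A := by
  classical
  -- the functions
  have hf : ∀ p : X × X × ℕ, ∃ f : C(Y, ℝ),
      (p.1 = p.2.1 → f (e p.1) = 1 ∧ ∀ z, z ∉ G p.2.2 → f z = 0) ∧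
      (p.1 ≠ p.2.1 → f (e p.1) ≠ f (e p.2.1)) := by
    rintro ⟨x, v, n⟩
    by_cases hxv : x = v
    · subst hxv
      have hd : Disjoint (G n)ᶜ {e x} := by
        rw [disjoint_singleton_right]
        intro h
        apply h
        have : e x ∈ ⋂ n, G n := by
          rw [hrange]
          exact mem_range_self x
        exact mem_iInter.1 this n
      obtain ⟨f, h0, h1, -⟩ := exists_continuous_zero_one_of_isClosed
        (hG n).isClosed_compl (isClosed_singleton (x := e x)) hd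
      refine ⟨f, fun _ => ⟨h1 rfl, fun z hz => h0 hz⟩, fun h => absurd rfl h⟩
    · have hne : e x ≠ e v := fun h => hxv (he.injective h)
      have hd : Disjoint ({e x} : Set Y) ({e v} : Set Y) := by
        rw [disjoint_singleton]
        exact hne
      obtain ⟨f, h0, h1, -⟩ := exists_continuous_zero_one_of_isClosed
        (isClosed_singleton (x := e x)) (isClosed_singleton (x := e v)) hd
      refine ⟨f, fun h => absurd h hxv, fun _ => ?_⟩
      have h0' : f (e x) = 0 := h0 rfl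
      have h1' : f (e v) = 1 := h1 rfl
      simp only
      rw [h0', h1']
      exact zero_ne_one
  choose f hfa hfb using hf
  have hf1 : ∀ x n, f (x, x, n) (e x) = 1 := fun x n => (hfa (x, x, n) rfl).1
  have hf2 : ∀ x n, ∀ z, z ∉ G n → f (x, x, n) z = 0 := fun x n => (hfa (x, x, n) rfl).2
  have hf3 : ∀ x v, x ≠ v → f (x, v, 0) (e x) ≠ f (x, v, 0) (e v) := fun x v h =>
    hfb (x, v, 0) h
  suffices h : ∀ κ : Cardinal.{u}, ∀ A : Set X, IsClosed A → #A = κ → SigmaDiscrete A from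
    h _ A hA rfl
  clear hA A
  intro κ
  induction κ using WellFoundedLT.induction with
  | ind κ ih =>
    intro A hA hAκ
    by_cases hc : κ ≤ ℵ₀
    · apply sigmaDiscrete_countable_set
      rw [← Cardinal.le_aleph0_iff_set_countable, hAκ]
      exact hc
    rw [not_le] at hc
    have hdn := fun F : Finset X => exists_dense e f A F
    choose D hDc hDA hD using hdn
    set Φ : Finset X → Set X := fun F => (H F ∩ A) ∪ D F with hΦ
    have hΦc : ∀ F, (Φ F).Countable := fun F =>
      ((hHc F).mono inter_subset_left).union (hDc F)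
    have hΦA : ∀ F, Φ F ⊆ A := fun F => union_subset inter_subset_right (hDA F)
    have hΦcl : ∀ B ⊆ A, IsCl Φ B → IsClosed B := by
      intro B hBA hB
      apply isClosed_of_closure_subset
      intro z hz
      have hzA : z ∈ A := closure_minimal hBA hA hz
      obtain ⟨F, hF, hzF⟩ := hH B z hz
      exact hB F hF (Or.inl ⟨hzF, hzA⟩)
    obtain ⟨g⟩ : Nonempty (κ.ord.ToType ≃ A) := by
      rw [← Cardinal.eq, Cardinal.mk_ord_toType, hAκ]
    have hbound : ∀ i : κ.ord.ToType,
        #(Cl Φ ((fun i => (g i).1) '' Iic i)) < κ := by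
      intro i
      refine (mk_Cl_le hΦc _).trans_lt ?_
      refine max_lt ?_ hc
      refine Cardinal.mk_image_le.trans_lt ?_
      have h1 : Iic i = insert i (Iio i) := Iio_insert.symm
      rw [h1]
      refine (Cardinal.mk_insert_le).trans_lt ?_
      exact Cardinal.add_lt_of_lt hc.le (Cardinal.mk_Iio_toType_ord_lt i)
        (Cardinal.one_lt_aleph0.trans hc)
    refine step_lemma e f he G hrange.subset hf1 hf2 hf3 A Φ hΦA hΦcl ?_
      (J := κ.ord.ToType) (fun i => (g i).1) ?_ ?_ ?_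
    · intro B hBA hB y hyA I hI u hu
      let F : Finset X := I.image Prod.fst ∪ I.image (fun p => p.2.1)
      have hFB : (F : Set X) ⊆ B := by
        intro x hx
        rw [Finset.mem_coe, Finset.mem_union, Finset.mem_image, Finset.mem_image] at hx
        rcases hx with ⟨p, hp, rfl⟩ | ⟨p, hp, rfl⟩
        · exact (hI p hp).1
        · exact (hI p hp).2
      obtain ⟨v, hv, hvu⟩ := hD F y hyA I (fun p hp =>
        ⟨Finset.mem_union_left _ (Finset.mem_image_of_mem _ hp),
          Finset.mem_union_right _ (Finset.mem_image_of_mem (fun p => p.2.1) hp)⟩) u hu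
      exact ⟨v, hB F hFB (Or.inr hv), hvu⟩
    · ext x
      constructor
      · rintro ⟨i, rfl⟩
        exact (g i).2
      · intro hx
        exact ⟨g.symm ⟨x, hx⟩, by simp⟩
    · rw [← Cardinal.le_aleph0_iff_set_countable]
      refine (mk_Cl_le hΦc _).trans ?_
      simp
    · intro i
      refine ih _ (hbound i) _ ?_ rfl
      refine hΦcl _ ?_ (isCl_Cl _)
      refine Cl_min ?_ (fun F _ => hΦA F)
      rintro _ ⟨j, _, rfl⟩
      exact (g j).2

end Pool.Agent.H27.SigmaDisc
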