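import Mathlib

set_option autoImplicit false

/-!
Separately continuous functions on `X × C_p(Y, {0,1})`: local constancy of certificates.
-/

namespace Pool.Agent.H27.TEmb

open Set Topology

section Basic

variable {X Y : Type*} [TopologicalSpace X] [TopologicalSpace Y]

/-- separately continuous functions on `X × C_p(Y, {0,1})` -/
structure SepCont (Φ : X → (Y → Bool) → ℝ) : Prop where
  contX : ∀ g, Continuous g → Continuous fun x => Φ x g
  above : ∀ x g, Continuous g → ∀ c, c < Φ x g →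
    ∃ H : Finset Y, ∀ g', Continuous g' → (∀ y ∈ H, g' y = g y) → c < Φ x g'
  below : ∀ x g, Continuous g → ∀ c, Φ x g < c →
    ∃ H : Finset Y, ∀ g', Continuous g' → (∀ y ∈ H, g' y = g y) → Φ x g' < c

theorem SepCont.neg {Φ : X → (Y → Bool) → ℝ} (h : SepCont Φ) : SepCont (fun x g => - Φ x g) := by
  refine ⟨fun g hg => (h.contX g hg).neg, ?_, ?_⟩
  · intro x g hg c hc
    obtain ⟨H, hH⟩ := h.below x g hg (-c) (by linarith)
    exact ⟨H, fun g' hg' h' => by have := hH g' hg' h'; linarith⟩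
  · intro x g hg c hc
    obtain ⟨H, hH⟩ := h.above x g hg (-c) (by linarith)
    exact ⟨H, fun g' hg' h' => by have := hH g' hg' h'; linarith⟩

open Classical in
theorem cont_ite {C : Set Y} (hC : IsClopen C) {g1 g2 : Y → Bool} (h1 : Continuous g1)
    (h2 : Continuous g2) : Continuous (fun z => if z ∈ C then g1 z else g2 z) := by
  have := Continuous.piecewise (s := C) (f := g1) (g := g2)
    (by rw [hC.frontier_eq]; intro a ha; exact absurd ha (notMem_empty a)) h1 h2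
  exact this

theorem exists_ite {C : Set Y} (hC : IsClopen C) {g1 g2 : Y → Bool} (h1 : Continuous g1)
    (h2 : Continuous g2) :
    ∃ g : Y → Bool, Continuous g ∧ (∀ z ∈ C, g z = g1 z) ∧ ∀ z, z ∉ C → g z = g2 z := by
  classical
  exact ⟨_, cont_ite hC h1 h2, fun z hz => if_pos hz, fun z hz => if_neg hz⟩

open Classical in
/-- interpolation on finite sets -/
theorem interp [CompactSpace Y] [T2Space Y] [TotallyDisconnectedSpace Y] (K : Finset Y)
    (ρ : Y → Bool) : ∃ g : Y → Bool, Continuous g ∧ ∀ y ∈ K, g y = ρ y := by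
  induction K using Finset.induction_on with
  | empty => exact ⟨fun _ => false, continuous_const, fun y hy => absurd hy (Finset.notMem_empty y)⟩
  | insert a K ha ih =>
    obtain ⟨g, hg, hgK⟩ := ih
    obtain ⟨C, hC, haC, hCK⟩ := compact_exists_isClopen_in_isOpen
      (x := a) (U := (↑K : Set Y)ᶜ) K.finite_toSet.isClosed.isOpen_compl (by simpa using ha)
    refine ⟨fun z => if z ∈ C then ρ a else g z, cont_ite hC continuous_const hg, ?_⟩
    intro y hy
    rw [Finset.mem_insert] at hy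
    rcases hy with rfl | hy
    · simp [haC]
    · have : y ∉ C := fun h => hCK h (by simpa using hy)
      simp [this, hgK y hy]

/-- a set `K` of points is a certificate for `Φ x ≤ c` at `f` -/
def Cert (Φ : X → (Y → Bool) → ℝ) (f : Y → Bool) (c : ℝ) (x : X) (K : Set Y) : Prop :=
  ∀ g, Continuous g → (∀ y ∈ K, g y = f y) → Φ x g ≤ c

omit [TopologicalSpace X] in
theorem Cert.mono {Φ : X → (Y → Bool) → ℝ} {f : Y → Bool} {c : ℝ} {x : X} {K K' : Set Y}
    (h : Cert Φ f c x K) (hK : K ⊆ K') : Cert Φ f c x K' :=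
  fun g hg h' => h g hg fun y hy => h' y (hK hy)

/-- the graph of certificates -/
def Gr (Φ : X → (Y → Bool) → ℝ) (f : Y → Bool) (c : ℝ) (n : ℕ) : Set (X × (Fin n → Y)) :=
  {p | Cert Φ f c p.1 (range p.2)}

theorem isClosed_Gr {Φ : X → (Y → Bool) → ℝ} (hΦ : SepCont Φ) {f : Y → Bool} (hf : Continuous f)
    (c : ℝ) (n : ℕ) : IsClosed (Gr Φ f c n) := by
  have : Gr Φ f c n = ⋂ g : {g : Y → Bool // Continuous g},
      {p : X × (Fin n → Y) | (∀ i, g.1 (p.2 i) = f (p.2 i)) → Φ p.1 g.1 ≤ c} := by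
    ext p
    simp only [Gr, Cert, mem_ofPred_eq, mem_iInter, Subtype.forall, forall_mem_range]
  rw [this]
  refine isClosed_iInter fun g => ?_
  have h1 : {p : X × (Fin n → Y) | (∀ i, g.1 (p.2 i) = f (p.2 i)) → Φ p.1 g.1 ≤ c} =
      ({p : X × (Fin n → Y) | (∀ i, g.1 (p.2 i) = f (p.2 i))} ∩ {p | c < Φ p.1 g.1})ᶜ := by
    ext p
    simp only [mem_ofPred_eq, mem_compl_iff, mem_inter_iff, not_and, not_lt]
  rw [h1]
  refine IsOpen.isClosed_compl (IsOpen.inter ?_ ?_)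
  · rw [ofPred_forall]
    refine isOpen_iInter_of_finite fun i => ?_
    have h2 : Continuous fun p : X × (Fin n → Y) => (g.1 (p.2 i), f (p.2 i)) :=
      (g.2.comp ((continuous_apply i).comp continuous_snd)).prodMk
        (hf.comp ((continuous_apply i).comp continuous_snd))
    exact (isOpen_discrete {q : Bool × Bool | q.1 = q.2}).preimage h2
  · exact isOpen_lt continuous_const ((hΦ.contX g.1 g.2).comp continuous_fst)

/-- points with a certificate with at most `n` elements -/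
def XS (Φ : X → (Y → Bool) → ℝ) (f : Y → Bool) (c : ℝ) (n : ℕ) : Set X :=
  {x | ∃ K : Finset Y, K.card ≤ n ∧ Cert Φ f c x (K : Set Y)}

open Classical in
theorem isClosed_XS [CompactSpace Y] {Φ : X → (Y → Bool) → ℝ} (hΦ : SepCont Φ) {f : Y → Bool}
    (hf : Continuous f) (c : ℝ) (n : ℕ) : IsClosed (XS Φ f c n) := by
  have : XS Φ f c n = ⋃ m ∈ Finset.range (n + 1), Prod.fst '' (Gr Φ f c m) := by
    ext x
    simp only [XS, mem_ofPred_eq, mem_iUnion, Finset.mem_range, exists_prop, mem_image,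
      Prod.exists, exists_and_right, exists_eq_right]
    constructor
    · rintro ⟨K, hK, hc⟩
      refine ⟨K.card, by omega, fun i => (K.equivFin.symm i).1, ?_⟩
      show Cert Φ f c x (range fun i => (K.equivFin.symm i).1)
      have : (range fun i => ((K.equivFin.symm i).1 : Y)) = (K : Set Y) := by
        ext y
        simp only [mem_range, Finset.mem_coe]
        constructor
        · rintro ⟨i, rfl⟩
          exact (K.equivFin.symm i).2
        · intro hy
          exact ⟨K.equivFin ⟨y, hy⟩, by simp⟩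
      rw [this]
      exact hc
    · rintro ⟨m, hm, F, hF⟩
      refine ⟨Finset.univ.image F, ?_, ?_⟩
      · have := Finset.card_image_le (s := (Finset.univ : Finset (Fin m))) (f := F)
        rw [Finset.card_univ, Fintype.card_fin] at this
        omega
      · have h1 : Cert Φ f c x (range F) := hF
        rwa [Finset.coe_image, Finset.coe_univ, image_univ]
  rw [this]
  refine (Finset.finite_toSet _).isClosed_biUnion fun m _ => ?_
  exact isClosedMap_fst_of_compactSpace _ (isClosed_Gr hΦ hf c m)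

theorem baire_step [CompactSpace X] [T2Space X] [CompactSpace Y] {Φ : X → (Y → Bool) → ℝ}
    (hΦ : SepCont Φ) {f : Y → Bool} (hf : Continuous f) (c : ℝ) {V0 : Set X} (hV0 : IsOpen V0)
    (hne : V0.Nonempty) (hlt : ∀ x ∈ V0, Φ x f < c) :
    ∃ n, ∃ V ⊆ V0, IsOpen V ∧ V.Nonempty ∧ V ⊆ XS Φ f c n ∧
      ∀ x ∈ V, ∀ K : Finset Y, Cert Φ f c x (K : Set Y) → n ≤ K.card := by
  classical
  have h1 : ∃ n, ∃ V ⊆ V0, IsOpen V ∧ V.Nonempty ∧ V ⊆ XS Φ f c n := by
    have hcov : (⋃ n, (XS Φ f c n ∪ V0ᶜ)) = univ := by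
      rw [eq_univ_iff_forall]
      intro x
      rw [mem_iUnion]
      by_cases hx : x ∈ V0
      · obtain ⟨H, hH⟩ := hΦ.below x f hf c (hlt x hx)
        exact ⟨H.card, Or.inl ⟨H, le_rfl, fun g hg h => (hH g hg h).le⟩⟩
      · exact ⟨0, Or.inr hx⟩
    have hd := dense_iUnion_interior_of_closed
      (fun n => (isClosed_XS hΦ hf c n).union hV0.isClosed_compl) hcov
    obtain ⟨x, hx0, hx⟩ := hd.inter_open_nonempty V0 hV0 hne
    obtain ⟨n, hn⟩ := mem_iUnion.1 hx
    refine ⟨n, V0 ∩ interior (XS Φ f c n ∪ V0ᶜ), inter_subset_left,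
      hV0.inter isOpen_interior, ⟨x, hx0, hn⟩, ?_⟩
    rintro z ⟨hz0, hz⟩
    rcases interior_subset hz with h | h
    · exact h
    · exact absurd hz0 h
  obtain ⟨V, hVV0, hVo, hVne, hVX⟩ := Nat.find_spec h1
  have hmin : ∀ m, m < Nat.find h1 → ¬ ∃ V ⊆ V0, IsOpen V ∧ V.Nonempty ∧ V ⊆ XS Φ f c m :=
    fun m hm => Nat.find_min h1 hm
  generalize Nat.find h1 = n at hVX hmin
  rcases Nat.eq_zero_or_pos n with rfl | hn
  · exact ⟨0, V, hVV0, hVo, hVne, hVX, fun _ _ _ _ => Nat.zero_le _⟩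
  · refine ⟨n, V \ XS Φ f c (n - 1), sdiff_subset.trans hVV0,
      hVo.sdiff (isClosed_XS hΦ hf c _), ?_, sdiff_subset.trans hVX, ?_⟩
    · by_contra hemp
      rw [not_nonempty_iff_eq_empty, sdiff_eq_empty] at hemp
      exact hmin (n - 1) (by omega) ⟨V, hVV0, hVo, hVne, hemp⟩
    · rintro x ⟨_, hx⟩ K hK
      by_contra hlt'
      exact hx ⟨K, by omega, hK⟩

end Basic

/-- minimal usco maps -/
theorem exists_min_usco {X Z : Type*} [TopologicalSpace X] [TopologicalSpace Z] [CompactSpace Z]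
    {G : Set (X × Z)} (hG : IsClosed G) {V : Set X} (hV : IsOpen V)
    (hVG : ∀ x ∈ V, ∃ F, (x, F) ∈ G) :
    ∃ Γ ⊆ G, IsClosed Γ ∧ (∀ x ∈ V, ∃ F, (x, F) ∈ Γ) ∧
      ∀ x1 ∈ V, ∀ F, (x1, F) ∈ Γ → ∀ O, IsOpen O → x1 ∈ O → ∀ P, IsOpen P → F ∈ P →
        ∃ O' ⊆ O ∩ V, IsOpen O' ∧ O'.Nonempty ∧ ∀ x ∈ O', ∀ F', (x, F') ∈ Γ → F' ∈ P := by
  obtain ⟨Γ, hΓG, hΓ⟩ := zorn_superset_nonempty
    {Γ : Set (X × Z) | IsClosed Γ ∧ Γ ⊆ G ∧ ∀ x ∈ V, ∃ F, (x, F) ∈ Γ}
    (by
      intro C hC hchain hne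
      refine ⟨⋂₀ C, ⟨isClosed_sInter fun s hs => (hC hs).1, ?_, ?_⟩, fun s hs => sInter_subset_of_mem hs⟩
      · obtain ⟨s, hs⟩ := hne
        exact (sInter_subset_of_mem hs).trans (hC hs).2.1
      · intro x hx
        have h1 : (⋂₀ ((fun s => (fun F : Z => (x, F)) ⁻¹' s) '' C)).Nonempty := by
          have : Nonempty ((fun s => (fun F : Z => (x, F)) ⁻¹' s) '' C) := (hne.image _).to_subtype
          apply IsCompact.nonempty_sInter_of_directed_nonempty_isCompact_isClosed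
          · rintro _ ⟨s, hs, rfl⟩ _ ⟨t, ht, rfl⟩
            rcases hchain.total hs ht with h | h
            · exact ⟨_, ⟨s, hs, rfl⟩, Subset.rfl, preimage_mono h⟩
            · exact ⟨_, ⟨t, ht, rfl⟩, preimage_mono h, Subset.rfl⟩
          · rintro _ ⟨s, hs, rfl⟩
            obtain ⟨F, hF⟩ := (hC hs).2.2 x hx
            exact ⟨F, hF⟩
          · rintro _ ⟨s, hs, rfl⟩
            exact ((hC hs).1.preimage (by fun_prop)).isCompact
          · rintro _ ⟨s, hs, rfl⟩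
            exact (hC hs).1.preimage (by fun_prop)
        obtain ⟨F, hF⟩ := h1
        refine ⟨F, ?_⟩
        rw [mem_sInter] at hF ⊢
        intro s hs
        exact hF _ ⟨s, hs, rfl⟩)
    G ⟨hG, Subset.rfl, hVG⟩
  obtain ⟨hΓc, _, hΓV⟩ := hΓ.prop
  refine ⟨Γ, hΓG, hΓc, hΓV, ?_⟩
  intro x1 hx1 F hF O hO hx1O P hP hFP
  have hOV : IsOpen (O ∩ V) := hO.inter hV
  set Γ' := Γ \ ((O ∩ V) ×ˢ P) with hΓ'
  have hcl : IsClosed Γ' := hΓc.sdiff (hOV.prod hP)
  have hne : ¬ (∀ x ∈ V, ∃ F, (x, F) ∈ Γ') := by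
    intro hall
    have := hΓ.le_of_le (y := Γ') ⟨hcl, sdiff_subset.trans hΓG, hall⟩ sdiff_subset
    exact (this hF).2 ⟨⟨hx1O, hx1⟩, hFP⟩
  push Not at hne
  obtain ⟨x2, hx2, hx2'⟩ := hne
  obtain ⟨F2, hF2⟩ := hΓV x2 hx2
  have hx2O : x2 ∈ O ∩ V := by
    by_contra h
    exact hx2' F2 ⟨hF2, fun h' => h h'.1⟩
  refine ⟨(O ∩ V) ∩ (Prod.fst '' (Γ ∩ (univ ×ˢ Pᶜ)))ᶜ, inter_subset_left, ?_, ⟨x2, hx2O, ?_⟩, ?_⟩
  · have hcl2 : IsClosed (Prod.fst '' (Γ ∩ (univ ×ˢ Pᶜ))) :=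
      isClosedMap_fst_of_compactSpace _ (hΓc.inter (isClosed_univ.prod hP.isClosed_compl))
    exact hOV.inter hcl2.isOpen_compl
  · rintro ⟨⟨a, F'⟩, ⟨h1, h2⟩, rfl⟩
    exact hx2' F' ⟨h1, fun h => h2.2 h.2⟩
  · rintro x ⟨_, hx⟩ F' hF'
    by_contra hFP'
    exact hx ⟨(x, F'), ⟨hF', mem_univ _, hFP'⟩, rfl⟩

end Pool.Agent.H27.TEmb
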