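import Mathlib
import Pool.Agent.H27.TEmbCore

set_option autoImplicit false

/-!
Local constancy of certificates.
-/

namespace Pool.Agent.H27.TEmb

open Set Topology

variable {X Y : Type*} [TopologicalSpace X] [CompactSpace X] [T2Space X] [TopologicalSpace Y]
  [CompactSpace Y] [T2Space Y] [TotallyDisconnectedSpace Y]

open Classical in
/-- one step of the jump construction -/
theorem jump_step {Φ : X → (Y → Bool) → ℝ} (hΦ : SepCont Φ) {f h : Y → Bool} (hf : Continuous f)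
    (hh : Continuous h) {c c1 : ℝ} (hc1 : c < c1) {n : ℕ}
    {Γ : Set (X × (Fin n → Y))} (hΓG : Γ ⊆ Gr Φ f c n) {V : Set X}
    (hM : ∀ x1 ∈ V, ∀ F, (x1, F) ∈ Γ → ∀ O, IsOpen O → x1 ∈ O → ∀ P, IsOpen P → F ∈ P →
        ∃ O' ⊆ O ∩ V, IsOpen O' ∧ O'.Nonempty ∧ ∀ x ∈ O', ∀ F', (x, F') ∈ Γ → F' ∈ P)
    (hsep : ∀ x ∈ V, ∀ F F', (x, F) ∈ Γ → (x, F') ∈ Γ → ∀ i j, i ≠ j → F i ≠ F' j)
    (B : Finset (Fin n)) {V4 : Set X} (hV4 : V4 ⊆ V)
    (hdense : ∀ V3 ⊆ V4, IsOpen V3 → V3.Nonempty → ∃ x ∈ V3, ∃ F F', (x, F) ∈ Γ ∧ (x, F') ∈ Γ ∧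
      ∀ i, F i ≠ F' i ↔ i ∈ B)
    (hP : ∀ x ∈ V4, ∀ F, (x, F) ∈ Γ → ∀ i, i ∉ B → h (F i) = f (F i))
    {O : Set X} {U : Set Y} (hO4 : O ⊆ V4) (hO : IsOpen O) (hOn : O.Nonempty) (hU : IsClopen U)
    (hOU : ∀ x ∈ O, ∀ F, (x, F) ∈ Γ → ∀ i ∈ B, F i ∈ U) :
    ∃ (O' : Set X) (U' : Set Y) (g : Y → Bool), IsOpen O' ∧ O'.Nonempty ∧ closure O' ⊆ O ∧
      IsClopen U' ∧ U' ⊆ U ∧ (∀ x ∈ O', ∀ F, (x, F) ∈ Γ → ∀ i ∈ B, F i ∈ U') ∧ Continuous g ∧
      (∀ y, y ∉ U \ U' → g y = h y) ∧ ∀ x ∈ O', Φ x g < c1 := by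
  obtain ⟨x, hxO, F, F', hF, hF', hB⟩ := hdense O hO4 hO hOn
  have hxV : x ∈ V := hV4 (hO4 hxO)
  obtain ⟨w, hw, hwK⟩ := interp (Finset.univ.image F ∪ Finset.univ.image F')
    (fun y => decide (∃ i ∈ B, y = F i))
  set W : Set Y := U ∩ {y | w y = true} with hW
  have hWc : IsClopen W := hU.inter ((isClopen_discrete {true}).preimage hw)
  obtain ⟨g, hgc, hgW, hgW'⟩ := exists_ite hWc hf hh
  have hgF : ∀ i, g (F i) = f (F i) := by
    intro i
    by_cases hi : F i ∈ W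
    · exact hgW _ hi
    · rw [hgW' _ hi]
      apply hP x (hO4 hxO) F hF i
      intro hiB
      apply hi
      refine ⟨hOU x hxO F hF i hiB, ?_⟩
      show w (F i) = true
      rw [hwK (F i) (Finset.mem_union_left _ (Finset.mem_image_of_mem _ (Finset.mem_univ i)))]
      exact decide_eq_true ⟨i, hiB, rfl⟩
  have hxg : Φ x g ≤ c := by
    refine hΓG hF g hgc ?_
    rintro _ ⟨i, rfl⟩
    exact hgF i
  have hF'W : ∀ i ∈ B, F' i ∈ U \ W := by
    intro i hi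
    refine ⟨hOU x hxO F' hF' i hi, ?_⟩
    rintro ⟨_, h2⟩
    have h3 : w (F' i) = true := h2
    rw [hwK (F' i) (Finset.mem_union_right _ (Finset.mem_image_of_mem _ (Finset.mem_univ i)))] at h3
    obtain ⟨j, hj, hij⟩ := of_decide_eq_true h3
    by_cases hij' : j = i
    · subst hij'
      exact (hB j).2 hj hij.symm
    · exact hsep x hxV F F' hF hF' j i hij' hij.symm
  obtain ⟨O', hO'sub, hO'o, hO'n, hO'P⟩ := hM x hxV F' hF' (O ∩ {x | Φ x g < c1})
    (hO.inter (isOpen_lt (hΦ.contX g hgc) continuous_const)) ⟨hxO, lt_of_le_of_lt hxg hc1⟩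
    {F | ∀ i ∈ B, F i ∈ U \ W}
    (by
      have : {F : Fin n → Y | ∀ i ∈ B, F i ∈ U \ W} = ⋂ i ∈ B, {F | F i ∈ U \ W} := by
        ext F
        simp
      rw [this]
      exact isOpen_biInter_finset fun i _ => (hU.isOpen.sdiff hWc.isClosed).preimage
        (continuous_apply i)) hF'W
  obtain ⟨z, hz⟩ := hO'n
  obtain ⟨t, ht, htc, hts⟩ := exists_mem_nhds_isClosed_subset (hO'o.mem_nhds hz)
  refine ⟨interior t, U \ W, g, isOpen_interior, ⟨z, mem_interior_iff_mem_nhds.2 ht⟩, ?_,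
    hU.diff hWc, sdiff_subset, ?_, hgc, ?_, ?_⟩
  · exact (closure_minimal interior_subset htc).trans (hts.trans fun a ha => (hO'sub ha).1.1)
  · intro a ha F2 hF2 i hi
    exact hO'P a (hts (interior_subset ha)) F2 hF2 i hi
  · intro y hy
    have : y ∉ W := fun h' => hy ⟨h'.1, fun h'' => h''.2 h'⟩
    exact hgW' y this
  · intro a ha
    exact (hO'sub (hts (interior_subset ha))).1.2

open Classical in
/-- the jump lemma -/
theorem no_dense_jump {Φ : X → (Y → Bool) → ℝ} (hΦ : SepCont Φ) {f : Y → Bool} (hf : Continuous f)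
    {c : ℝ} {n : ℕ} {Γ : Set (X × (Fin n → Y))} (hΓG : Γ ⊆ Gr Φ f c n) {V : Set X}
    (hM : ∀ x1 ∈ V, ∀ F, (x1, F) ∈ Γ → ∀ O, IsOpen O → x1 ∈ O → ∀ P, IsOpen P → F ∈ P →
        ∃ O' ⊆ O ∩ V, IsOpen O' ∧ O'.Nonempty ∧ ∀ x ∈ O', ∀ F', (x, F') ∈ Γ → F' ∈ P)
    (hsmall : ∀ x ∈ V, ∀ K : Finset Y, Cert Φ f c x (K : Set Y) → n ≤ K.card)
    (hsep : ∀ x ∈ V, ∀ F F', (x, F) ∈ Γ → (x, F') ∈ Γ → ∀ i j, i ≠ j → F i ≠ F' j)
    (B : Finset (Fin n)) (hB : B.Nonempty) {V2 : Set X} (hV2 : V2 ⊆ V) (hV2o : IsOpen V2)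
    (hV2n : V2.Nonempty)
    (hdense : ∀ V3 ⊆ V2, IsOpen V3 → V3.Nonempty → ∃ x ∈ V3, ∃ F F', (x, F) ∈ Γ ∧ (x, F') ∈ Γ ∧
      ∀ i, F i ≠ F' i ↔ i ∈ B) : False := by
  obtain ⟨x1, hx1, F, F', hF, hF', hFB⟩ := hdense V2 Subset.rfl hV2o hV2n
  have hnc : ¬ Cert Φ f c x1 (((Finset.univ \ B).image F' : Finset Y) : Set Y) := by
    intro h1
    have h2 := hsmall x1 (hV2 hx1) _ h1
    have h3 := Finset.card_image_le (s := Finset.univ \ B) (f := F')
    have h4 : (Finset.univ \ B).card = n - B.card := by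
      rw [Finset.card_sdiff_of_subset (Finset.subset_univ B), Finset.card_univ, Fintype.card_fin]
    have h5 := hB.card_pos
    have h6 := Finset.card_le_univ B
    rw [Fintype.card_fin] at h6
    omega
  unfold Cert at hnc
  push Not at hnc
  obtain ⟨h, hh, hhK, hch⟩ := hnc
  obtain ⟨c1, hc1, hc1'⟩ := exists_between hch
  obtain ⟨V4, hV4sub, hV4o, hV4n, hV4P⟩ := hM x1 (hV2 hx1) F' hF' (V2 ∩ {x | c1 < Φ x h})
    (hV2o.inter (isOpen_lt continuous_const (hΦ.contX h hh))) ⟨hx1, hc1'⟩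
    {F | ∀ i, i ∉ B → h (F i) = f (F i)}
    (by
      have : {F : Fin n → Y | ∀ i, i ∉ B → h (F i) = f (F i)} =
          ⋂ i ∈ (Finset.univ \ B), {F | h (F i) = f (F i)} := by
        ext F
        simp
      rw [this]
      refine isOpen_biInter_finset fun i _ => ?_
      have h2 : Continuous fun p : (Fin n → Y) => (h (p i), f (p i)) :=
        (hh.comp (continuous_apply i)).prodMk (hf.comp (continuous_apply i))
      exact (isOpen_discrete {q : Bool × Bool | q.1 = q.2}).preimage h2)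
    (by
      intro i hi
      apply hhK
      rw [Finset.mem_coe]
      exact Finset.mem_image_of_mem _ (Finset.mem_sdiff.2 ⟨Finset.mem_univ _, hi⟩))
  have hV4V2 : V4 ⊆ V2 := fun a ha => (hV4sub ha).1.1
  have hV4V : V4 ⊆ V := fun a ha => (hV4sub ha).2
  -- the states
  let St := {s : Set X × Set Y // s.1 ⊆ V4 ∧ IsOpen s.1 ∧ s.1.Nonempty ∧ IsClopen s.2 ∧
    ∀ x ∈ s.1, ∀ F, (x, F) ∈ Γ → ∀ i ∈ B, F i ∈ s.2}
  have step : ∀ s : St, ∃ t : St, ∃ g : Y → Bool, closure t.1.1 ⊆ s.1.1 ∧ t.1.2 ⊆ s.1.2 ∧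
      Continuous g ∧ (∀ y, y ∉ s.1.2 \ t.1.2 → g y = h y) ∧ ∀ x ∈ t.1.1, Φ x g < c1 := by
    rintro ⟨⟨O, U⟩, hO4, hO, hOn, hU, hOU⟩
    obtain ⟨O', U', g, h1, h2, h3, h4, h5, h6, h7, h8, h9⟩ :=
      jump_step hΦ hf hh hc1 hΓG hM hsep B hV4V
        (fun V3 hV3 => hdense V3 (hV3.trans hV4V2)) hV4P hO4 hO hOn hU hOU
    exact ⟨⟨(O', U'), (subset_closure.trans h3).trans hO4, h1, h2, h4, h6⟩, g, h3, h5, h7, h8, h9⟩
  choose next gg hcl hUU hgg hgh hlt using step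
  let s0 : St := ⟨(V4, univ), Subset.rfl, hV4o, hV4n, isClopen_univ, fun _ _ _ _ _ _ => mem_univ _⟩
  let s : ℕ → St := fun k => Nat.rec s0 (fun _ t => next t) k
  have hs : ∀ k, s (k + 1) = next (s k) := fun k => rfl
  have hcl' : ∀ k, closure (s (k + 1)).1.1 ⊆ (s k).1.1 := fun k => hcl (s k)
  obtain ⟨z, hz⟩ := IsCompact.nonempty_iInter_of_sequence_nonempty_isCompact_isClosed
    (fun k => closure (s (k + 1)).1.1)
    (fun k => (hcl' (k + 1)).trans subset_closure)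
    (fun k => (s (k + 1)).2.2.2.1.closure) isClosed_closure.isCompact
    (fun k => isClosed_closure)
  rw [mem_iInter] at hz
  have hzk : ∀ k, z ∈ (s k).1.1 := fun k => hcl' k (hz k)
  have hz0 : c1 < Φ z h := (hV4sub (hzk 0)).1.2
  obtain ⟨H, hH⟩ := hΦ.above z h hh c1 hz0
  have hex : ∀ k, ∃ y ∈ H, gg (s k) y ≠ h y := by
    intro k
    by_contra hcon
    push Not at hcon
    have h1 := hH (gg (s k)) (hgg (s k)) hcon
    have h2 := hlt (s k) z (hzk (k + 1))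
    exact absurd h1 (not_lt.2 h2.le)
  choose y hyH hyne using hex
  have hyU : ∀ k, y k ∈ (s k).1.2 \ (s (k + 1)).1.2 := by
    intro k
    by_contra hcon
    exact hyne k (hgh (s k) (y k) hcon)
  have hanti : Antitone fun k => (s k).1.2 := antitone_nat_of_succ_le fun k => hUU (s k)
  have hinj : Function.Injective y := by
    intro k l hkl
    by_contra hne
    rcases lt_or_gt_of_ne hne with h1 | h1
    · exact (hyU k).2 (hkl ▸ hanti (show k + 1 ≤ l from h1) (hyU l).1)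
    · exact (hyU l).2 (hkl ▸ hanti (show l + 1 ≤ k from h1) (hyU k).1)
  exact (Set.infinite_of_injective_forall_mem hinj (s := (H : Set Y)) hyH) H.finite_toSet

open Classical in
/-- if jumps are dense then jumps of one type are somewhere dense -/
theorem exists_type {n : ℕ} {Γ : Set (X × (Fin n → Y))} {V1 : Set X} (hV1o : IsOpen V1)
    (hV1n : V1.Nonempty)
    (hj : ∀ V2 ⊆ V1, IsOpen V2 → V2.Nonempty → ∃ x ∈ V2, ∃ F F', (x, F) ∈ Γ ∧ (x, F') ∈ Γ ∧
      F ≠ F') :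
    ∃ B : Finset (Fin n), B.Nonempty ∧ ∃ V2 ⊆ V1, IsOpen V2 ∧ V2.Nonempty ∧
      ∀ V3 ⊆ V2, IsOpen V3 → V3.Nonempty → ∃ x ∈ V3, ∃ F F', (x, F) ∈ Γ ∧ (x, F') ∈ Γ ∧
        ∀ i, F i ≠ F' i ↔ i ∈ B := by
  by_contra hcon
  push Not at hcon
  have key : ∀ D : Finset (Finset (Fin n)), ∃ V2 ⊆ V1, IsOpen V2 ∧ V2.Nonempty ∧
      ∀ B ∈ D, B.Nonempty → ∀ x ∈ V2, ∀ F F', (x, F) ∈ Γ → (x, F') ∈ Γ →
        ¬ ∀ i, F i ≠ F' i ↔ i ∈ B := by
    intro D
    induction D using Finset.induction_on with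
    | empty => exact ⟨V1, Subset.rfl, hV1o, hV1n, fun B hB => absurd hB (Finset.notMem_empty B)⟩
    | insert B D hBD ih =>
      obtain ⟨V2, h1, h2, h3, h4⟩ := ih
      by_cases hB : B.Nonempty
      · obtain ⟨V3, h5, h6, h7, h8⟩ := hcon B hB V2 h1 h2 h3
        refine ⟨V3, h5.trans h1, h6, h7, ?_⟩
        intro B' hB' hB'n x hx F F' hF hF' hall
        rw [Finset.mem_insert] at hB'
        rcases hB' with rfl | hB'
        · obtain ⟨i, hi⟩ := h8 x hx F F' hF hF'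
          have := hall i
          rcases hi with ⟨h9, h10⟩ | ⟨h9, h10⟩
          · exact h10 (this.1 h9)
          · exact this.2 h10 h9
        · exact h4 B' hB' hB'n x (h5 hx) F F' hF hF' hall
      · refine ⟨V2, h1, h2, h3, ?_⟩
        intro B' hB' hB'n
        rw [Finset.mem_insert] at hB'
        rcases hB' with rfl | hB'
        · exact absurd hB'n hB
        · exact h4 B' hB' hB'n
  obtain ⟨V2, h1, h2, h3, h4⟩ := key Finset.univ
  obtain ⟨x, hx, F, F', hF, hF', hne⟩ := hj V2 h1 h2 h3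
  refine h4 (Finset.univ.filter fun i => F i ≠ F' i) (Finset.mem_univ _) ?_ x hx F F' hF hF' ?_
  · obtain ⟨i, hi⟩ := Function.ne_iff.1 hne
    exact ⟨i, Finset.mem_filter.2 ⟨Finset.mem_univ _, hi⟩⟩
  · intro i
    rw [Finset.mem_filter]
    exact ⟨fun h => ⟨Finset.mem_univ _, h⟩, fun h => h.2⟩

open Classical in
/-- certificates are locally constant on a dense open set -/
theorem local_cert {Φ : X → (Y → Bool) → ℝ} (hΦ : SepCont Φ)
    (hX : ∀ V : Set X, IsOpen V → V.Nonempty → ∃ V' ⊆ V, IsOpen V' ∧ V'.Nonempty ∧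
      IsPreconnected V')
    {f : Y → Bool} (hf : Continuous f) (c : ℝ) {V0 : Set X} (hV0 : IsOpen V0)
    (hne : V0.Nonempty) (hlt : ∀ x ∈ V0, Φ x f < c) :
    ∃ V ⊆ V0, IsOpen V ∧ V.Nonempty ∧ ∃ K : Finset Y, ∀ x ∈ V, Cert Φ f c x (K : Set Y) := by
  obtain ⟨n, V, hVV0, hVo, hVn, hVX, hsmall⟩ := baire_step hΦ hf c hV0 hne hlt
  obtain ⟨Γ, hΓG, hΓc, hΓV, hM⟩ := exists_min_usco (isClosed_Gr hΦ hf c n) hVo (by
    intro x hx
    obtain ⟨K, hK, hc⟩ := hVX hx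
    have hK' := hsmall x hx K hc
    have hKn : K.card = n := le_antisymm hK hK'
    subst hKn
    refine ⟨fun i => (K.equivFin.symm i).1, ?_⟩
    show Cert Φ f c x (range fun i => (K.equivFin.symm i).1)
    have : (range fun i => ((K.equivFin.symm i).1 : Y)) = (K : Set Y) := by
      ext y
      simp only [mem_range, Finset.mem_coe]
      constructor
      · rintro ⟨i, rfl⟩
        exact (K.equivFin.symm i).2
      · intro hy
        exact ⟨K.equivFin ⟨y, hy⟩, by simp⟩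
    rw [this]
    exact hc)
  -- injectivity
  have hinj : ∀ x ∈ V, ∀ F, (x, F) ∈ Γ → Function.Injective F := by
    intro x hx F hF
    have h1 : Cert Φ f c x ((Finset.univ.image F : Finset Y) : Set Y) := by
      have h2 : Cert Φ f c x (range F) := hΓG hF
      rwa [Finset.coe_image, Finset.coe_univ, image_univ]
    have h2 := hsmall x hx _ h1
    have h3 := Finset.card_image_le (s := Finset.univ) (f := F)
    rw [Finset.card_univ, Fintype.card_fin] at h3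
    have h4 : (Finset.univ.image F).card = (Finset.univ : Finset (Fin n)).card := by
      rw [Finset.card_univ, Fintype.card_fin]
      omega
    have h5 := Finset.card_image_iff.1 h4
    intro i j hij
    exact h5 (by simp) (by simp) hij
  obtain ⟨x0, hx0⟩ := hVn
  obtain ⟨F0, hF0⟩ := hΓV x0 hx0
  have hF0i := hinj x0 hx0 F0 hF0
  have hw : ∀ i : Fin n, ∃ w : Y → Bool, Continuous w ∧ ∀ j, w (F0 j) = decide (j = i) := by
    intro i
    obtain ⟨w, hw, hwK⟩ := interp (Finset.univ.image F0) (fun y => decide (y = F0 i))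
    refine ⟨w, hw, fun j => ?_⟩
    rw [hwK (F0 j) (Finset.mem_image_of_mem _ (Finset.mem_univ j))]
    by_cases hji : j = i
    · subst hji
      simp
    · have : F0 j ≠ F0 i := fun h => hji (hF0i h)
      simp [hji, this]
  choose w hwc hwF using hw
  obtain ⟨V1, hV1sub, hV1o, hV1n, hV1P⟩ := hM x0 hx0 F0 hF0 univ isOpen_univ (mem_univ _)
    {F | ∀ i j, w i (F j) = decide (j = i)}
    (by
      rw [ofPred_forall]
      refine isOpen_iInter_of_finite fun i => ?_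
      rw [ofPred_forall]
      refine isOpen_iInter_of_finite fun j => ?_
      exact (isOpen_discrete {b : Bool | b = decide (j = i)}).preimage
        ((hwc i).comp (continuous_apply j)))
    (fun i j => hwF i j)
  have hV1V : V1 ⊆ V := fun a ha => (hV1sub ha).2
  have hsep : ∀ x ∈ V1, ∀ F F', (x, F) ∈ Γ → (x, F') ∈ Γ → ∀ i j, i ≠ j → F i ≠ F' j := by
    intro x hx F F' hF hF' i j hij heq
    have h1 := hV1P x hx F hF i i
    have h2 := hV1P x hx F' hF' i j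
    rw [heq, h2] at h1
    simp [hij.symm] at h1
  by_cases h1 : ∃ V2 ⊆ V1, IsOpen V2 ∧ V2.Nonempty ∧ ∀ x ∈ V2, ∀ F F', (x, F) ∈ Γ → (x, F') ∈ Γ →
      F = F'
  · obtain ⟨V2, hV2V1, hV2o, hV2n, huniq⟩ := h1
    obtain ⟨V3, hV3V2, hV3o, hV3n, hV3c⟩ := hX V2 hV2o hV2n
    obtain ⟨x3, hx3⟩ := hV3n
    obtain ⟨F3, hF3⟩ := hΓV x3 (hV1V (hV2V1 (hV3V2 hx3)))
    refine ⟨V3, hV3V2.trans (hV2V1.trans (hV1V.trans hVV0)), hV3o, ⟨x3, hx3⟩,
      Finset.univ.image F3, ?_⟩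
    have hall : ∀ x ∈ V3, (x, F3) ∈ Γ := by
      intro x hx
      obtain ⟨F, hF⟩ := hΓV x (hV1V (hV2V1 (hV3V2 hx)))
      by_cases hFF : F = F3
      · rw [← hFF]
        exact hF
      exfalso
      obtain ⟨i, hi⟩ := Function.ne_iff.1 hFF
      obtain ⟨v, hv, hvK⟩ := interp {F i, F3 i} (fun y => decide (y = F i))
      have hv1 : v (F i) = true := by
        rw [hvK (F i) (by simp)]
        simp
      have hv2 : v (F3 i) = false := by
        rw [hvK (F3 i) (by simp)]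
        simp [Ne.symm hi]
      have hcl : ∀ b : Bool, IsClosed (Prod.fst '' (Γ ∩ {p : X × (Fin n → Y) | v (p.2 i) = b})) := by
        intro b
        have h2 : IsClosed {p : X × (Fin n → Y) | v (p.2 i) = b} :=
          (isClosed_discrete {b' : Bool | b' = b}).preimage
            (hv.comp ((continuous_apply i).comp continuous_snd))
        exact isClosedMap_fst_of_compactSpace _ (hΓc.inter h2)
      have h3 := isPreconnected_closed_iff.1 hV3c _ _ (hcl true) (hcl false)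
        (by
          intro a ha
          obtain ⟨Fa, hFa⟩ := hΓV a (hV1V (hV2V1 (hV3V2 ha)))
          by_cases hb : v (Fa i) = true
          · exact Or.inl ⟨(a, Fa), ⟨hFa, hb⟩, rfl⟩
          · exact Or.inr ⟨(a, Fa), ⟨hFa, by simpa using hb⟩, rfl⟩)
        ⟨x, hx, (x, F), ⟨hF, hv1⟩, rfl⟩ ⟨x3, hx3, (x3, F3), ⟨hF3, hv2⟩, rfl⟩
      obtain ⟨a, ha, ⟨⟨a1, Fa⟩, ⟨h4, h5⟩, h6⟩, ⟨⟨a2, Fb⟩, ⟨h7, h8⟩, h9⟩⟩ := h3
      simp only at h6 h9
      subst h6
      subst h9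
      have h10 := huniq _ (hV3V2 ha) Fa Fb h4 h7
      have h5' : v (Fa i) = true := h5
      have h8' : v (Fb i) = false := h8
      rw [h10, h8'] at h5'
      exact absurd h5' (by decide)
    intro x hx
    have h2 : Cert Φ f c x (range F3) := hΓG (hall x hx)
    rwa [Finset.coe_image, Finset.coe_univ, image_univ]
  · exfalso
    push Not at h1
    obtain ⟨B, hB, V2, hV2V1, hV2o, hV2n, hdense⟩ := exists_type hV1o hV1n h1
    exact no_dense_jump hΦ hf hΓG (V := V1)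
      (fun x1 hx1 F hF O hO hxO P hP hFP => by
        obtain ⟨O', h2, h3, h4, h5⟩ := hM x1 (hV1V hx1) F hF (O ∩ V1) (hO.inter hV1o)
          ⟨hxO, hx1⟩ P hP hFP
        exact ⟨O', fun a ha => (h2 ha).1, h3, h4, h5⟩)
      (fun x hx => hsmall x (hV1V hx)) hsep B hB hV2V1 hV2o hV2n hdense

end Pool.Agent.H27.TEmb
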