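import Mathlib
import Pool.Agent.H27.TEmbLocal

set_option autoImplicit false

/-!
Tychonoff cubes: boxes, uniform continuity, ultrafilter roots.
-/

namespace Pool.Agent.H27.TEmb

open Set Topology Filter

theorem box_nhds {T : Type*} {x : T → unitInterval} {V : Set (T → unitInterval)} (hV : V ∈ 𝓝 x) :
    ∃ (a : Finset T) (k : ℕ), ∀ x' : T → unitInterval,
      (∀ γ ∈ a, dist (x' γ) (x γ) < 1 / ((k : ℝ) + 1)) → x' ∈ V := by
  rw [nhds_pi, Filter.mem_pi] at hV
  obtain ⟨I, hI, t, ht, hIt⟩ := hV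
  have h1 : ∀ γ, ∃ k : ℕ, ∀ p : unitInterval, dist p (x γ) < 1 / ((k : ℝ) + 1) → p ∈ t γ := by
    intro γ
    obtain ⟨ε, hε, hεt⟩ := Metric.mem_nhds_iff.1 (ht γ)
    obtain ⟨k, hk⟩ := exists_nat_one_div_lt hε
    exact ⟨k, fun p hp => hεt (Metric.mem_ball.2 (hp.trans hk))⟩
  choose k hk using h1
  refine ⟨hI.toFinset, hI.toFinset.sup k, fun x' hx' => hIt ?_⟩
  intro γ hγ
  apply hk γ
  have h2 : γ ∈ hI.toFinset := hI.mem_toFinset.2 hγ
  have h3 : k γ ≤ hI.toFinset.sup k := Finset.le_sup h2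
  have h4 : (k γ : ℝ) ≤ ((hI.toFinset.sup k : ℕ) : ℝ) := by exact_mod_cast h3
  refine lt_of_lt_of_le (hx' γ h2) ?_
  exact one_div_le_one_div_of_le (by positivity) (by linarith)

theorem ball_preconnected (p : unitInterval) (r : ℝ) : IsPreconnected (Metric.ball p r) := by
  rw [← Topology.IsInducing.subtypeVal.isPreconnected_image]
  have : ((↑) : unitInterval → ℝ) '' Metric.ball p r = Metric.ball (p : ℝ) r ∩ Icc 0 1 := by
    ext z
    constructor
    · rintro ⟨w, hw, rfl⟩
      exact ⟨hw, w.2⟩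
    · rintro ⟨hz, hz'⟩
      exact ⟨⟨z, hz'⟩, hz, rfl⟩
  rw [this]
  exact ((convex_ball (p : ℝ) r).inter (convex_Icc 0 1)).isPreconnected

open Classical in
theorem box_open_preconnected {T : Type*} (x : T → unitInterval) (a : Finset T) (r : ℝ) :
    IsOpen {x' : T → unitInterval | ∀ γ ∈ a, dist (x' γ) (x γ) < r} ∧
      IsPreconnected {x' : T → unitInterval | ∀ γ ∈ a, dist (x' γ) (x γ) < r} := by
  constructor
  · have : {x' : T → unitInterval | ∀ γ ∈ a, dist (x' γ) (x γ) < r} =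
        ⋂ γ ∈ a, {x' | dist (x' γ) (x γ) < r} := by
      ext x'
      simp
    rw [this]
    exact isOpen_biInter_finset fun γ _ => isOpen_lt ((continuous_apply γ).dist continuous_const)
      continuous_const
  · have : {x' : T → unitInterval | ∀ γ ∈ a, dist (x' γ) (x γ) < r} =
        univ.pi fun γ => if γ ∈ a then Metric.ball (x γ) r else univ := by
      ext x'
      simp only [mem_ofPred_eq, mem_univ_pi]
      refine forall_congr' fun γ => ?_
      by_cases h : γ ∈ a
      · simp [h]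
      · simp [h]
    rw [this]
    refine isPreconnected_univ_pi fun γ => ?_
    split_ifs
    · exact ball_preconnected _ _
    · exact isPreconnected_univ

theorem cube_base {T : Type*} (V : Set (T → unitInterval)) (hV : IsOpen V) (hne : V.Nonempty) :
    ∃ V' ⊆ V, IsOpen V' ∧ V'.Nonempty ∧ IsPreconnected V' := by
  obtain ⟨x, hx⟩ := hne
  obtain ⟨a, k, h⟩ := box_nhds (hV.mem_nhds hx)
  have h1 := box_open_preconnected x a (1 / ((k : ℝ) + 1))
  refine ⟨_, fun x' hx' => h x' hx', h1.1, ⟨x, ?_⟩, h1.2⟩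
  intro γ _
  rw [dist_self]
  positivity

/-- uniform continuity on cubes -/
theorem unif_cont {T : Type*} {ψ : (T → unitInterval) → ℝ} (hψ : Continuous ψ) :
    ∃ (a : Finset T) (k : ℕ), ∀ x x' : T → unitInterval,
      (∀ γ ∈ a, dist (x γ) (x' γ) < 1 / ((k : ℝ) + 1)) → |ψ x - ψ x'| < 1 / 2 := by
  have hu := CompactSpace.uniformContinuous_of_continuous hψ
  have h1 : {p : (T → unitInterval) × (T → unitInterval) | dist (ψ p.1) (ψ p.2) < 1 / 2} ∈
      uniformity (T → unitInterval) :=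
    hu (Metric.dist_mem_uniformity (by norm_num))
  rw [Pi.uniformity, Filter.mem_iInf] at h1
  obtain ⟨I, hI, W, hW, hIW⟩ := h1
  have h2 : ∀ i : I, ∃ k : ℕ, ∀ p : (T → unitInterval) × (T → unitInterval),
      dist (p.1 i) (p.2 i) < 1 / ((k : ℝ) + 1) → p ∈ W i := by
    intro i
    obtain ⟨s, hs, hsW⟩ := Filter.mem_comap.1 (hW i)
    obtain ⟨ε, hε, hεs⟩ := Metric.mem_uniformity_dist.1 hs
    obtain ⟨k, hk⟩ := exists_nat_one_div_lt hε
    exact ⟨k, fun p hp => hsW (hεs (hp.trans hk))⟩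
  choose k hk using h2
  classical
  have : Fintype I := hI.fintype
  refine ⟨hI.toFinset, Finset.univ.sup k, fun x x' hx => ?_⟩
  have h3 : (x, x') ∈ {p : (T → unitInterval) × (T → unitInterval) |
      dist (ψ p.1) (ψ p.2) < 1 / 2} := by
    rw [hIW, mem_iInter]
    intro i
    apply hk i
    have h4 : k i ≤ Finset.univ.sup k := Finset.le_sup (Finset.mem_univ i)
    have h5 : (k i : ℝ) ≤ ((Finset.univ.sup k : ℕ) : ℝ) := by exact_mod_cast h4
    refine lt_of_lt_of_le (hx i (hI.mem_toFinset.2 i.2)) ?_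
    exact one_div_le_one_div_of_le (by positivity) (by linarith)
  exact h3

/-- pigeonhole -/
theorem pigeon {S α : Type*} [Uncountable S] [Countable α] (f : S → α) :
    ∃ a, (f ⁻¹' {a}).Infinite := by
  by_contra hcon
  push Not at hcon
  have h1 : (univ : Set S) = ⋃ a, f ⁻¹' {a} := by
    ext s
    simp
  have h2 : (univ : Set S).Countable := by
    rw [h1]
    exact countable_iUnion fun a => (hcon a).countable
  exact not_countable_univ h2

/-- a nonprincipal ultrafilter on an infinite set -/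
theorem exists_ultra {S : Type*} {Z : Set S} (hZ : Z.Infinite) :
    ∃ U : Ultrafilter S, Z ∈ U ∧ (U : Filter S) ≤ cofinite := by
  have : (cofinite ⊓ 𝓟 Z).NeBot := by
    rw [Filter.inf_principal_neBot_iff]
    intro s hs
    rw [Filter.mem_cofinite] at hs
    by_contra hcon
    rw [not_nonempty_iff_eq_empty] at hcon
    apply hZ
    refine hs.subset fun z hz hzs => ?_
    have : z ∈ s ∩ Z := ⟨hzs, hz⟩
    rw [hcon] at this
    exact this
  refine ⟨Ultrafilter.of (cofinite ⊓ 𝓟 Z), ?_, (Ultrafilter.of_le _).trans inf_le_left⟩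
  have h1 : (Ultrafilter.of (cofinite ⊓ 𝓟 Z) : Filter S) ≤ 𝓟 Z :=
    (Ultrafilter.of_le _).trans inf_le_right
  exact Filter.le_principal_iff.1 h1

open Classical in
/-- roots along an ultrafilter -/
theorem exists_root {S A : Type*} (U : Ultrafilter S) (K : S → Finset A) (p : ℕ)
    (hp : ∀ᶠ s in U, (K s).card ≤ p) :
    ∃ R : Finset A, (∀ᶠ s in U, R ⊆ K s) ∧ ∀ H : Finset A, ∀ᶠ s in U, K s ∩ H ⊆ R := by
  have hfin : {t : A | ∀ᶠ s in U, t ∈ K s}.Finite := by
    by_contra hinf
    obtain ⟨D, hD, hDc⟩ := Set.Infinite.exists_subset_card_eq hinf (p + 1)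
    have h1 : ∀ᶠ s in U, ∀ t ∈ D, t ∈ K s :=
      (Filter.eventually_all_finset D).2 fun t ht => hD ht
    obtain ⟨s, hs1, hs2⟩ := (h1.and hp).exists
    have h2 := Finset.card_le_card (show D ⊆ K s from hs1)
    omega
  refine ⟨hfin.toFinset, ?_, ?_⟩
  · have h1 : ∀ᶠ s in U, ∀ t ∈ hfin.toFinset, t ∈ K s :=
      (Filter.eventually_all_finset _).2 fun t ht => hfin.mem_toFinset.1 ht
    exact h1
  · intro H
    have h1 : ∀ᶠ s in U, ∀ t ∈ H, t ∉ hfin.toFinset → t ∉ K s := by
      refine (Filter.eventually_all_finset _).2 fun t _ => ?_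
      by_cases h : t ∈ hfin.toFinset
      · exact Filter.Eventually.of_forall fun s hs => absurd h hs
      · have h2 : ¬ ∀ᶠ s in U, t ∈ K s := fun h' => h (hfin.mem_toFinset.2 h')
        rw [← Ultrafilter.eventually_not] at h2
        exact h2.mono fun s hs _ => hs
    refine h1.mono fun s hs t ht => ?_
    rw [Finset.mem_inter] at ht
    by_contra h
    exact hs t ht.2 h ht.1

end Pool.Agent.H27.TEmb
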