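import Mathlib

set_option autoImplicit false

/-!
Definitions: the function space `C_p(Z)` and t-embedded subspaces.
-/

namespace Pool.Agent.H27.TEmb

/-- `C_p(Z)`: the set of continuous real-valued functions on `Z` with the topology of pointwise
convergence, that is, the topology induced from the product `Z → ℝ`. -/
abbrev Cp (Z : Type*) [TopologicalSpace Z] : Type _ := {f : Z → ℝ // Continuous f}

/-- The subspace `Y` of `X` is t-embedded in `X`: there is a continuous extender
`φ : C_p(Y) → C_p(X)`. -/
def TEmbedded {X : Type*} [TopologicalSpace X] (Y : Set X) : Prop :=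
  ∃ φ : Cp Y → Cp X, Continuous φ ∧ ∀ (f : Cp Y) (y : Y), (φ f).1 y = f.1 y

end Pool.Agent.H27.TEmb
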