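import Mathlib
import Pool.Agent.H27.TEmbCube

set_option autoImplicit false

/-!
No separately continuous extension from `{0,1}^S` to a Tychonoff cube, `S` uncountable.
-/

namespace Pool.Agent.H27.TEmb

open Set Topology Filter

variable {S T : Type*}

/-- the data attached to an index -/
structure Data (Φ : (T → unitInterval) → ((S → Bool) → Bool) → ℝ) (e0 : T → unitInterval)
    (ζ : S) where
  n : Finset T
  m : ℕ
  K : Finset (S → Bool)
  v : T → unitInterval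
  a : Finset T
  k : ℕ
  hU : ∀ x x' : T → unitInterval, (∀ γ ∈ n, dist (x γ) (x' γ) < 1 / ((m : ℝ) + 1)) →
    |Φ x (fun y => y ζ) - Φ x' (fun y => y ζ)| < 1 / 2
  hB : ∀ γ ∈ n, dist (v γ) (e0 γ) < 1 / ((m : ℝ) + 1) / 2
  hC : ∀ x : T → unitInterval, (∀ γ ∈ a, dist (x γ) (v γ) < 1 / ((k : ℝ) + 1)) →
    Cert Φ (fun y => y ζ) (1 / 2) x (K : Set (S → Bool))
  hM : ∀ V : Set (T → unitInterval), IsOpen V → V.Nonempty →
    (∀ x ∈ V, ∀ γ ∈ a, dist (x γ) (v γ) < 1 / ((k : ℝ) + 1)) →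
    ∀ K' : Finset (S → Bool), (∀ x ∈ V, Cert Φ (fun y => y ζ) (1 / 2) x (K' : Set (S → Bool))) →
      K.card ≤ K'.card

open Classical in
theorem exists_data {Φ : (T → unitInterval) → ((S → Bool) → Bool) → ℝ} (hΦ : SepCont Φ)
    {e0 : T → unitInterval} (ζ : S) (h0 : Φ e0 (fun y => y ζ) < 1 / 2) :
    Nonempty (Data Φ e0 ζ) := by
  have hχ : Continuous fun y : S → Bool => y ζ := continuous_apply ζ
  obtain ⟨n, m, hU⟩ := unif_cont (hΦ.contX _ hχ)
  set V0 : Set (T → unitInterval) := {x | Φ x (fun y => y ζ) < 1 / 2} ∩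
    {x | ∀ γ ∈ n, dist (x γ) (e0 γ) < 1 / ((m : ℝ) + 1) / 2} with hV0
  have hV0o : IsOpen V0 := (isOpen_lt (hΦ.contX _ hχ) continuous_const).inter
    (box_open_preconnected e0 n _).1
  have hV0n : V0.Nonempty := ⟨e0, h0, fun γ _ => by rw [dist_self]; positivity⟩
  have hex : ∃ q : ℕ, ∃ V ⊆ V0, IsOpen V ∧ V.Nonempty ∧ ∃ K : Finset (S → Bool), K.card = q ∧
      ∀ x ∈ V, Cert Φ (fun y => y ζ) (1 / 2) x (K : Set (S → Bool)) := by
    obtain ⟨V, h1, h2, h3, K, hK⟩ := local_cert hΦ cube_base hχ (1 / 2) hV0o hV0n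
      (fun x hx => hx.1)
    exact ⟨K.card, V, h1, h2, h3, K, rfl, hK⟩
  obtain ⟨V, hVV0, hVo, ⟨v, hv⟩, K, hKc, hK⟩ := Nat.find_spec hex
  have hmin := fun q (hq : q < Nat.find hex) => Nat.find_min hex hq
  obtain ⟨a, k, hak⟩ := box_nhds (hVo.mem_nhds hv)
  refine ⟨⟨n, m, K, v, a, k, hU, (hVV0 hv).2, fun x hx => hK x (hak x hx), ?_⟩⟩
  intro V' hV'o hV'n hV' K' hK'
  by_contra hlt
  rw [not_le] at hlt
  refine hmin K'.card (by rw [← hKc]; exact hlt) ⟨V', fun x hx => hVV0 (hak x (hV' x hx)), hV'o,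
    hV'n, K', rfl, hK'⟩

open Classical in
theorem main [Uncountable S] {e : (S → Bool) → (T → unitInterval)} (he : Continuous e)
    {Φ : (T → unitInterval) → ((S → Bool) → Bool) → ℝ} (hΦ : SepCont Φ)
    (hext : ∀ y ζ, Φ (e y) (fun y => y ζ) = if y ζ then 1 else 0) : False := by
  set e0 := e (fun _ => false) with he0
  have hd : ∀ ζ, Nonempty (Data Φ e0 ζ) := fun ζ => exists_data hΦ ζ (by
    rw [he0, hext]
    norm_num)
  obtain ⟨d⟩ : Nonempty (∀ ζ, Data Φ e0 ζ) := ⟨fun ζ => (hd ζ).some⟩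
  -- pigeonhole
  obtain ⟨⟨n0, m0, K0, a0, k0⟩, hZ⟩ := pigeon (fun ζ : S =>
    (((d ζ).n.card, (d ζ).m, (d ζ).K.card, (d ζ).a.card, (d ζ).k) : ℕ × ℕ × ℕ × ℕ × ℕ))
  obtain ⟨U, hUZ, hUc⟩ := exists_ultra hZ
  have hZ' : ∀ᶠ ζ in U, (d ζ).n.card = n0 ∧ (d ζ).m = m0 ∧ (d ζ).K.card = K0 ∧
      (d ζ).a.card = a0 ∧ (d ζ).k = k0 := by
    filter_upwards [hUZ] with ζ hζ
    have h1 : (((d ζ).n.card, (d ζ).m, (d ζ).K.card, (d ζ).a.card, (d ζ).k) :
      ℕ × ℕ × ℕ × ℕ × ℕ) = (n0, m0, K0, a0, k0) := hζ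
    simpa only [Prod.mk.injEq] using h1
  -- roots
  obtain ⟨r, hr1, hr2⟩ := exists_root U (fun ζ => (d ζ).a) a0 (hZ'.mono fun ζ h => h.2.2.2.1.le)
  obtain ⟨R, hR1, hR2⟩ := exists_root U (fun ζ => (d ζ).K) K0 (hZ'.mono fun ζ h => h.2.2.1.le)
  obtain ⟨rn, hrn1, hrn2⟩ := exists_root U (fun ζ => (d ζ).n) n0 (hZ'.mono fun ζ h => h.1.le)
  -- limit of the points
  obtain ⟨v, hv⟩ : ∃ v : T → unitInterval, Tendsto (fun ζ => (d ζ).v) U (𝓝 v) :=
    ⟨(Ultrafilter.map (fun ζ => (d ζ).v) U).lim, Ultrafilter.le_nhds_lim _⟩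
  have hδ : (0 : ℝ) < 1 / ((k0 : ℝ) + 1) / 2 := by positivity
  have hvr : ∀ᶠ ζ in U, ∀ γ ∈ r, dist ((d ζ).v γ) (v γ) < 1 / ((k0 : ℝ) + 1) / 2 := by
    refine (Filter.eventually_all_finset r).2 fun γ _ => ?_
    have h1 : Tendsto (fun ζ => (d ζ).v γ) U (𝓝 (v γ)) := (tendsto_pi_nhds.1 hv) γ
    exact (Metric.tendsto_nhds.1 h1) _ hδ
  -- limit of the values
  set ρ : (S → Bool) → Bool := fun y => decide (∀ᶠ ζ in U, y ζ = true) with hρ
  have hρ1 : ∀ y, ∀ᶠ ζ in U, y ζ = ρ y := by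
    intro y
    by_cases h : ∀ᶠ ζ in U, y ζ = true
    · have : ρ y = true := decide_eq_true h
      rw [this]
      exact h
    · have h1 : ρ y = false := decide_eq_false h
      rw [h1]
      rw [← Ultrafilter.eventually_not] at h
      exact h.mono fun ζ hζ => by simpa using hζ
  have hρR : ∀ᶠ ζ in U, ∀ y ∈ R, y ζ = ρ y := (Filter.eventually_all_finset R).2 fun y _ => hρ1 y
  -- the certificates are constant
  have hKR : ∀ᶠ ζ in U, (d ζ).K = R := by
    by_contra hcon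
    rw [← Ultrafilter.eventually_not] at hcon
    obtain ⟨ζ1, hne1, hRK1, hρ11, hv1, hZ1⟩ :=
      (hcon.and (hR1.and (hρR.and (hvr.and hZ')))).exists
    have hcard : R.card < (d ζ1).K.card :=
      Finset.card_lt_card (Finset.ssubset_iff_subset_ne.2 ⟨hRK1, Ne.symm hne1⟩)
    set V1 : Set (T → unitInterval) :=
      {x | ∀ γ ∈ (d ζ1).a, dist (x γ) ((d ζ1).v γ) < 1 / (((d ζ1).k : ℝ) + 1)} ∩
        {x | ∀ γ ∈ r, dist (x γ) (v γ) < 1 / ((k0 : ℝ) + 1) / 2} with hV1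
    have hV1o : IsOpen V1 := (box_open_preconnected _ _ _).1.inter (box_open_preconnected _ _ _).1
    have hV1n : V1.Nonempty := ⟨(d ζ1).v, fun γ _ => by rw [dist_self]; positivity, hv1⟩
    have hncert : ¬ ∀ x ∈ V1, Cert Φ (fun y => y ζ1) (1 / 2) x (R : Set (S → Bool)) := by
      intro h
      have := (d ζ1).hM V1 hV1o hV1n (fun x hx => hx.1) R h
      omega
    unfold Cert at hncert
    push Not at hncert
    obtain ⟨x, hxV1, g, hg, hgR, hgx⟩ := hncert
    obtain ⟨c', hc', hc'x⟩ := exists_between hgx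
    obtain ⟨V2, hV2sub, hV2o, ⟨x0, hx0⟩, H, hH⟩ := local_cert hΦ.neg cube_base hg (-c')
      (V0 := V1 ∩ {x | c' < Φ x g})
      (hV1o.inter (isOpen_lt continuous_const (hΦ.contX g hg))) ⟨x, hxV1, hc'x⟩
      (fun z hz => by
        have : c' < Φ z g := hz.2
        show - Φ z g < - c'
        linarith)
    obtain ⟨a', k', hak'⟩ := box_nhds (hV2o.mem_nhds hx0)
    obtain ⟨ζ, hKH, haa, hρζ, hvζ, hZζ⟩ :=
      ((hR2 H).and ((hr2 a').and (hρR.and (hvr.and hZ')))).exists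
    obtain ⟨g', hg', hg'K⟩ := interp (H ∪ (d ζ).K) (fun y => if y ∈ H then g y else y ζ)
    have hg'H : ∀ y ∈ H, g' y = g y := by
      intro y hy
      rw [hg'K y (Finset.mem_union_left _ hy)]
      simp only [if_pos hy]
    have hg'ζ : ∀ y ∈ (d ζ).K, g' y = y ζ := by
      intro y hy
      rw [hg'K y (Finset.mem_union_right _ hy)]
      by_cases hyH : y ∈ H
      · simp only [if_pos hyH]
        have hyR : y ∈ R := hKH (Finset.mem_inter.2 ⟨hy, hyH⟩)
        rw [hgR y (Finset.mem_coe.2 hyR), hρ11 y hyR, hρζ y hyR]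
      · simp only [if_neg hyH]
    set z : T → unitInterval := fun γ => if γ ∈ a' ∪ r then x0 γ else (d ζ).v γ with hz
    have hzV2 : z ∈ V2 := by
      apply hak'
      intro γ hγ
      have : z γ = x0 γ := if_pos (Finset.mem_union_left _ hγ)
      rw [this, dist_self]
      positivity
    have hzc : Cert Φ (fun y => y ζ) (1 / 2) z ((d ζ).K : Set (S → Bool)) := by
      apply (d ζ).hC
      intro γ hγ
      rw [hZζ.2.2.2.2]
      by_cases hγr : γ ∈ a' ∪ r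
      · have h1 : z γ = x0 γ := if_pos hγr
        have h2 : γ ∈ r := by
          rcases Finset.mem_union.1 hγr with h | h
          · exact haa (Finset.mem_inter.2 ⟨hγ, h⟩)
          · exact h
        rw [h1]
        have h3 : dist (x0 γ) (v γ) < 1 / ((k0 : ℝ) + 1) / 2 := (hV2sub hx0).1.2 γ h2
        have h4 := hvζ γ h2
        rw [dist_comm] at h4
        have h5 := dist_triangle (x0 γ) (v γ) ((d ζ).v γ)
        linarith
      · have h1 : z γ = (d ζ).v γ := if_neg hγr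
        rw [h1, dist_self]
        positivity
    have h1 := hzc g' hg' (fun y hy => hg'ζ y (Finset.mem_coe.1 hy))
    have h2 : - Φ z g' ≤ - c' := hH z hzV2 g' hg' (fun y hy => hg'H y (Finset.mem_coe.1 hy))
    linarith
  -- the final contradiction
  obtain ⟨ζ, hζK, hζρ, hζn, hζZ⟩ := (hKR.and (hρR.and (hrn1.and hZ'))).exists
  have he1 : Tendsto (fun ξ : S => e (fun s => decide (s = ξ))) U (𝓝 e0) := by
    refine (he.tendsto _).comp ?_
    rw [tendsto_pi_nhds]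
    intro s
    refine tendsto_const_nhds.congr' ?_
    have h1 : ∀ᶠ ξ in cofinite, ξ ≠ s := by
      rw [Filter.eventually_cofinite]
      simp
    have h2 : ∀ᶠ ξ in U, ξ ≠ s := hUc h1
    exact h2.mono fun ξ hξ => by simp [Ne.symm hξ]
  have hρn : (0 : ℝ) < 1 / ((m0 : ℝ) + 1) / 2 := by positivity
  have he2 : ∀ᶠ ξ in U, ∀ γ ∈ rn, dist (e (fun s => decide (s = ξ)) γ) (e0 γ) <
      1 / ((m0 : ℝ) + 1) / 2 := by
    refine (Filter.eventually_all_finset rn).2 fun γ _ => ?_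
    exact (Metric.tendsto_nhds.1 ((tendsto_pi_nhds.1 he1) γ)) _ hρn
  obtain ⟨ξ, hξρ, hξn, hξe, hξZ⟩ :=
    (hρR.and ((hrn2 ((d ζ).a ∪ rn)).and (he2.and hZ'))).exists
  set x : T → unitInterval := fun γ => if γ ∈ (d ζ).a ∪ rn then (d ζ).v γ
    else e (fun s => decide (s = ξ)) γ with hx
  have hxc : Φ x (fun y => y ξ) ≤ 1 / 2 := by
    refine (d ζ).hC x ?_ (fun y => y ξ) (continuous_apply ξ) ?_
    · intro γ hγ
      have h1 : x γ = (d ζ).v γ := if_pos (Finset.mem_union_left _ hγ)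
      rw [h1, dist_self]
      positivity
    · intro y hy
      rw [Finset.mem_coe, hζK] at hy
      show y ξ = y ζ
      rw [hξρ y hy, hζρ y hy]
  have hxu := (d ξ).hU x (e (fun s => decide (s = ξ))) (by
    intro γ hγ
    rw [hξZ.2.1]
    by_cases hγa : γ ∈ (d ζ).a ∪ rn
    · have h1 : x γ = (d ζ).v γ := if_pos hγa
      have h2 : γ ∈ rn := hξn (Finset.mem_inter.2 ⟨hγ, hγa⟩)
      rw [h1]
      have h3 := (d ζ).hB γ (hζn h2)
      rw [hζZ.2.1] at h3
      have h4 := hξe γ h2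
      rw [dist_comm] at h4
      have h5 := dist_triangle ((d ζ).v γ) (e0 γ) (e (fun s => decide (s = ξ)) γ)
      linarith
    · have h1 : x γ = e (fun s => decide (s = ξ)) γ := if_neg hγa
      rw [h1, dist_self]
      positivity)
  rw [hext] at hxu
  simp only [decide_true, if_true] at hxu
  rw [abs_lt] at hxu
  linarith [hxu.1]

end Pool.Agent.H27.TEmb
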