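import Mathlib
import Pool.Agent.H27.TEmbDefs
import Pool.Agent.H27.TEmbMain

set_option autoImplicit false

/-!
From continuous extenders to separately continuous functions.
-/

namespace Pool.Agent.H27.TEmb

open Set Topology Filter

theorem cp_nhds {Z : Type*} [TopologicalSpace Z] {f0 : Cp Z} {A : Set (Cp Z)} (hA : A ∈ 𝓝 f0) :
    ∃ I : Finset Z, ∀ f : Cp Z, (∀ y ∈ I, f.1 y = f0.1 y) → f ∈ A := by
  rw [nhds_subtype_eq_comap, Filter.mem_comap] at hA
  obtain ⟨N, hN, hNA⟩ := hA
  rw [nhds_pi, Filter.mem_pi] at hN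
  obtain ⟨I, hI, t, ht, hIt⟩ := hN
  refine ⟨hI.toFinset, fun f hf => hNA (hIt ?_)⟩
  intro y hy
  rw [hf y (hI.mem_toFinset.2 hy)]
  exact mem_of_mem_nhds (ht y)

open Classical in
theorem not_tEmbedded {S T : Type*} [Uncountable S] (Y : Set (T → unitInterval))
    (h : Y ≃ₜ (S → Bool)) : ¬ TEmbedded Y := by
  rintro ⟨φ, hφ, hφe⟩
  have hlift : ∀ g : (S → Bool) → Bool, Continuous g →
      Continuous fun y' : Y => if g (h y') = true then (1 : ℝ) else 0 := fun g hg =>
    (continuous_of_discreteTopology (f := fun b : Bool => if b = true then (1 : ℝ) else 0)).comp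
      (hg.comp h.continuous)
  let Φ : (T → unitInterval) → ((S → Bool) → Bool) → ℝ := fun x g =>
    if hg : Continuous g then (φ ⟨_, hlift g hg⟩).1 x else 0
  have hΦe : ∀ x g (hg : Continuous g), Φ x g = (φ ⟨_, hlift g hg⟩).1 x := fun x g hg => dif_pos hg
  have hcx : ∀ x, Continuous fun f : Cp Y => (φ f).1 x := fun x =>
    (continuous_apply x).comp (continuous_subtype_val.comp hφ)
  have hfin : ∀ g (hg : Continuous g) (A : Set (Cp Y)), IsOpen A → (⟨_, hlift g hg⟩ : Cp Y) ∈ A →
      ∃ H : Finset (S → Bool), ∀ g' (hg' : Continuous g'), (∀ y ∈ H, g' y = g y) →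
        (⟨_, hlift g' hg'⟩ : Cp Y) ∈ A := by
    intro g hg A hA hgA
    obtain ⟨I, hI⟩ := cp_nhds (hA.mem_nhds hgA)
    refine ⟨I.image h, fun g' hg' hH => hI _ fun y hy => ?_⟩
    have := hH (h y) (Finset.mem_image_of_mem _ hy)
    simp only [this]
  have hΦ : SepCont Φ := by
    refine ⟨?_, ?_, ?_⟩
    · intro g hg
      have : (fun x => Φ x g) = (φ ⟨_, hlift g hg⟩).1 := by
        funext x
        exact hΦe x g hg
      rw [this]
      exact (φ ⟨_, hlift g hg⟩).2
    · intro x g hg c hc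
      rw [hΦe x g hg] at hc
      obtain ⟨H, hH⟩ := hfin g hg {f | c < (φ f).1 x} (isOpen_lt continuous_const (hcx x)) hc
      refine ⟨H, fun g' hg' h' => ?_⟩
      rw [hΦe x g' hg']
      exact hH g' hg' h'
    · intro x g hg c hc
      rw [hΦe x g hg] at hc
      obtain ⟨H, hH⟩ := hfin g hg {f | (φ f).1 x < c} (isOpen_lt (hcx x) continuous_const) hc
      refine ⟨H, fun g' hg' h' => ?_⟩
      rw [hΦe x g' hg']
      exact hH g' hg' h'
  refine main (S := S) (e := fun y => (h.symm y : T → unitInterval))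
    (continuous_subtype_val.comp h.symm.continuous) hΦ ?_
  intro y ζ
  rw [hΦe _ _ (continuous_apply ζ), hφe]
  simp

end Pool.Agent.H27.TEmb
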